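import Mathlib

set_option autoImplicit false

/-! # An element of order `g` in the class group of `ℚ(√-d)` from `a² + d b² = m ^ g` -/

namespace Pool.Agent.Q148.CG

open NumberField

/-- a rational number with `d q²` an integer, `d` squarefree, is an integer -/
lemma rat_int (d : ℕ) (hd : Squarefree d) (q : ℚ) (N : ℤ) (h : (d : ℚ) * q ^ 2 = N) :
    ∃ z : ℤ, q = z := by
  have hq0 : (q.den : ℚ) ≠ 0 := by exact_mod_cast q.den_ne_zero
  have h1 : (d : ℚ) * q.num ^ 2 = N * (q.den : ℚ) ^ 2 := by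
    have h2 : q = q.num / q.den := (Rat.num_div_den q).symm
    rw [h2] at h
    field_simp at h
    linarith
  have h2 : (d : ℤ) * q.num ^ 2 = N * (q.den : ℤ) ^ 2 := by exact_mod_cast h1
  have h3 : ((q.den : ℤ) ^ 2) ∣ (d : ℤ) * q.num ^ 2 := ⟨N, by rw [h2]; ring⟩
  have h4 : IsCoprime ((q.den : ℤ) ^ 2) (q.num ^ 2) := by
    apply IsCoprime.pow
    rw [Int.isCoprime_iff_nat_coprime]
    have := q.reduced
    rw [Int.natAbs_natCast]
    exact this.symm
  have h5 : ((q.den : ℤ) ^ 2) ∣ (d : ℤ) := h4.dvd_of_dvd_mul_right h3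
  have h6 : q.den * q.den ∣ d := by
    have h7 : ((q.den * q.den : ℕ) : ℤ) ∣ (d : ℤ) := by
      push_cast
      rw [← sq]
      exact h5
    exact_mod_cast h7
  have h7 : q.den = 1 := Nat.isUnit_iff.mp (hd _ h6)
  refine ⟨q.num, ?_⟩
  have h8 : q = q.num / q.den := (Rat.num_div_den q).symm
  rw [h7] at h8
  simpa using h8

variable {K : Type*} [Field K] [NumberField K]

lemma s_not_rat (d : ℕ) (hd : 1 ≤ d) (s : K) (hs : s ^ 2 = -(d : K)) (q : ℚ) : s ≠ q := by
  rintro rfl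
  have h1 : q ^ 2 = -(d : ℚ) := by exact_mod_cast hs
  have h2 : (1 : ℚ) ≤ d := by exact_mod_cast hd
  nlinarith [sq_nonneg q]

lemma coords (h2 : Module.finrank ℚ K = 2) (d : ℕ) (hd : 1 ≤ d) (s : K) (hs : s ^ 2 = -(d : K))
    (x : K) : ∃ u v : ℚ, x = u + v * s := by
  have hli : LinearIndependent ℚ ![(1 : K), s] := by
    rw [LinearIndependent.pair_iff]
    intro u v huv
    have hv : v = 0 := by
      by_contra hv
      apply s_not_rat d hd s hs (-u / v)
      have hv' : (v : K) ≠ 0 := by exact_mod_cast hv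
      have h3 : (u : K) + v * s = 0 := by
        rw [Algebra.smul_def, Algebra.smul_def] at huv
        simpa using huv
      push_cast
      field_simp
      linear_combination h3
    subst hv
    refine ⟨?_, rfl⟩
    simpa using huv
  have hb := hli.span_eq_top_of_card_eq_finrank (by simp [h2])
  have hx : x ∈ Submodule.span ℚ (Set.range ![(1 : K), s]) := by rw [hb]; trivial
  rw [Matrix.range_cons, Matrix.range_cons, Matrix.range_empty, Set.union_empty,
    Set.singleton_union, Submodule.mem_span_pair] at hx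
  obtain ⟨u, v, huv⟩ := hx
  refine ⟨u, v, ?_⟩
  rw [← huv, Algebra.smul_def, Algebra.smul_def]
  simp

/-- the conjugation -/
lemma exists_conj (h2 : Module.finrank ℚ K = 2) (d : ℕ) (hd : 1 ≤ d) (s : K)
    (hs : s ^ 2 = -(d : K)) : ∀ x : K, ∀ u v : ℚ, x = u + v * s →
      Algebra.norm ℚ x = u ^ 2 + d * v ^ 2 ∧ Algebra.trace ℚ K x = 2 * u := by
  classical
  have : Algebra.IsQuadraticExtension ℚ K := ⟨h2⟩
  have : IsGalois ℚ K := inferInstance
  have hcard : Nat.card (K ≃ₐ[ℚ] K) = 2 := by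
    rw [IsGalois.card_aut_eq_finrank, h2]
  have hcard' : Fintype.card (K ≃ₐ[ℚ] K) = 2 := by
    rw [← Nat.card_eq_fintype_card, hcard]
  obtain ⟨τ, hτ⟩ : ∃ τ : K ≃ₐ[ℚ] K, τ ≠ 1 := by
    have : Nontrivial (K ≃ₐ[ℚ] K) := by
      apply Fintype.one_lt_card_iff_nontrivial.mp
      omega
    exact exists_ne 1
  have huniv : (Finset.univ : Finset (K ≃ₐ[ℚ] K)) = {1, τ} := by
    symm
    apply Finset.eq_univ_of_card
    rw [hcard', Finset.card_pair hτ.symm]
  have hτs : τ s = -s := by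
    have h3 : (τ s) ^ 2 = s ^ 2 := by
      rw [← map_pow, hs, map_neg, map_natCast]
    rcases sq_eq_sq_iff_eq_or_eq_neg.mp h3 with h | h
    · exfalso
      apply hτ
      ext x
      obtain ⟨u, v, rfl⟩ := coords h2 d hd s hs x
      rw [map_add, map_mul, map_ratCast, map_ratCast, h]
      rfl
    · exact h
  rintro x u v rfl
  have hτx : τ ((u : K) + v * s) = (u : K) - v * s := by
    rw [map_add, map_mul, map_ratCast, map_ratCast, hτs]
    ring
  constructor
  · have h3 := Algebra.norm_eq_prod_automorphisms ℚ ((u : K) + v * s)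
    rw [huniv, Finset.prod_pair hτ.symm, hτx] at h3
    have h4 : ((Algebra.norm ℚ ((u : K) + v * s) : ℚ) : K) = ((u ^ 2 + d * v ^ 2 : ℚ) : K) := by
      have h5 : (algebraMap ℚ K) (Algebra.norm ℚ ((u : K) + v * s)) =
        ((Algebra.norm ℚ ((u : K) + v * s) : ℚ) : K) := rfl
      rw [← h5, h3]
      push_cast
      simp only [AlgEquiv.one_apply]
      linear_combination (-(v : K) ^ 2) * hs
    exact_mod_cast h4
  · have h3 := trace_eq_sum_automorphisms (K := ℚ) ((u : K) + v * s)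
    rw [huniv, Finset.sum_pair hτ.symm, hτx] at h3
    have h4 : ((Algebra.trace ℚ K ((u : K) + v * s) : ℚ) : K) = ((2 * u : ℚ) : K) := by
      have h5 : (algebraMap ℚ K) (Algebra.trace ℚ K ((u : K) + v * s)) =
        ((Algebra.trace ℚ K ((u : K) + v * s) : ℚ) : K) := rfl
      rw [← h5, h3]
      push_cast
      simp only [AlgEquiv.one_apply]
      ring
    exact_mod_cast h4

/-- integral elements of small norm are rational integers -/
lemma small_norm (h2 : Module.finrank ℚ K = 2) (d : ℕ) (hd : Squarefree d) (s : K)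
    (hs : s ^ 2 = -(d : K)) (β : 𝓞 K) (n : ℕ) (hn : Ideal.absNorm (Ideal.span {β}) = n)
    (hnd : 4 * n < d) : ∃ r : ℤ, β = r ∧ r ^ 2 = n := by
  have hd1 : 1 ≤ d := Nat.one_le_iff_ne_zero.mpr hd.ne_zero
  obtain ⟨u, v, huv⟩ := coords h2 d hd1 s hs (β : K)
  obtain ⟨hN, hT⟩ := exists_conj h2 d hd1 s hs (β : K) u v huv
  have h3 : ((Algebra.norm ℤ β : ℤ) : ℚ) = u ^ 2 + d * v ^ 2 := by
    rw [Algebra.coe_norm_int, hN]
  have h4 : ((Algebra.trace ℤ (𝓞 K) β : ℤ) : ℚ) = 2 * u := by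
    rw [Algebra.coe_trace_int, hT]
  set N : ℤ := Algebra.norm ℤ β with hNdef
  set t : ℤ := Algebra.trace ℤ (𝓞 K) β with htdef
  have hNn : N = n := by
    rw [Ideal.absNorm_span_singleton] at hn
    have h5 : (0 : ℚ) ≤ (N : ℚ) := by
      rw [h3]
      have : (0 : ℚ) ≤ d := by positivity
      positivity
    have h6 : 0 ≤ N := by exact_mod_cast h5
    have h7 : (N.natAbs : ℤ) = N := Int.natAbs_of_nonneg h6
    rw [← h7]
    exact_mod_cast hn
  have h5 : (d : ℚ) * (2 * v) ^ 2 = ((4 * N - t ^ 2 : ℤ) : ℚ) := by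
    push_cast
    rw [h3, h4]
    ring
  obtain ⟨z, hz⟩ := rat_int d hd (2 * v) _ h5
  have h6 : (d : ℤ) * z ^ 2 = 4 * N - t ^ 2 := by
    rw [hz] at h5
    exact_mod_cast h5
  have hz0 : z = 0 := by
    by_contra hz0
    have h7 : 1 ≤ z ^ 2 := by
      have : 0 < z ^ 2 := by positivity
      omega
    have h8 : (4 * (n : ℤ)) < d := by exact_mod_cast hnd
    have h9 : (0 : ℤ) ≤ d := by positivity
    nlinarith [sq_nonneg t]
  have hv : v = 0 := by
    rw [hz0] at hz
    simpa using hz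
  rw [hv] at huv h3
  have h7 : u ^ 2 = (N : ℚ) := by rw [h3]; ring
  obtain ⟨r, hr⟩ := rat_int 1 squarefree_one u N (by rw [← h7]; simp)
  refine ⟨r, ?_, ?_⟩
  · apply RingOfIntegers.coe_injective
    change (β : K) = ((r : 𝓞 K) : K)
    rw [huv, hr]
    simp
  · rw [hr] at h7
    rw [← hNn]
    exact_mod_cast h7

/-- the class of order `g` -/
theorem exists_order (g m b d a : ℕ) (hg : 2 ≤ g) (hd : Squarefree d)
    (h : a ^ 2 + d * b ^ 2 = m ^ g) (hm : Odd m) (hm1 : 1 < m) (hc : Nat.Coprime a m)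
    (hs16 : 16 * m ^ g < d ^ 2) (h2 : Module.finrank ℚ K = 2) (s : K)
    (hs : s ^ 2 = -(d : K)) : ∃ c : ClassGroup (𝓞 K), orderOf c = g := by
  classical
  have hd1 : 1 ≤ d := Nat.one_le_iff_ne_zero.mpr hd.ne_zero
  have hint : IsIntegral ℤ s := by
    refine ⟨Polynomial.X ^ 2 + Polynomial.C (d : ℤ), ?_, ?_⟩
    · exact Polynomial.monic_X_pow_add_C _ (by norm_num)
    · simp [hs]
  set σ : 𝓞 K := ⟨s, hint⟩ with hσ
  have hσ2 : σ ^ 2 = -(d : 𝓞 K) := by
    apply RingOfIntegers.coe_injective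
    simp only [map_pow, map_neg, map_natCast]
    exact hs
  set α : 𝓞 K := a + b * σ with hα
  set α' : 𝓞 K := a - b * σ with hα'
  have hmul : α * α' = (m : 𝓞 K) ^ g := by
    have h3 : ((a ^ 2 + d * b ^ 2 : ℕ) : 𝓞 K) = (m : 𝓞 K) ^ g := by
      rw [h]
      push_cast
      rfl
    rw [← h3, hα, hα']
    push_cast
    linear_combination (-(b : 𝓞 K) ^ 2) * hσ2
  have hcop : IsCoprime α α' := by
    have h3 : Nat.Coprime (2 * a) (m ^ g) := by
      apply Nat.Coprime.pow_right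
      apply Nat.Coprime.mul_left
      · exact (Nat.coprime_two_left).mpr hm
      · exact hc
    have h4 : IsCoprime ((2 * a : ℕ) : ℤ) ((m ^ g : ℕ) : ℤ) := Nat.isCoprime_iff_coprime.mpr h3
    obtain ⟨x, y, hxy⟩ := h4
    refine ⟨(x : 𝓞 K) + y * α', x, ?_⟩
    have h5 : ((x * ((2 * a : ℕ) : ℤ) + y * ((m ^ g : ℕ) : ℤ) : ℤ) : 𝓞 K) = 1 := by
      rw [hxy]
      simp
    push_cast at h5
    have h6 : α + α' = 2 * a := by rw [hα, hα']; ring
    linear_combination h5 + (x : 𝓞 K) * h6 + (y : 𝓞 K) * hmul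
  set I : Ideal (𝓞 K) := Ideal.span {α} with hI
  set I' : Ideal (𝓞 K) := Ideal.span {α'} with hI'
  have hII : I * I' = (Ideal.span {(m : 𝓞 K)}) ^ g := by
    rw [hI, hI', Ideal.span_singleton_mul_span_singleton, hmul, Ideal.span_singleton_pow]
  have hIc : IsCoprime I I' := by
    rw [Ideal.isCoprime_span_singleton_iff]
    exact hcop
  obtain ⟨J, hJ⟩ := exists_eq_pow_of_mul_eq_pow_of_coprime hIc hII
  have hm0 : (m : 𝓞 K) ≠ 0 := by
    have : m ≠ 0 := by omega
    exact_mod_cast this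
  have hα0 : α ≠ 0 := by
    intro h0
    rw [h0, zero_mul] at hmul
    exact (pow_ne_zero g hm0) hmul.symm
  have hJ0 : J ≠ ⊥ := by
    intro h0
    rw [h0] at hJ
    have h3 : I = ⊥ := by
      rw [hJ]
      exact zero_pow (by omega)
    rw [hI, Ideal.span_singleton_eq_bot] at h3
    exact hα0 h3
  have hJm : J ∈ nonZeroDivisors (Ideal (𝓞 K)) := mem_nonZeroDivisors_of_ne_zero hJ0
  set c : ClassGroup (𝓞 K) := ClassGroup.mk0 ⟨J, hJm⟩ with hcdef
  have hpow : ∀ k : ℕ, c ^ k = 1 ↔ (J ^ k).IsPrincipal := by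
    intro k
    have hJk : J ^ k ∈ nonZeroDivisors (Ideal (𝓞 K)) := pow_mem hJm k
    rw [← ClassGroup.mk0_eq_one_iff hJk, hcdef, ← map_pow]
    rfl
  refine ⟨c, ?_⟩
  have hcg : c ^ g = 1 := by
    rw [hpow, ← hJ, hI]
    exact ⟨⟨α, rfl⟩⟩
  have hdvd : orderOf c ∣ g := orderOf_dvd_of_pow_eq_one hcg
  by_contra hne
  set k : ℕ := orderOf c with hk
  have hk0 : 0 < k := Nat.pos_of_dvd_of_pos hdvd (by omega)
  have h2k : 2 * k ≤ g := by
    obtain ⟨l, hl⟩ := hdvd
    have hl1 : l ≠ 1 := by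
      intro h0
      rw [h0, mul_one] at hl
      exact hne hl.symm
    have hl0 : l ≠ 0 := by
      intro h0
      rw [h0, mul_zero] at hl
      omega
    have : 2 ≤ l := by omega
    calc 2 * k = k * 2 := by ring
      _ ≤ k * l := Nat.mul_le_mul_left _ this
      _ = g := hl.symm
  have hprin : (J ^ k).IsPrincipal := by
    rw [← hpow, hk]
    exact pow_orderOf_eq_one c
  obtain ⟨⟨β, hβ⟩⟩ := hprin
  have hβ' : J ^ k = Ideal.span {β} := hβ
  -- norms
  have hnα : Ideal.absNorm I = m ^ g := by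
    have hσs : (algebraMap (𝓞 K) K) σ = s := rfl
    have h3 := (exists_conj h2 d hd1 s hs (α : K) a b (by
      change (algebraMap (𝓞 K) K) α = _
      rw [hα, map_add, map_mul, hσs]
      simp)).1
    have h4 : ((Algebra.norm ℤ α : ℤ) : ℚ) = ((m ^ g : ℕ) : ℚ) := by
      rw [Algebra.coe_norm_int, h3, ← h]
      push_cast
      ring
    have h5 : (Algebra.norm ℤ α : ℤ) = ((m ^ g : ℕ) : ℤ) := by exact_mod_cast h4
    rw [hI, Ideal.absNorm_span_singleton, h5, Int.natAbs_natCast]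
  have hnJ : Ideal.absNorm J = m := by
    have h3 : (Ideal.absNorm J) ^ g = m ^ g := by
      rw [← map_pow, ← hJ, hnα]
    exact Nat.pow_left_injective (by omega : g ≠ 0) h3
  have hnβ : Ideal.absNorm (Ideal.span {β}) = m ^ k := by
    rw [← hβ', map_pow, hnJ]
  have h4n : 4 * m ^ k < d := by
    have h3 : (4 * m ^ k) ^ 2 < d ^ 2 := by
      calc (4 * m ^ k) ^ 2 = 16 * m ^ (2 * k) := by ring
        _ ≤ 16 * m ^ g := by
            gcongr
            omega
        _ < d ^ 2 := hs16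
    exact lt_of_pow_lt_pow_left₀ 2 (by omega) h3
  obtain ⟨r, hr, hr2⟩ := small_norm h2 d hd s hs β (m ^ k) hnβ h4n
  -- `(r)² = (m)^k`
  have h5 : (J ^ k) ^ 2 = (Ideal.span {(m : 𝓞 K)}) ^ k := by
    rw [hβ', hr, Ideal.span_singleton_pow, Ideal.span_singleton_pow]
    congr 2
    have h6 : ((r ^ 2 : ℤ) : 𝓞 K) = (((m ^ k : ℕ) : ℤ) : 𝓞 K) := by rw [hr2]
    push_cast at h6
    exact h6
  have h6 : I ^ k * I ^ k = I ^ k * I' ^ k := by
    calc I ^ k * I ^ k = ((J ^ k) ^ 2) ^ g := by rw [hJ]; ring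
      _ = ((Ideal.span {(m : 𝓞 K)}) ^ k) ^ g := by rw [h5]
      _ = ((Ideal.span {(m : 𝓞 K)}) ^ g) ^ k := by ring
      _ = (I * I') ^ k := by rw [hII]
      _ = _ := by ring
  have hI0 : I ^ k ≠ 0 := by
    apply pow_ne_zero
    intro h0
    have h7 : I = ⊥ := h0
    rw [hI, Ideal.span_singleton_eq_bot] at h7
    exact hα0 h7
  have h7 : I ^ k = I' ^ k := mul_left_cancel₀ hI0 h6
  have h8 : IsCoprime (I ^ k) (I' ^ k) := hIc.pow
  rw [← h7, isCoprime_self] at h8
  have h9 : I ^ k = 1 := by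
    have := Ideal.isUnit_iff.mp h8
    rw [this, Ideal.one_eq_top]
  have h10 : Ideal.absNorm (I ^ k) = 1 := by
    rw [h9, map_one]
  rw [map_pow, hnα, ← pow_mul] at h10
  have h11 : 1 < m ^ (g * k) := Nat.one_lt_pow (by positivity) hm1
  omega

end Pool.Agent.Q148.CG
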