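import Pool.Agent.Q148.CG.Fin

set_option autoImplicit false

/-! # All residue classes at once -/

namespace Pool.Agent.Q148.CG

lemma PG_K (g W k : ℕ) (K K' : ℝ) (x : ℕ) (hK : K ≤ K') (h : PG g W k K x) : PG g W k K' x := by
  obtain ⟨n, h1, h2, h3, h4, h5⟩ := h
  refine ⟨n, h1, h2.trans ?_, h3, h4, h5⟩
  gcongr

lemma PG_class (g W k k' : ℕ) (K : ℝ) (x : ℕ) (hB : k ≡ k' [MOD W]) (h : PG g W k K x) :
    PG g W k' K x := by
  obtain ⟨n, h1, h2, h3, h4, h5⟩ := h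
  exact ⟨n, h1, h2, h3, h4.trans hB, h5⟩

/-- the exceptional set for the residue class of `r` modulo `N`: empty when the class contains no
squarefree number -/
def Exc (g N : ℕ) (K : ℝ) (X : ℝ) (r : ℕ) : Set ℕ :=
  {x : ℕ | (x : ℝ) ≤ X ∧ (∃ k, Squarefree k ∧ k ≡ r [MOD N]) ∧ ¬ PG g N r K x}

lemma one_class (g N r : ℕ) (hg : 2 ≤ g) (hN : 1 ≤ N) (η : ℝ) (hη : 0 < η) :
    ∃ K : ℝ, 0 < K ∧ ∃ X₀ : ℝ, ∀ X : ℝ, X₀ ≤ X → ((Exc g N K X r).ncard : ℝ) ≤ η * X := by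
  by_cases hr : ∃ k, Squarefree k ∧ k ≡ r [MOD N]
  · obtain ⟨k, hk, hkr⟩ := hr
    obtain ⟨K, hK, X₀, h⟩ := main g N k hg hN hk η hη
    refine ⟨K, hK, X₀, ?_⟩
    intro X hX
    refine le_trans ?_ (h X hX)
    have hfin : {x : ℕ | (x : ℝ) ≤ X ∧ ¬ PG g N k K x}.Finite := by
      apply (Set.finite_Iic ⌊X⌋₊).subset
      intro x hx
      exact Nat.le_floor hx.1
    have hsub : Exc g N K X r ⊆ {x : ℕ | (x : ℝ) ≤ X ∧ ¬ PG g N k K x} := by
      intro x hx
      refine ⟨hx.1, ?_⟩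
      intro h1
      exact hx.2.2 (PG_class g N k r K x hkr h1)
    exact_mod_cast Set.ncard_le_ncard hsub hfin
  · refine ⟨1, one_pos, 0, ?_⟩
    intro X hX
    have h1 : Exc g N 1 X r = ∅ := by
      ext x
      simp only [Exc, Set.mem_ofPred_eq, Set.mem_empty_iff_false, iff_false]
      rintro ⟨_, h2, _⟩
      exact hr h2
    rw [h1, Set.ncard_empty]
    push_cast
    positivity

/-- all admissible classes modulo `N` are represented in almost all short intervals -/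
theorem all_classes (g N : ℕ) (hg : 2 ≤ g) (hN : 1 ≤ N) (η : ℝ) (hη : 0 < η) :
    ∃ K : ℝ, ∃ X₀ : ℝ, ∀ X : ℝ, X₀ ≤ X →
      (({x : ℕ | (x : ℝ) ≤ X ∧ ¬ ∀ k : ℕ, Squarefree k → PG g N k K x}).ncard : ℝ) ≤ η * X := by
  classical
  have hM0 : (0 : ℝ) < N := by exact_mod_cast hN
  have h1 : ∀ r : ℕ, ∃ K : ℝ, 0 < K ∧ ∃ X₀ : ℝ, ∀ X : ℝ, X₀ ≤ X →
      ((Exc g N K X r).ncard : ℝ) ≤ η / N * X :=
    fun r => one_class g N r hg hN (η / N) (by positivity)
  choose K hK X₀ h using h1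
  refine ⟨∑ r ∈ Finset.range N, K r, ∑ r ∈ Finset.range N, |X₀ r|, ?_⟩
  intro X hX
  set K' : ℝ := ∑ r ∈ Finset.range N, K r with hK'
  have hKr : ∀ r ∈ Finset.range N, K r ≤ K' := by
    intro r hr
    exact Finset.single_le_sum (f := K) (fun i _ => (hK i).le) hr
  have hXr : ∀ r ∈ Finset.range N, X₀ r ≤ X := by
    intro r hr
    have h2 := Finset.single_le_sum (f := fun r => |X₀ r|) (fun i _ => abs_nonneg _) hr
    exact ((le_abs_self _).trans h2).trans hX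
  have hsub : {x : ℕ | (x : ℝ) ≤ X ∧ ¬ ∀ k : ℕ, Squarefree k → PG g N k K' x} ⊆
      ⋃ r ∈ Finset.range N, Exc g N (K r) X r := by
    intro x hx
    obtain ⟨hx1, hx2⟩ := hx
    push Not at hx2
    obtain ⟨k, hk1, hk2⟩ := hx2
    rw [Set.mem_iUnion₂]
    have hr : k % N ∈ Finset.range N := by
      rw [Finset.mem_range]
      exact Nat.mod_lt _ (by omega)
    refine ⟨k % N, hr, hx1, ⟨k, hk1, (Nat.mod_modEq k N).symm⟩, ?_⟩
    intro h3
    apply hk2
    exact PG_K _ _ _ _ _ _ (hKr _ hr) (PG_class _ _ _ _ _ _ (Nat.mod_modEq k N) h3)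
  have hfin : ∀ r, (Exc g N (K r) X r).Finite := by
    intro r
    apply (Set.finite_Iic ⌊X⌋₊).subset
    intro x hx
    exact Nat.le_floor hx.1
  have hfinU : (⋃ r ∈ Finset.range N, Exc g N (K r) X r).Finite := by
    apply Set.Finite.biUnion (Finset.finite_toSet _)
    intro r _
    exact hfin r
  have h2 := Set.ncard_le_ncard hsub hfinU
  have h3 : (⋃ r ∈ Finset.range N, Exc g N (K r) X r).ncard ≤
      ∑ r ∈ Finset.range N, (Exc g N (K r) X r).ncard := by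
    exact Finset.set_ncard_biUnion_le _ _
  calc (({x : ℕ | (x : ℝ) ≤ X ∧ ¬ ∀ k : ℕ, Squarefree k → PG g N k K' x}).ncard : ℝ) ≤
      ((∑ r ∈ Finset.range N, (Exc g N (K r) X r).ncard : ℕ) : ℝ) := by
        exact_mod_cast h2.trans h3
    _ ≤ ∑ r ∈ Finset.range N, η / N * X := by
        push_cast
        apply Finset.sum_le_sum
        intro r hr
        exact h r X (hXr r hr)
    _ = η * X := by
        rw [Finset.sum_const, Finset.card_range, nsmul_eq_mul]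
        field_simp

end Pool.Agent.Q148.CG
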