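import Pool.Agent.Q148.CN.Bad

set_option autoImplicit false

/-! # The arithmetic of `a² + d W² = m ^ g` and the count of the bad pairs -/

namespace Pool.Agent.Q148.CG

open Finset Pool.Agent.Q148.CN

/-- the residue of `a` -/
def r0 (e k : ℕ) : ℤ := 1 - 8 * e ^ 2 * k

/-- the modulus -/
def md (e : ℕ) : ℕ := (4 * e) ^ 3

lemma arith (g e k m a : ℕ) (he : 1 ≤ e) (hm : (md e : ℤ) ∣ (m : ℤ) - 1)
    (ha : (md e : ℤ) ∣ (a : ℤ) - r0 e k) (hlt : a ^ 2 < m ^ g) :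
    ∃ d : ℕ, a ^ 2 + d * (4 * e) ^ 2 = m ^ g ∧ d ≡ k [MOD 4 * e] := by
  have h1 : (md e : ℤ) ∣ (m : ℤ) ^ g - 1 := by
    have h2 : (m : ℤ) - 1 ∣ (m : ℤ) ^ g - 1 := by
      simpa using sub_dvd_pow_sub_pow (m : ℤ) 1 g
    exact hm.trans h2
  obtain ⟨x, hx⟩ := h1
  obtain ⟨y, hy⟩ := ha
  unfold md r0 at *
  push_cast at hx hy
  have h2 : (m : ℤ) ^ g - a ^ 2 = (4 * e) ^ 2 * (k + (4 * e) * (x - 2 * (1 - 8 * e ^ 2 * k) * y -
      (4 * e) ^ 3 * y ^ 2 - e * k ^ 2)) := by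
    have h3 : (a : ℤ) = 1 - 8 * e ^ 2 * k + (4 * e) ^ 3 * y := by linear_combination hy
    rw [h3]
    linear_combination hx
  set z : ℤ := k + (4 * e) * (x - 2 * (1 - 8 * e ^ 2 * k) * y - (4 * e) ^ 3 * y ^ 2 - e * k ^ 2)
    with hz
  have he0 : (0 : ℤ) < (4 * e) ^ 2 := by
    have : (1 : ℤ) ≤ e := by exact_mod_cast he
    positivity
  have h4 : (0 : ℤ) < (m : ℤ) ^ g - a ^ 2 := by
    have : ((a ^ 2 : ℕ) : ℤ) < ((m ^ g : ℕ) : ℤ) := by exact_mod_cast hlt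
    push_cast at this
    linarith
  have hz0 : 0 < z := by
    rw [h2] at h4
    exact (mul_pos_iff_of_pos_left he0).mp h4
  obtain ⟨d, hd⟩ := Int.eq_ofNat_of_zero_le hz0.le
  refine ⟨d, ?_, ?_⟩
  · have h5 : ((a ^ 2 + d * (4 * e) ^ 2 : ℕ) : ℤ) = ((m ^ g : ℕ) : ℤ) := by
      push_cast
      rw [hd] at h2
      linear_combination -h2
    exact_mod_cast h5
  · apply Nat.ModEq.symm
    rw [Nat.modEq_iff_dvd]
    refine ⟨x - 2 * (1 - 8 * e ^ 2 * k) * y - (4 * e) ^ 3 * y ^ 2 - e * k ^ 2, ?_⟩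
    rw [← hd, hz]
    push_cast
    ring

/-- a set of congruent numbers in an interval -/
lemma card_sep (A : Finset ℕ) (a n q : ℕ) (h1 : ∀ x ∈ A, a ≤ x ∧ x ≤ a + n)
    (h2 : ∀ x ∈ A, ∀ y ∈ A, (q : ℤ) ∣ (y : ℤ) - x) : (A.card : ℝ) ≤ n / q + 1 := by
  have h3 : A.card ≤ (range (n / q + 1)).card := by
    apply Finset.card_le_card_of_injOn (fun u => (u - a) / q)
    · intro u hu
      have hu' := h1 u hu
      simp only [Finset.coe_range, Set.mem_Iio]
      have := Nat.div_le_div_right (c := q) (show u - a ≤ n by omega)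
      omega
    · intro u hu v hv huv
      have hu' := h1 u hu
      have hv' := h1 v hv
      simp only at huv
      have h4 := h2 u hu v hv
      have h5 : u - a ≡ v - a [MOD q] := by
        rw [Nat.modEq_iff_dvd]
        rw [Nat.cast_sub hu'.1, Nat.cast_sub hv'.1]
        have : (v : ℤ) - a - (u - a) = (v : ℤ) - u := by ring
        rw [this]
        exact h4
      have h6 : (u - a) % q = (v - a) % q := h5
      have h7 : u - a = v - a := by
        rw [← Nat.div_add_mod (u - a) q, ← Nat.div_add_mod (v - a) q, huv, h6]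
      omega
  rw [Finset.card_range] at h3
  calc (A.card : ℝ) ≤ ((n / q + 1 : ℕ) : ℝ) := by exact_mod_cast h3
    _ = ((n / q : ℕ) : ℝ) + 1 := by push_cast; ring
    _ ≤ (n : ℝ) / q + 1 := by
        gcongr
        exact Nat.cast_div_le

/-- the numbers `a ≤ N` in the residue class -/
noncomputable def Rs (e k N : ℕ) : Finset ℕ :=
  (range (N + 1)).filter (fun a => (md e : ℤ) ∣ (a : ℤ) - r0 e k)

lemma cop_m (e p m : ℕ) (hp : p.Prime) (hm : (md e : ℤ) ∣ (m : ℤ) - 1) (hpm : p ∣ m) :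
    ¬ p ∣ 4 * e := by
  intro h
  have h1 : (p : ℤ) ∣ (m : ℤ) - 1 := by
    refine dvd_trans ?_ hm
    unfold md
    have h2 : p ∣ (4 * e) ^ 3 := dvd_pow h (by norm_num)
    exact_mod_cast h2
  have h3 : (p : ℤ) ∣ (m : ℤ) := by exact_mod_cast hpm
  have h4 : (p : ℤ) ∣ 1 := by
    have := dvd_sub h3 h1
    simpa using this
  have h5 : p ∣ 1 := by exact_mod_cast h4
  exact hp.one_lt.ne' (Nat.dvd_one.mp h5)

lemma cop_md (e p : ℕ) (hp : p.Prime) (h : ¬ p ∣ 4 * e) : Nat.Coprime (md e) p := by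
  unfold md
  apply Nat.Coprime.pow_left
  exact ((Nat.Prime.coprime_iff_not_dvd hp).mpr h).symm

lemma card_div (e k N p : ℕ) (hp : p.Prime) (hpe : ¬ p ∣ 4 * e) (he : 1 ≤ e) :
    ((((Rs e k N).filter (fun a => p ∣ a)).card : ℕ) : ℝ) ≤ N / (md e * p) + 1 := by
  have hmd : 1 ≤ md e := by
    unfold md
    exact Nat.one_le_pow _ _ (by omega)
  have h1 := card_sep ((Rs e k N).filter (fun a => p ∣ a)) 0 N (md e * p)
    ?_ ?_
  · push_cast at h1
    exact h1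
  · intro x hx
    unfold Rs at hx
    rw [Finset.mem_filter, Finset.mem_filter, Finset.mem_range] at hx
    omega
  · intro x hx y hy
    unfold Rs at hx hy
    rw [Finset.mem_filter, Finset.mem_filter] at hx hy
    have h2 : (md e : ℤ) ∣ (y : ℤ) - x := by
      have := dvd_sub hy.1.2 hx.1.2
      simpa using this
    have h3 : (p : ℤ) ∣ (y : ℤ) - x := by
      apply dvd_sub
      · exact_mod_cast hy.2
      · exact_mod_cast hx.2
    push_cast
    exact (Nat.isCoprime_iff_coprime.mpr (cop_md e p hp hpe)).mul_dvd h2 h3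

lemma card_sq (g e k N m p : ℕ) (hp : p.Prime) (hpe : ¬ p ∣ 4 * e) (he : 1 ≤ e)
    (hpm : ¬ p ∣ m) :
    ((((Rs e k N).filter (fun a : ℕ => ((p ^ 2 : ℕ) : ℤ) ∣ (m : ℤ) ^ g - a ^ 2)).card : ℕ) : ℝ) ≤
      2 * (N / (md e * p ^ 2) + 1) := by
  classical
  have hmd : 1 ≤ md e := by
    unfold md
    exact Nat.one_le_pow _ _ (by omega)
  set A : Finset ℕ := (Rs e k N).filter (fun a : ℕ => ((p ^ 2 : ℕ) : ℤ) ∣ (m : ℤ) ^ g - a ^ 2) with hA
  rcases A.eq_empty_or_nonempty with h0 | ⟨r, hr⟩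
  · rw [h0]
    simp only [Finset.card_empty, Nat.cast_zero]
    positivity
  have hp2 : ¬ p ∣ 2 := by
    intro h
    apply hpe
    exact h.trans ⟨2 * e, by ring⟩
  have hpa : ∀ a ∈ A, ¬ (p : ℤ) ∣ (a : ℤ) := by
    intro a ha h
    rw [hA, Finset.mem_filter] at ha
    have h1 : (p : ℤ) ∣ (m : ℤ) ^ g - a ^ 2 := by
      refine dvd_trans ?_ ha.2
      push_cast
      exact dvd_pow_self _ (by norm_num)
    have h2 : (p : ℤ) ∣ (a : ℤ) ^ 2 := dvd_pow h (by norm_num)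
    have h3 : (p : ℤ) ∣ (m : ℤ) ^ g := by
      have := dvd_add h1 h2
      simpa using this
    have h4 : p ∣ m ^ g := by exact_mod_cast h3
    exact hpm (hp.dvd_of_dvd_pow h4)
  have hpp : Prime (p : ℤ) := Nat.prime_iff_prime_int.mp hp
  have hkey : ∀ a ∈ A, ((p ^ 2 : ℕ) : ℤ) ∣ (a : ℤ) - r ∨ ((p ^ 2 : ℕ) : ℤ) ∣ (a : ℤ) + r := by
    intro a ha
    have h1 : ((p ^ 2 : ℕ) : ℤ) ∣ ((a : ℤ) - r) * (a + r) := by
      have h2 := (Finset.mem_filter.mp ha).2
      have h3 := (Finset.mem_filter.mp hr).2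
      have h4 := dvd_sub h3 h2
      have h5 : (m : ℤ) ^ g - r ^ 2 - ((m : ℤ) ^ g - a ^ 2) = ((a : ℤ) - r) * (a + r) := by ring
      rw [h5] at h4
      exact h4
    by_cases h2 : (p : ℤ) ∣ (a : ℤ) - r
    · left
      have h3 : ¬ (p : ℤ) ∣ (a : ℤ) + r := by
        intro h3
        have h4 : (p : ℤ) ∣ 2 * a := by
          have := dvd_add h2 h3
          have h5 : (a : ℤ) - r + (a + r) = 2 * a := by ring
          rwa [h5] at this
        rcases hpp.dvd_or_dvd h4 with h5 | h5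
        · exact hp2 (by exact_mod_cast h5)
        · exact hpa a ha h5
      have h4 : IsCoprime ((p ^ 2 : ℕ) : ℤ) ((a : ℤ) + r) := by
        push_cast
        apply IsCoprime.pow_left
        exact (hpp.coprime_iff_not_dvd).mpr h3
      exact h4.dvd_of_dvd_mul_right h1
    · right
      have h4 : IsCoprime ((p ^ 2 : ℕ) : ℤ) ((a : ℤ) - r) := by
        push_cast
        apply IsCoprime.pow_left
        exact (hpp.coprime_iff_not_dvd).mpr h2
      exact h4.dvd_of_dvd_mul_left h1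
  have hcop : IsCoprime (md e : ℤ) ((p ^ 2 : ℕ) : ℤ) := by
    rw [Nat.isCoprime_iff_coprime]
    exact (cop_md e p hp hpe).pow_right 2
  have hgen : ∀ s : ℤ, (((A.filter (fun a : ℕ => ((p ^ 2 : ℕ) : ℤ) ∣ (a : ℤ) - s)).card : ℕ) : ℝ) ≤
      N / (md e * p ^ 2) + 1 := by
    intro s
    have h1 := card_sep (A.filter (fun a : ℕ => ((p ^ 2 : ℕ) : ℤ) ∣ (a : ℤ) - s)) 0 N (md e * p ^ 2)
      ?_ ?_
    · push_cast at h1
      exact h1
    · intro x hx
      rw [Finset.mem_filter, hA, Finset.mem_filter] at hx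
      have := hx.1.1
      unfold Rs at this
      rw [Finset.mem_filter, Finset.mem_range] at this
      omega
    · intro x hx y hy
      rw [Finset.mem_filter, hA, Finset.mem_filter] at hx hy
      have hx1 := hx.1.1
      have hy1 := hy.1.1
      unfold Rs at hx1 hy1
      rw [Finset.mem_filter] at hx1 hy1
      have h2 : (md e : ℤ) ∣ (y : ℤ) - x := by
        have := dvd_sub hy1.2 hx1.2
        simpa using this
      have h3 : ((p ^ 2 : ℕ) : ℤ) ∣ (y : ℤ) - x := by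
        have := dvd_sub hy.2 hx.2
        simpa using this
      have h4 := hcop.mul_dvd h2 h3
      push_cast at h4 ⊢
      exact h4
  have hsub : A ⊆ A.filter (fun a : ℕ => ((p ^ 2 : ℕ) : ℤ) ∣ (a : ℤ) - r) ∪
      A.filter (fun a : ℕ => ((p ^ 2 : ℕ) : ℤ) ∣ (a : ℤ) - (-(r : ℤ))) := by
    intro a ha
    rw [Finset.mem_union]
    rcases hkey a ha with h1 | h1
    · exact Or.inl (Finset.mem_filter.mpr ⟨ha, h1⟩)
    · right
      apply Finset.mem_filter.mpr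
      refine ⟨ha, ?_⟩
      rw [sub_neg_eq_add]
      exact h1
  have h1 := (Finset.card_le_card hsub).trans (Finset.card_union_le _ _)
  have h2 : (A.card : ℝ) ≤ (((A.filter (fun a : ℕ => ((p ^ 2 : ℕ) : ℤ) ∣ (a : ℤ) - r)).card : ℕ) : ℝ) +
      (((A.filter (fun a : ℕ => ((p ^ 2 : ℕ) : ℤ) ∣ (a : ℤ) - (-(r : ℤ)))).card : ℕ) : ℝ) := by
    exact_mod_cast h1
  have h3 := hgen r
  have h4 := hgen (-(r : ℤ))
  linarith

/-- the values of `m` -/
def mj (e M S j : ℕ) : ℕ := M + md e * S * j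

lemma card_m (e M S T p : ℕ) (hp : p.Prime) (hpe : ¬ p ∣ 4 * e) (hpS : ¬ p ∣ S) :
    ((((Ioc T (2 * T)).filter (fun j => p ∣ mj e M S j)).card : ℕ) : ℝ) ≤ T / p + 1 := by
  apply card_sep _ T T p
  · intro x hx
    rw [Finset.mem_filter, Finset.mem_Ioc] at hx
    omega
  · intro x hx y hy
    rw [Finset.mem_filter] at hx hy
    have hpp : Prime (p : ℤ) := Nat.prime_iff_prime_int.mp hp
    have h1 : (p : ℤ) ∣ (mj e M S y : ℤ) - mj e M S x := by
      apply dvd_sub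
      · exact_mod_cast hy.2
      · exact_mod_cast hx.2
    have h2 : (mj e M S y : ℤ) - mj e M S x = ((md e : ℤ) * S) * ((y : ℤ) - x) := by
      unfold mj
      push_cast
      ring
    rw [h2] at h1
    rcases hpp.dvd_or_dvd h1 with h3 | h3
    · exfalso
      rcases hpp.dvd_or_dvd h3 with h4 | h4
      · have h5 : p ∣ md e := by exact_mod_cast h4
        unfold md at h5
        exact hpe (hp.dvd_of_dvd_pow h5)
      · exact hpS (by exact_mod_cast h4)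
    · exact h3

/-- the pair `(a, j)` does not lead to a squarefree number -/
def BadQ (g e M S a j : ℕ) : Prop :=
  ∃ p : ℕ, p.Prime ∧ ¬ p ∣ 4 * e ∧ ((p ^ 2 : ℕ) : ℤ) ∣ (mj e M S j : ℤ) ^ g - a ^ 2

open Classical in
/-- the set of bad pairs -/
noncomputable def BadT (g e k M S N T : ℕ) : Finset (ℕ × ℕ) :=
  ((Rs e k N) ×ˢ (Ioc T (2 * T))).filter
    (fun x => x.1 ^ 2 < mj e M S x.2 ^ g ∧ BadQ g e M S x.1 x.2)

lemma good_sqfree (g e k M S a j d : ℕ) (hk : Squarefree k)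
    (he2 : ∀ p : ℕ, p.Prime → p ∣ 4 * e → p ^ 2 ∣ 4 * e)
    (hd : a ^ 2 + d * (4 * e) ^ 2 = mj e M S j ^ g) (hdk : d ≡ k [MOD 4 * e])
    (hnb : ¬ BadQ g e M S a j) : Squarefree d := by
  rw [Nat.squarefree_iff_prime_squarefree]
  intro p hp hpd
  by_cases h : p ∣ 4 * e
  · have h1 := he2 p hp h
    have h2 : p ^ 2 ∣ k := by
      have h3 : d ≡ k [MOD p ^ 2] := hdk.of_dvd h1
      have h4 : p ^ 2 ∣ d := by rw [sq]; exact hpd
      exact (h3.dvd_iff (dvd_refl _)).mp h4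
    have h3 : p * p ∣ k := by rw [← sq]; exact h2
    exact hp.one_lt.ne' (Nat.isUnit_iff.mp (hk p h3))
  · apply hnb
    refine ⟨p, hp, h, ?_⟩
    have h1 : ((a ^ 2 + d * (4 * e) ^ 2 : ℕ) : ℤ) = ((mj e M S j ^ g : ℕ) : ℤ) := by rw [hd]
    push_cast at h1
    have h2 : (mj e M S j : ℤ) ^ g - a ^ 2 = d * (4 * e) ^ 2 := by linear_combination -h1
    rw [h2]
    have h3 : p ^ 2 ∣ d := by rw [sq]; exact hpd
    have h4 : ((p ^ 2 : ℕ) : ℤ) ∣ (d : ℤ) := by exact_mod_cast h3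
    exact h4.mul_right _

lemma good_coprime (g e M S a j : ℕ) (hg : 2 ≤ g) (hM : (md e : ℤ) ∣ (mj e M S j : ℤ) - 1)
    (hnb : ¬ BadQ g e M S a j) : Nat.Coprime a (mj e M S j) := by
  by_contra hc
  obtain ⟨p, hp, hpa, hpm⟩ := Nat.Prime.not_coprime_iff_dvd.mp hc
  apply hnb
  refine ⟨p, hp, cop_m e p _ hp hM hpm, ?_⟩
  have h1 : ((p ^ 2 : ℕ) : ℤ) ∣ (a : ℤ) ^ 2 := by
    have : p ^ 2 ∣ a ^ 2 := pow_dvd_pow_of_dvd hpa 2
    exact_mod_cast this
  have h2 : ((p ^ 2 : ℕ) : ℤ) ∣ (mj e M S j : ℤ) ^ g := by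
    have : p ^ 2 ∣ mj e M S j ^ g := (pow_dvd_pow_of_dvd hpm 2).trans (pow_dvd_pow _ hg)
    exact_mod_cast this
  exact dvd_sub h2 h1

end Pool.Agent.Q148.CG
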