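import Pool.Agent.Q148.CG.Core

set_option autoImplicit false

/-! # The choice of the parameters -/

namespace Pool.Agent.Q148.CG

open Finset MeasureTheory Filter

/-- the bound for the measure of the exceptional set -/
noncomputable def Bd (g e T L N D : ℕ) (V : ℝ) : ℝ :=
  1936 * (L / T) * (V ^ 2 + 16 * (3 ^ g) ^ 6 * V * md e * T * (1 + Real.log T) +
        160 * (3 ^ g) ^ 3 * md e * V * Real.sqrt V * T * Real.sqrt L) +
      160 * md e * (3 ^ g * V) / T * (3 * T * N / (md e * D) + (T + N) * (1 + Real.log N) + N +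
        2 * T * Nat.primeCounting N)

lemma choice (Q M : ℕ) (U : ℝ) (hQ : 1 ≤ Q) (hU : 4 * Q ≤ U) (hUM : U ≤ M) :
    ∃ n T : ℕ, Q * 2 ^ n * T ≤ M ∧ M ≤ 2 * (Q * 2 ^ n * T) ∧ 1 ≤ T ∧ (T : ℝ) ≤ U ∧
      U ≤ 4 * Q * T := by
  have hQr : (1 : ℝ) ≤ Q := by exact_mod_cast hQ
  have hU0 : 4 ≤ U := by linarith
  obtain ⟨n, hn1, hn2⟩ := exists_nat_pow_near (x := max 1 ((M : ℝ) / (Q * U))) (y := 2)
    (le_max_left _ _) (by norm_num)
  set S : ℝ := 2 ^ (n + 1) with hS
  have hS0 : 0 < S := by rw [hS]; positivity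
  have hS2 : S ≤ 2 * max 1 ((M : ℝ) / (Q * U)) := by
    rw [hS, pow_succ]
    linarith
  set y : ℝ := M / (Q * S) with hy
  have hyU : y ≤ U := by
    have h1 : (M : ℝ) / (Q * U) ≤ S := (le_max_right _ _).trans hn2.le
    rw [div_le_iff₀ (by positivity)] at h1
    rw [hy, div_le_iff₀ (by positivity)]
    linarith
  have hUy : U ≤ 2 * Q * y := by
    rw [hy]
    have h1 : 2 * Q * ((M : ℝ) / (Q * S)) = 2 * M / S := by
      field_simp
    rw [h1, le_div_iff₀ hS0]
    rcases le_total (1 : ℝ) ((M : ℝ) / (Q * U)) with h2 | h2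
    · rw [max_eq_right h2] at hS2
      calc U * S ≤ U * (2 * (M / (Q * U))) := by gcongr
        _ = 2 * M / Q := by field_simp
        _ ≤ 2 * M := div_le_self (by positivity) hQr
    · rw [max_eq_left h2] at hS2
      calc U * S ≤ M * 2 := by
            have : (0 : ℝ) ≤ M := by positivity
            gcongr
            linarith
        _ = _ := by ring
  have hy2 : 2 ≤ y := by
    by_contra hc
    push Not at hc
    have : 2 * (Q : ℝ) * y < 2 * Q * 2 := by gcongr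
    linarith
  set T : ℕ := M / (Q * 2 ^ (n + 1)) with hT
  have hQS : 0 < Q * 2 ^ (n + 1) := by positivity
  have hTy : (T : ℝ) ≤ y := by
    rw [hT, hy, hS]
    have := @Nat.cast_div_le ℝ _ _ _ M (Q * 2 ^ (n + 1))
    push_cast at this
    exact this
  have hyT : y < T + 1 := by
    rw [hy, div_lt_iff₀ (by positivity)]
    have h1 := Nat.lt_div_mul_add (a := M) (b := Q * 2 ^ (n + 1)) hQS
    rw [← hT] at h1
    have h2 : (M : ℝ) < T * (Q * 2 ^ (n + 1)) + Q * 2 ^ (n + 1) := by exact_mod_cast h1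
    rw [hS]
    linarith
  have hT1r : (1 : ℝ) < T := by linarith
  have hT1 : 1 ≤ T := by exact_mod_cast hT1r.le
  refine ⟨n + 1, T, ?_, ?_, hT1, hTy.trans hyU, ?_⟩
  · rw [mul_comm]
    exact Nat.div_mul_le_self M _
  · have h1 := Nat.lt_div_mul_add (a := M) (b := Q * 2 ^ (n + 1)) hQS
    rw [← hT] at h1
    have h2 : Q * 2 ^ (n + 1) ≤ T * (Q * 2 ^ (n + 1)) := Nat.le_mul_of_pos_left _ (by omega)
    have h3 : T * (Q * 2 ^ (n + 1)) = Q * 2 ^ (n + 1) * T := by ring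
    omega
  · have h1 : y ≤ 2 * T := by linarith
    calc U ≤ 2 * Q * y := hUy
      _ ≤ 2 * Q * (2 * T) := by gcongr
      _ = _ := by ring

lemma log_sqrt (T : ℝ) (hT : 1 ≤ T) : 1 + Real.log T ≤ 2 * Real.sqrt T := by
  have h1 : Real.log T = 2 * Real.log (Real.sqrt T) := by
    rw [Real.log_sqrt (by linarith)]
    ring
  have h2 : 0 < Real.sqrt T := Real.sqrt_pos.mpr (by linarith)
  have h3 := Real.log_le_sub_one_of_pos h2
  linarith

/-- the size of the square root of `M ^ g` -/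
noncomputable def Vv (g M : ℕ) : ℝ := (M : ℝ) ^ ((g : ℝ) / 2)

/-- the upper bound for `T` -/
noncomputable def Uu (g M : ℕ) : ℝ := (M : ℝ) ^ (min 1 ((g : ℝ) / 6))

lemma Vv_sq (g M : ℕ) : Vv g M ^ 2 = (M : ℝ) ^ g := by
  unfold Vv
  rw [← Real.rpow_natCast, ← Real.rpow_mul (by positivity), ← Real.rpow_natCast]
  congr 1
  push_cast
  ring

lemma Vv_tendsto (g : ℕ) (hg : 2 ≤ g) : Tendsto (Vv g) atTop atTop := by
  have hg0 : (2 : ℝ) ≤ g := by exact_mod_cast hg
  unfold Vv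
  exact (tendsto_rpow_atTop (by linarith)).comp tendsto_natCast_atTop_atTop

lemma Uu_tendsto (g : ℕ) (hg : 2 ≤ g) : Tendsto (Uu g) atTop atTop := by
  have hg0 : (2 : ℝ) ≤ g := by exact_mod_cast hg
  unfold Uu
  apply (tendsto_rpow_atTop _).comp tendsto_natCast_atTop_atTop
  apply lt_min one_pos
  linarith

lemma Uu_le (g M : ℕ) (hM : 1 ≤ M) : Uu g M ≤ M ∧ Uu g M ^ 3 ≤ Vv g M := by
  have hM0 : (1 : ℝ) ≤ M := by exact_mod_cast hM
  constructor
  · unfold Uu
    calc (M : ℝ) ^ (min 1 ((g : ℝ) / 6)) ≤ (M : ℝ) ^ (1 : ℝ) := by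
          apply Real.rpow_le_rpow_of_exponent_le hM0 (min_le_left _ _)
      _ = M := Real.rpow_one _
  · unfold Uu Vv
    rw [← Real.rpow_natCast, ← Real.rpow_mul (by positivity)]
    apply Real.rpow_le_rpow_of_exponent_le hM0
    have := min_le_right (1 : ℝ) ((g : ℝ) / 6)
    push_cast
    linarith

lemma log_small (g : ℕ) (hg : 2 ≤ g) (A : ℝ) (R : ℝ) (hR : 0 < R) :
    ∀ᶠ M : ℕ in atTop, A * (1 + Real.log (R * Vv g M)) ≤ Uu g M := by
  have hg0 : (2 : ℝ) ≤ g := by exact_mod_cast hg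
  set τ : ℝ := min 1 ((g : ℝ) / 6) with hτ
  have hτ0 : 0 < τ := by
    apply lt_min one_pos
    linarith
  have h1 : (fun x : ℝ => A * (1 + Real.log R) + A * ((g : ℝ) / 2) * Real.log x) =o[atTop]
      fun x : ℝ => x ^ τ := by
    apply Asymptotics.IsLittleO.add
    · rw [Asymptotics.isLittleO_const_left]
      right
      exact tendsto_norm_atTop_atTop.comp (tendsto_rpow_atTop hτ0)
    · exact (isLittleO_log_rpow_atTop hτ0).const_mul_left _
  have h2 := h1.bound (one_pos)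
  have h3 := tendsto_natCast_atTop_atTop (R := ℝ) |>.eventually h2
  filter_upwards [h3, eventually_ge_atTop 1] with M hM hM1
  have hM0 : (1 : ℝ) ≤ M := by exact_mod_cast hM1
  have h4 : Real.log (R * Vv g M) = Real.log R + (g : ℝ) / 2 * Real.log M := by
    unfold Vv
    rw [Real.log_mul hR.ne' (by positivity), Real.log_rpow (by linarith)]
  rw [h4]
  rw [Real.norm_eq_abs, Real.norm_eq_abs, one_mul, abs_of_nonneg (a := (M : ℝ) ^ τ)
    (by positivity)] at hM
  unfold Uu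
  rw [← hτ]
  refine le_trans ?_ hM
  refine le_trans ?_ (le_abs_self _)
  apply le_of_eq
  ring

lemma pi_small (g : ℕ) (hg : 2 ≤ g) (ε : ℝ) (hε : 0 < ε) (R : ℝ) (hR : 0 < R) :
    ∀ᶠ M : ℕ in atTop, (Nat.primeCounting ⌊R * Vv g M⌋₊ : ℝ) ≤ ε * (R * Vv g M) := by
  have h1 := Chebyshev.eventually_primeCounting_le one_pos
  have h2 : Tendsto (fun M => R * Vv g M) atTop atTop :=
    (Vv_tendsto g hg).const_mul_atTop hR
  have h3 := h2.eventually h1
  have h4 := (Real.tendsto_log_atTop.comp h2).eventually (eventually_ge_atTop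
    ((Real.log 4 + 1) / ε))
  have h5 := h2.eventually (eventually_gt_atTop 0)
  filter_upwards [h3, h4, h5] with M h6 h7 h8
  refine h6.trans ?_
  have h9 : 0 < (Real.log 4 + 1) / ε := by
    have : 0 ≤ Real.log 4 := Real.log_nonneg (by norm_num)
    positivity
  have h10 : 0 < Real.log (R * Vv g M) := lt_of_lt_of_le h9 h7
  rw [div_le_iff₀ h10]
  have h11 : (Real.log 4 + 1) ≤ Real.log (R * Vv g M) * ε := by
    rw [← div_le_iff₀ hε]
    exact h7
  calc (Real.log 4 + 1) * (R * Vv g M) ≤ (Real.log (R * Vv g M) * ε) * (R * Vv g M) := by gcongr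
    _ = _ := by ring

lemma asy (g e D : ℕ) (hg : 2 ≤ g) (he : 1 ≤ e) (η : ℝ) (hη : 0 < η) (hD : 1 ≤ D)
    (hD' : 3360 * (3 ^ g) ^ 2 / η ≤ D) :
    ∃ K₀ : ℕ, 1 ≤ K₀ ∧ ∃ M₀ : ℕ, ∀ M : ℕ, M₀ ≤ M → (md e : ℤ) ∣ (M : ℤ) - 1 →
      ∃ S T : ℕ, Par g e M S T (T / K₀) (Vv g M) ∧
        Uu g M ≤ 8 * md e * K₀ * ((T / K₀ : ℕ) : ℝ) ∧
        Bd g e T (T / K₀) ⌊(3 : ℝ) ^ g * Vv g M⌋₊ D (Vv g M) ≤ η * Vv g M ^ 2 := by
  set ε : ℝ := η / 7 with hε
  have hε0 : 0 < ε := by rw [hε]; positivity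
  have hD0 : (1 : ℝ) ≤ D := by exact_mod_cast hD
  set Q : ℕ := md e with hQ
  have hQ1 : 1 ≤ Q := md_pos e he
  have hQr : (1 : ℝ) ≤ Q := by exact_mod_cast hQ1
  set R : ℝ := 3 ^ g with hR
  have hR9 : (9 : ℝ) ≤ R := by
    rw [hR]
    calc (9 : ℝ) = 3 ^ 2 := by norm_num
      _ ≤ 3 ^ g := by
          apply pow_le_pow_right₀ (by norm_num) hg
  set A : ℝ := 1936 / ε + 309760 * R ^ 3 * Q / ε with hA
  have hA0 : 0 < A := by rw [hA]; positivity
  obtain ⟨K₀, hK⟩ := exists_nat_gt (A + 1)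
  have hK1 : (1 : ℝ) < K₀ := by linarith
  have hK1' : 1 ≤ K₀ := by exact_mod_cast hK1.le
  refine ⟨K₀, hK1', ?_⟩
  have e1 := (Uu_tendsto g hg).eventually (eventually_ge_atTop (8 * Q * K₀ : ℝ))
  have e2 := (Vv_tendsto g hg).eventually (eventually_ge_atTop ((61952 * R ^ 6 * Q / ε) ^ 2))
  have e3 := (Vv_tendsto g hg).eventually (eventually_gt_atTop (Q : ℝ))
  have e4 := log_small g hg (1920 * Q ^ 2 * R ^ 2 / ε) R (by linarith)
  have e5 := pi_small g hg (ε / (320 * Q * R ^ 2)) (by positivity) R (by linarith)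
  obtain ⟨M₀, hM₀⟩ := eventually_atTop.mp (e1.and (e2.and (e3.and (e4.and e5))))
  refine ⟨M₀ + 1, ?_⟩
  intro M hM hMQ
  obtain ⟨f1, f2, f3, f4, f5⟩ := hM₀ M (by omega)
  have hM1 : 1 ≤ M := by omega
  have hMr : (1 : ℝ) ≤ M := by exact_mod_cast hM1
  obtain ⟨u1, u2⟩ := Uu_le g M hM1
  set V : ℝ := Vv g M with hV
  set U : ℝ := Uu g M with hU
  have hV1 : 1 ≤ V := by linarith
  have hK4 : 4 * (Q : ℝ) ≤ U := by
    have h1 : 4 * (Q : ℝ) ≤ 8 * Q * K₀ := by nlinarith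
    linarith
  obtain ⟨n, T, c1, c2, c3, c4, c5⟩ := choice Q M U hQ1 hK4 u1
  have hTr : (1 : ℝ) ≤ T := by exact_mod_cast c3
  have hTK : 2 * (K₀ : ℝ) ≤ T := by
    have h1 : 8 * (Q : ℝ) * K₀ ≤ 4 * Q * T := f1.trans c5
    have h2 : (4 * (Q : ℝ)) * (2 * K₀) ≤ (4 * Q) * T := by linarith
    exact le_of_mul_le_mul_left h2 (by positivity)
  have hTK' : 2 * K₀ ≤ T := by exact_mod_cast hTK
  set L : ℕ := T / K₀ with hL
  have hL2 : 2 ≤ L := by
    rw [hL, Nat.le_div_iff_mul_le (by omega)]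
    linarith
  have hLT : L ≤ T := Nat.div_le_self _ _
  have hLTr : (L : ℝ) ≤ T := by exact_mod_cast hLT
  have hLr : (2 : ℝ) ≤ L := by exact_mod_cast hL2
  have hLK : (L : ℝ) * K₀ ≤ T := by
    have := Nat.div_mul_le_self T K₀
    rw [← hL] at this
    exact_mod_cast this
  have hLK2 : (T : ℝ) ≤ 2 * K₀ * L := by
    have h1 := Nat.lt_div_mul_add (a := T) (b := K₀) (by omega)
    rw [← hL] at h1
    have h2 : (T : ℝ) < L * K₀ + K₀ := by exact_mod_cast h1
    nlinarith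
  refine ⟨2 ^ n, T, ⟨hg, he, hMQ, c1, c2, ?_, c3, hL2, hV1, Vv_sq g M, f3⟩, ?_, ?_⟩
  · intro p hp hpS
    have h1 : p ∣ 2 := hp.dvd_of_dvd_pow hpS
    exact h1.trans ⟨2 * e, by ring⟩
  · calc U ≤ 4 * Q * T := c5
      _ ≤ 4 * Q * (2 * K₀ * L) := by gcongr
      _ = _ := by ring
  have hT3 : (T : ℝ) ^ 3 ≤ V := by
    calc (T : ℝ) ^ 3 ≤ U ^ 3 := by gcongr
      _ ≤ V := u2
  have hsT3 : (T : ℝ) * Real.sqrt T ≤ Real.sqrt V := by
    have h1 : (T : ℝ) * Real.sqrt T = Real.sqrt ((T : ℝ) ^ 3) := by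
      have h2 : (T : ℝ) ^ 3 = (T : ℝ) ^ 2 * T := by ring
      rw [h2, Real.sqrt_mul (by positivity), Real.sqrt_sq (by positivity)]
    rw [h1]
    exact Real.sqrt_le_sqrt hT3
  have hsV : Real.sqrt V * Real.sqrt V = V := Real.mul_self_sqrt (by linarith)
  have hsV0 : 0 < Real.sqrt V := Real.sqrt_pos.mpr (by linarith)
  have hlog := log_sqrt T hTr
  have hlog0 : 0 ≤ Real.log T := Real.log_nonneg hTr
  have hf2 : 61952 * R ^ 6 * Q / ε ≤ Real.sqrt V := Real.le_sqrt_of_sq_le f2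
  set N : ℕ := ⌊R * V⌋₊ with hN
  have hNRV : (N : ℝ) ≤ R * V := Nat.floor_le (by positivity)
  have hN1 : (1 : ℝ) ≤ N := by
    have h1 : 1 ≤ N := by
      rw [hN]
      apply Nat.le_floor
      push_cast
      nlinarith
    exact_mod_cast h1
  have hTN : (T : ℝ) ≤ N := by
    have h1 : T ≤ N := by
      rw [hN]
      apply Nat.le_floor
      have h2 : (T : ℝ) ≤ T ^ 3 := by
        calc (T : ℝ) = T * 1 := by ring
          _ ≤ T * T ^ 2 := by
              have : (1 : ℝ) ≤ T ^ 2 := one_le_pow₀ hTr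
              gcongr
          _ = _ := by ring
      calc (T : ℝ) ≤ V := h2.trans hT3
        _ ≤ R * V := by nlinarith
    exact_mod_cast h1
  have hlogN : Real.log N ≤ Real.log (R * V) := Real.log_le_log (by linarith) hNRV
  have hlogN0 : 0 ≤ Real.log N := Real.log_nonneg hN1
  -- term 1
  have a1 : 1936 * ((L : ℝ) / T) * V ^ 2 ≤ ε * V ^ 2 := by
    gcongr
    rw [mul_div_assoc', div_le_iff₀ (by linarith)]
    have h2 : 1936 / ε ≤ K₀ := by
      have : 0 ≤ 309760 * R ^ 3 * Q / ε := by positivity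
      linarith
    rw [div_le_iff₀ hε0] at h2
    calc 1936 * (L : ℝ) ≤ (K₀ * ε) * L := by gcongr
      _ = ε * (L * K₀) := by ring
      _ ≤ ε * T := by gcongr
  -- term 2
  have a2 : 1936 * ((L : ℝ) / T) * (16 * R ^ 6 * V * Q * T * (1 + Real.log T)) ≤ ε * V ^ 2 := by
    have h1 : 1936 * ((L : ℝ) / T) * (16 * R ^ 6 * V * Q * T * (1 + Real.log T)) =
        30976 * R ^ 6 * Q * V * (L * (1 + Real.log T)) := by
      field_simp
      ring
    rw [h1]
    rw [div_le_iff₀ hε0] at hf2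
    calc 30976 * R ^ 6 * Q * V * (L * (1 + Real.log T)) ≤
        30976 * R ^ 6 * Q * V * (T * (2 * Real.sqrt T)) := by gcongr
      _ = (61952 * R ^ 6 * Q) * V * (T * Real.sqrt T) := by ring
      _ ≤ (Real.sqrt V * ε) * V * Real.sqrt V := by gcongr
      _ = ε * V * (Real.sqrt V * Real.sqrt V) := by ring
      _ = _ := by rw [hsV]; ring
  -- term 3
  have a3 : 1936 * ((L : ℝ) / T) * (160 * R ^ 3 * Q * V * Real.sqrt V * T * Real.sqrt L) ≤
      ε * V ^ 2 := by
    have h1 : 1936 * ((L : ℝ) / T) * (160 * R ^ 3 * Q * V * Real.sqrt V * T * Real.sqrt L) =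
        309760 * R ^ 3 * Q * V * Real.sqrt V * (L * Real.sqrt L) := by
      field_simp
      ring
    rw [h1]
    have h2 : (L : ℝ) * Real.sqrt L * K₀ ≤ Real.sqrt V := by
      calc (L : ℝ) * Real.sqrt L * K₀ = (L * K₀) * Real.sqrt L := by ring
        _ ≤ T * Real.sqrt T := by
            gcongr
        _ ≤ _ := hsT3
    have h3 : 309760 * R ^ 3 * Q / ε ≤ K₀ := by
      have : 0 ≤ 1936 / ε := by positivity
      linarith
    rw [div_le_iff₀ hε0] at h3
    calc 309760 * R ^ 3 * Q * V * Real.sqrt V * (L * Real.sqrt L) ≤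
        (K₀ * ε) * V * Real.sqrt V * (L * Real.sqrt L) := by gcongr
      _ = ε * V * Real.sqrt V * (L * Real.sqrt L * K₀) := by ring
      _ ≤ ε * V * Real.sqrt V * Real.sqrt V := by gcongr
      _ = ε * V * (Real.sqrt V * Real.sqrt V) := by ring
      _ = _ := by rw [hsV]; ring
  -- term 4
  have a4 : 160 * Q * (R * V) / T * (3 * T * N / (Q * D)) ≤ ε * V ^ 2 := by
    have h1 : 160 * Q * (R * V) / T * (3 * T * N / (Q * D)) = 480 * R * V * N / D := by
      field_simp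
      norm_num
    rw [h1, div_le_iff₀ (by linarith)]
    rw [div_le_iff₀ hη] at hD'
    calc 480 * R * V * N ≤ 480 * R * V * (R * V) := by gcongr
      _ = (3360 * R ^ 2) * V ^ 2 / 7 := by ring
      _ ≤ (D * η) * V ^ 2 / 7 := by gcongr
      _ = _ := by rw [hε]; ring
  -- terms 5, 6
  have a5 : 160 * Q * (R * V) / T * ((T + N) * (1 + Real.log N) + N) ≤ ε * V ^ 2 := by
    have h1 : (T + N) * (1 + Real.log N) + N ≤ 3 * N * (1 + Real.log (R * V)) := by
      calc (T + N) * (1 + Real.log N) + N ≤ (N + N) * (1 + Real.log N) + N * (1 + Real.log N) := by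
            have : (N : ℝ) ≤ N * (1 + Real.log N) := by nlinarith
            gcongr
        _ = 3 * N * (1 + Real.log N) := by ring
        _ ≤ _ := by gcongr
    have h2 : 1920 * Q ^ 2 * R ^ 2 * (1 + Real.log (R * V)) ≤ ε * (4 * Q * T) := by
      have h3 : 1920 * Q ^ 2 * R ^ 2 / ε * (1 + Real.log (R * V)) ≤ 4 * Q * T := f4.trans c5
      have h4 : 1920 * Q ^ 2 * R ^ 2 / ε * (1 + Real.log (R * V)) =
        (1920 * Q ^ 2 * R ^ 2 * (1 + Real.log (R * V))) / ε := by ring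
      rw [h4, div_le_iff₀ hε0] at h3
      linarith
    have h3 : 480 * Q * R ^ 2 * (1 + Real.log (R * V)) ≤ ε * T := by
      have h4 : (4 * (Q : ℝ)) * (480 * Q * R ^ 2 * (1 + Real.log (R * V))) ≤
          (4 * Q) * (ε * T) := by linarith
      exact le_of_mul_le_mul_left h4 (by positivity)
    have h5 : 0 ≤ 1 + Real.log (R * V) := by linarith
    calc 160 * Q * (R * V) / T * ((T + N) * (1 + Real.log N) + N) ≤
        160 * Q * (R * V) / T * (3 * N * (1 + Real.log (R * V))) := by gcongr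
      _ ≤ 160 * Q * (R * V) / T * (3 * (R * V) * (1 + Real.log (R * V))) := by gcongr
      _ = (480 * Q * R ^ 2 * (1 + Real.log (R * V))) * V ^ 2 / T := by ring
      _ ≤ (ε * T) * V ^ 2 / T := by gcongr
      _ = _ := by field_simp
  -- term 7
  have a7 : 160 * Q * (R * V) / T * (2 * T * Nat.primeCounting N) ≤ ε * V ^ 2 := by
    have h1 : 160 * Q * (R * V) / T * (2 * T * Nat.primeCounting N) =
        320 * Q * R * V * Nat.primeCounting N := by
      field_simp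
      ring
    rw [h1]
    calc 320 * Q * R * V * (Nat.primeCounting N : ℝ) ≤
        320 * Q * R * V * (ε / (320 * Q * R ^ 2) * (R * V)) := by gcongr
      _ = _ := by
          have hQ0 : (Q : ℝ) ≠ 0 := by linarith
          have hR0 : R ≠ 0 := by linarith
          field_simp
          try ring
  unfold Bd
  rw [← hR, ← hQ]
  have h7 : η * V ^ 2 = ε * V ^ 2 + ε * V ^ 2 + ε * V ^ 2 + (ε * V ^ 2 + ε * V ^ 2 + ε * V ^ 2) +
      ε * V ^ 2 := by
    rw [hε]
    ring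
  have h8 : 0 ≤ ε * V ^ 2 := by positivity
  rw [h7, mul_add, mul_add]
  have h9 : 160 * Q * (R * V) / T * (3 * T * N / (Q * D) + (T + N) * (1 + Real.log N) + N +
        2 * T * Nat.primeCounting N) = 160 * Q * (R * V) / T * (3 * T * N / (Q * D)) +
        160 * Q * (R * V) / T * ((T + N) * (1 + Real.log N) + N) +
        160 * Q * (R * V) / T * (2 * T * Nat.primeCounting N) := by ring
  rw [h9]
  linarith

end Pool.Agent.Q148.CG
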