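import Pool.Agent.Q148.CG.Ar

set_option autoImplicit false

/-! # The number of bad pairs -/

namespace Pool.Agent.Q148.CG

open Finset Pool.Agent.Q148.CN

/-- the relevant primes -/
noncomputable def Pr (e D N : ℕ) : Finset ℕ := (Ioc D N).filter (fun p => p.Prime ∧ ¬ p ∣ 4 * e)

lemma Pr_card (e D N : ℕ) : (Pr e D N).card ≤ Nat.primeCounting N := by
  unfold Nat.primeCounting Nat.primeCounting'
  rw [Nat.count_eq_card_filter_range]
  apply Finset.card_le_card
  intro p hp
  unfold Pr at hp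
  rw [Finset.mem_filter, Finset.mem_Ioc] at hp
  rw [Finset.mem_filter, Finset.mem_range]
  exact ⟨by omega, hp.2.1⟩

lemma Pr_card' (e D N : ℕ) : ((Pr e D N).card : ℝ) ≤ N := by
  have h1 : (Pr e D N).card ≤ (Ioc D N).card := Finset.card_filter_le _ _
  rw [Nat.card_Ioc] at h1
  have : (Pr e D N).card ≤ N := by omega
  exact_mod_cast this

lemma sum_sq_inv (e D N : ℕ) (hD : 1 ≤ D) : ∑ p ∈ Pr e D N, 1 / (p : ℝ) ^ 2 ≤ 1 / (D : ℝ) := by
  refine le_trans ?_ (sum_inv_sq D N hD)
  apply Finset.sum_le_sum_of_subset_of_nonneg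
  · exact Finset.filter_subset _ _
  · intro p _ _
    positivity

lemma sum_inv (e D N : ℕ) : ∑ p ∈ Pr e D N, 1 / (p : ℝ) ≤ 1 + Real.log N := by
  have h1 := harmonic_le_one_add_log N
  have h2 : ((harmonic N : ℚ) : ℝ) = ∑ d ∈ Icc 1 N, 1 / (d : ℝ) := by
    rw [harmonic_eq_sum_Icc]
    push_cast
    apply Finset.sum_congr rfl
    intro d _
    rw [one_div]
  rw [h2] at h1
  refine le_trans ?_ h1
  apply Finset.sum_le_sum_of_subset_of_nonneg
  · intro p hp
    unfold Pr at hp
    rw [Finset.mem_filter, Finset.mem_Ioc] at hp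
    rw [Finset.mem_Icc]
    exact ⟨by omega, hp.1.2⟩
  · intro p _ _
    positivity

/-- pairs with a common divisor -/
noncomputable def U1 (e k M S N T D : ℕ) : Finset (ℕ × ℕ) :=
  (Pr e D N).biUnion (fun p => ((Rs e k N).filter (fun a => p ∣ a)) ×ˢ
    ((Ioc T (2 * T)).filter (fun j => p ∣ mj e M S j)))

/-- pairs with a square divisor -/
noncomputable def U2 (g e k M S N T D : ℕ) : Finset (ℕ × ℕ) :=
  (Ioc T (2 * T)).biUnion (fun j => ((Pr e D N).filter (fun p => ¬ p ∣ mj e M S j)).biUnion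
    (fun p => ((Rs e k N).filter
      (fun a : ℕ => ((p ^ 2 : ℕ) : ℤ) ∣ (mj e M S j : ℤ) ^ g - a ^ 2)) ×ˢ {j}))

lemma U1_card (e k M S N T D : ℕ) (he : 1 ≤ e) (hD : 1 ≤ D)
    (hS : ∀ p : ℕ, p.Prime → p ∣ S → p ∣ 4 * e) :
    ((U1 e k M S N T D).card : ℝ) ≤ T * N / (md e * D) + (T + N) * (1 + Real.log N) + N := by
  have hmd : (1 : ℝ) ≤ md e := by
    have : 1 ≤ md e := by
      unfold md
      exact Nat.one_le_pow _ _ (by omega)
    exact_mod_cast this
  have hD0 : (0 : ℝ) < D := by exact_mod_cast hD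
  unfold U1
  calc (((Pr e D N).biUnion (fun p => ((Rs e k N).filter (fun a => p ∣ a)) ×ˢ
        ((Ioc T (2 * T)).filter (fun j => p ∣ mj e M S j)))).card : ℝ) ≤
      ((∑ p ∈ Pr e D N, (((Rs e k N).filter (fun a => p ∣ a)) ×ˢ
        ((Ioc T (2 * T)).filter (fun j => p ∣ mj e M S j))).card : ℕ) : ℝ) := by
        exact_mod_cast Finset.card_biUnion_le
    _ ≤ ∑ p ∈ Pr e D N, ((T : ℝ) * N / md e * (1 / (p : ℝ) ^ 2) + (T + N) * (1 / (p : ℝ)) + 1) := by
        push_cast
        apply Finset.sum_le_sum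
        intro p hp
        unfold Pr at hp
        rw [Finset.mem_filter, Finset.mem_Ioc] at hp
        obtain ⟨hp1, hp2, hp3⟩ := hp
        have hp0 : (1 : ℝ) ≤ p := by exact_mod_cast hp2.one_le
        rw [Finset.card_product]
        push_cast
        have h1 := card_div e k N p hp2 hp3 he
        have h2 := card_m e M S T p hp2 hp3 (fun h => hp3 (hS p hp2 h))
        calc ((((Rs e k N).filter (fun a => p ∣ a)).card : ℕ) : ℝ) *
              ((((Ioc T (2 * T)).filter (fun j => p ∣ mj e M S j)).card : ℕ) : ℝ) ≤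
            ((N : ℝ) / (md e * p) + 1) * (T / p + 1) := by gcongr
          _ = (T : ℝ) * N / md e * (1 / (p : ℝ) ^ 2) + (T * (1 / (p : ℝ)) +
              N * ((1 / md e) * (1 / (p : ℝ)))) + 1 := by
              field_simp
              ring
          _ ≤ (T : ℝ) * N / md e * (1 / (p : ℝ) ^ 2) + (T * (1 / (p : ℝ)) +
              N * (1 * (1 / (p : ℝ)))) + 1 := by
              have : 1 / (md e : ℝ) ≤ 1 := by
                rw [div_le_one (by linarith)]
                exact hmd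
              gcongr
          _ = _ := by ring
    _ = (T : ℝ) * N / md e * ∑ p ∈ Pr e D N, 1 / (p : ℝ) ^ 2 +
          (T + N) * ∑ p ∈ Pr e D N, 1 / (p : ℝ) + (Pr e D N).card := by
        rw [Finset.sum_add_distrib, Finset.sum_add_distrib, Finset.mul_sum, Finset.mul_sum]
        simp
    _ ≤ (T : ℝ) * N / md e * (1 / D) + (T + N) * (1 + Real.log N) + N := by
        have h1 := sum_sq_inv e D N hD
        have h2 := sum_inv e D N
        have h3 := Pr_card' e D N
        gcongr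
    _ = _ := by
        field_simp

lemma U2_card (g e k M S N T D : ℕ) (he : 1 ≤ e) (hD : 1 ≤ D) :
    ((U2 g e k M S N T D).card : ℝ) ≤
      2 * T * N / (md e * D) + 2 * T * Nat.primeCounting N := by
  have hmd : (1 : ℝ) ≤ md e := by
    have : 1 ≤ md e := by
      unfold md
      exact Nat.one_le_pow _ _ (by omega)
    exact_mod_cast this
  have hD0 : (0 : ℝ) < D := by exact_mod_cast hD
  have h1 : ∀ j, ((((Pr e D N).filter (fun p => ¬ p ∣ mj e M S j)).biUnion
    (fun p => ((Rs e k N).filter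
      (fun a : ℕ => ((p ^ 2 : ℕ) : ℤ) ∣ (mj e M S j : ℤ) ^ g - a ^ 2)) ×ˢ {j})).card : ℝ) ≤
      2 * N / (md e * D) + 2 * Nat.primeCounting N := by
    intro j
    calc ((((Pr e D N).filter (fun p => ¬ p ∣ mj e M S j)).biUnion
          (fun p => ((Rs e k N).filter
          (fun a : ℕ => ((p ^ 2 : ℕ) : ℤ) ∣ (mj e M S j : ℤ) ^ g - a ^ 2)) ×ˢ {j})).card : ℝ) ≤
        ((∑ p ∈ (Pr e D N).filter (fun p => ¬ p ∣ mj e M S j), (((Rs e k N).filter
          (fun a : ℕ => ((p ^ 2 : ℕ) : ℤ) ∣ (mj e M S j : ℤ) ^ g - a ^ 2)) ×ˢ {j}).card : ℕ) : ℝ) := by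
          exact_mod_cast Finset.card_biUnion_le
      _ = ∑ p ∈ (Pr e D N).filter (fun p => ¬ p ∣ mj e M S j), ((((Rs e k N).filter
          (fun a : ℕ => ((p ^ 2 : ℕ) : ℤ) ∣ (mj e M S j : ℤ) ^ g - a ^ 2)).card : ℕ) : ℝ) := by
          push_cast
          apply Finset.sum_congr rfl
          intro p _
          rw [Finset.card_product, Finset.card_singleton, mul_one]
      _ ≤ ∑ p ∈ (Pr e D N).filter (fun p => ¬ p ∣ mj e M S j),
          (2 * (N : ℝ) / md e * (1 / (p : ℝ) ^ 2) + 2) := by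
          apply Finset.sum_le_sum
          intro p hp
          rw [Finset.mem_filter] at hp
          have hp' := hp.1
          unfold Pr at hp'
          rw [Finset.mem_filter, Finset.mem_Ioc] at hp'
          obtain ⟨hp1, hp2, hp3⟩ := hp'
          have hp0 : (1 : ℝ) ≤ p := by exact_mod_cast hp2.one_le
          have h2 := card_sq g e k N (mj e M S j) p hp2 hp3 he hp.2
          calc _ ≤ _ := h2
            _ = _ := by
                field_simp
      _ ≤ ∑ p ∈ Pr e D N, (2 * (N : ℝ) / md e * (1 / (p : ℝ) ^ 2) + 2) := by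
          apply Finset.sum_le_sum_of_subset_of_nonneg (Finset.filter_subset _ _)
          intro p _ _
          positivity
      _ = 2 * (N : ℝ) / md e * ∑ p ∈ Pr e D N, 1 / (p : ℝ) ^ 2 + (Pr e D N).card * 2 := by
          rw [Finset.sum_add_distrib, Finset.mul_sum]
          simp
      _ ≤ 2 * (N : ℝ) / md e * (1 / D) + Nat.primeCounting N * 2 := by
          have h2 := sum_sq_inv e D N hD
          have h3 : ((Pr e D N).card : ℝ) ≤ Nat.primeCounting N := by exact_mod_cast Pr_card e D N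
          gcongr
      _ = _ := by
          field_simp
  unfold U2
  calc (((Ioc T (2 * T)).biUnion (fun j => ((Pr e D N).filter (fun p => ¬ p ∣ mj e M S j)).biUnion
        (fun p => ((Rs e k N).filter
        (fun a : ℕ => ((p ^ 2 : ℕ) : ℤ) ∣ (mj e M S j : ℤ) ^ g - a ^ 2)) ×ˢ {j}))).card : ℝ) ≤
      ((∑ j ∈ Ioc T (2 * T), (((Pr e D N).filter (fun p => ¬ p ∣ mj e M S j)).biUnion
        (fun p => ((Rs e k N).filter
        (fun a : ℕ => ((p ^ 2 : ℕ) : ℤ) ∣ (mj e M S j : ℤ) ^ g - a ^ 2)) ×ˢ {j})).card : ℕ) : ℝ) := by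
        exact_mod_cast Finset.card_biUnion_le
    _ ≤ ∑ j ∈ Ioc T (2 * T), (2 * (N : ℝ) / (md e * D) + 2 * Nat.primeCounting N) := by
        push_cast
        apply Finset.sum_le_sum
        intro j _
        exact h1 j
    _ = _ := by
        rw [Finset.sum_const, nsmul_eq_mul, Nat.card_Ioc]
        have : 2 * T - T = T := by omega
        rw [this]
        ring

lemma bad_card (g e k M S N T D : ℕ) (hg : 2 ≤ g) (he : 1 ≤ e) (hD : 1 ≤ D)
    (hW : ∀ p : ℕ, p.Prime → p ≤ D → p ∣ 4 * e)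
    (hS : ∀ p : ℕ, p.Prime → p ∣ S → p ∣ 4 * e)
    (hN : ∀ j ∈ Ioc T (2 * T), mj e M S j ^ g ≤ N ^ 2) :
    ((BadT g e k M S N T).card : ℝ) ≤
      3 * T * N / (md e * D) + (T + N) * (1 + Real.log N) + N + 2 * T * Nat.primeCounting N := by
  classical
  have hsub : BadT g e k M S N T ⊆ U1 e k M S N T D ∪ U2 g e k M S N T D := by
    rintro ⟨a, j⟩ hx
    unfold BadT at hx
    rw [Finset.mem_filter, Finset.mem_product] at hx
    obtain ⟨⟨ha, hj⟩, hlt, p, hp, hpe, hdvd⟩ := hx
    simp only at ha hj hlt hdvd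
    have hpD : D < p := by
      by_contra h
      exact hpe (hW p hp (by omega))
    have hlt' : (0 : ℤ) < (mj e M S j : ℤ) ^ g - a ^ 2 := by
      have : ((a ^ 2 : ℕ) : ℤ) < ((mj e M S j ^ g : ℕ) : ℤ) := by exact_mod_cast hlt
      push_cast at this
      linarith
    have hpN : p ≤ N := by
      have h1 := Int.le_of_dvd hlt' hdvd
      have h2 : ((p ^ 2 : ℕ) : ℤ) ≤ ((N ^ 2 : ℕ) : ℤ) := by
        have h3 : ((mj e M S j ^ g : ℕ) : ℤ) ≤ ((N ^ 2 : ℕ) : ℤ) := by exact_mod_cast hN j hj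
        push_cast at h3 h1 ⊢
        have h4 : (0 : ℤ) ≤ (a : ℤ) ^ 2 := by positivity
        linarith
      have h3 : p ^ 2 ≤ N ^ 2 := by exact_mod_cast h2
      exact (Nat.pow_le_pow_iff_left (by norm_num)).mp h3
    have hpP : p ∈ Pr e D N := by
      unfold Pr
      rw [Finset.mem_filter, Finset.mem_Ioc]
      exact ⟨⟨hpD, hpN⟩, hp, hpe⟩
    rw [Finset.mem_union]
    by_cases hpm : p ∣ mj e M S j
    · left
      unfold U1
      rw [Finset.mem_biUnion]
      refine ⟨p, hpP, ?_⟩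
      rw [Finset.mem_product, Finset.mem_filter, Finset.mem_filter]
      refine ⟨⟨ha, ?_⟩, hj, hpm⟩
      have h1 : ((p ^ 2 : ℕ) : ℤ) ∣ (mj e M S j : ℤ) ^ g := by
        have : p ^ 2 ∣ mj e M S j ^ g := (pow_dvd_pow_of_dvd hpm 2).trans (pow_dvd_pow _ hg)
        exact_mod_cast this
      have h2 : ((p ^ 2 : ℕ) : ℤ) ∣ (a : ℤ) ^ 2 := by
        have := dvd_sub h1 hdvd
        simpa using this
      have h3 : p ^ 2 ∣ a ^ 2 := by exact_mod_cast h2
      exact (Nat.pow_dvd_pow_iff (by norm_num)).mp h3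
    · right
      unfold U2
      rw [Finset.mem_biUnion]
      refine ⟨j, hj, ?_⟩
      rw [Finset.mem_biUnion]
      refine ⟨p, Finset.mem_filter.mpr ⟨hpP, hpm⟩, ?_⟩
      rw [Finset.mem_product]
      exact ⟨Finset.mem_filter.mpr ⟨ha, hdvd⟩, Finset.mem_singleton_self _⟩
  have h1 := (Finset.card_le_card hsub).trans (Finset.card_union_le _ _)
  have h2 : ((BadT g e k M S N T).card : ℝ) ≤
      ((U1 e k M S N T D).card : ℝ) + ((U2 g e k M S N T D).card : ℝ) := by exact_mod_cast h1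
  have h3 := U1_card e k M S N T D he hD hS
  have h4 := U2_card g e k M S N T D he hD
  calc ((BadT g e k M S N T).card : ℝ) ≤ (T * N / (md e * D) + (T + N) * (1 + Real.log N) + N) +
        (2 * T * N / (md e * D) + 2 * T * Nat.primeCounting N) := by linarith
    _ = _ := by ring

end Pool.Agent.Q148.CG
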