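import Pool.Agent.Q148.CG.Vr
import Pool.Agent.Q148.CG.BadC

set_option autoImplicit false

/-! # The exceptional set has small measure -/

namespace Pool.Agent.Q148.CG

open Finset MeasureTheory Pool.Agent.Q148.CN

/-- the shifts -/
noncomputable def muj (g e M S j : ℕ) : ℝ := (mj e M S j : ℝ) ^ g - (M : ℝ) ^ g

/-- the parameters -/
structure Par (g e M S T L : ℕ) (V : ℝ) : Prop where
  hg : 2 ≤ g
  he : 1 ≤ e
  hM : (md e : ℤ) ∣ (M : ℤ) - 1
  hS1 : md e * S * T ≤ M
  hS2 : M ≤ 2 * (md e * S * T)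
  hSp : ∀ p : ℕ, p.Prime → p ∣ S → p ∣ 4 * e
  hT : 1 ≤ T
  hL : 2 ≤ L
  hV0 : 1 ≤ V
  hV : V ^ 2 = (M : ℝ) ^ g
  hVQ : (md e : ℝ) < V

lemma md_pos (e : ℕ) (he : 1 ≤ e) : 1 ≤ md e := by
  unfold md
  exact Nat.one_le_pow _ _ (by omega)

lemma Par.hM1 {g e M S T L : ℕ} {V : ℝ} (h : Par g e M S T L V) : 1 ≤ M := by
  by_contra hc
  have h0 : M = 0 := by omega
  have h1 := h.hV
  have h2 := h.hV0
  have h3 : (1 : ℝ) ≤ V ^ 2 := one_le_pow₀ h2
  rw [h1, h0] at h3
  have h4 : ((0 : ℕ) : ℝ) ^ g = 0 := by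
    have := h.hg
    rw [Nat.cast_zero]
    exact zero_pow (by omega)
  rw [h4] at h3
  linarith

lemma Par.mj_lo {g e M S T L : ℕ} {V : ℝ} (h : Par g e M S T L V) (j : ℕ)
    (hj : j ∈ Ioc T (2 * T)) : 3 * M ≤ 2 * mj e M S j := by
  rw [Finset.mem_Ioc] at hj
  have h1 := h.hS2
  have h2 : md e * S * T ≤ md e * S * j := Nat.mul_le_mul_left _ hj.1.le
  unfold mj
  omega

lemma Par.mj_hi {g e M S T L : ℕ} {V : ℝ} (h : Par g e M S T L V) (j : ℕ)
    (hj : j ∈ Ioc T (2 * T)) : mj e M S j ≤ 3 * M := by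
  rw [Finset.mem_Ioc] at hj
  have h1 := h.hS1
  have h2 : md e * S * j ≤ md e * S * (2 * T) := Nat.mul_le_mul_left _ hj.2
  have h3 : md e * S * (2 * T) = 2 * (md e * S * T) := by ring
  unfold mj
  omega

lemma pow_gap (n : ℕ) (x y : ℝ) (hy : 0 ≤ y) (hxy : y ≤ x) :
    2 * (x - y) * y ^ (n + 1) ≤ x ^ (n + 2) - y ^ (n + 2) := by
  have h1 : ∀ m : ℕ, (x - y) * y ^ m ≤ x ^ (m + 1) - y ^ (m + 1) := by
    intro m
    have h2 : y ^ m ≤ x ^ m := by gcongr
    have h3 : x ^ (m + 1) - y ^ (m + 1) = (x - y) * x ^ m + y * (x ^ m - y ^ m) := by ring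
    rw [h3]
    have h4 : 0 ≤ y * (x ^ m - y ^ m) := mul_nonneg hy (by linarith)
    have h5 : (x - y) * y ^ m ≤ (x - y) * x ^ m := by
      have : 0 ≤ x - y := by linarith
      gcongr
    linarith
  have h2 := h1 n
  have h3 : x ^ (n + 2) - y ^ (n + 2) = (x - y) * x ^ (n + 1) + y * (x ^ (n + 1) - y ^ (n + 1)) := by
    ring
  rw [h3]
  have h4 : y * ((x - y) * y ^ n) ≤ y * (x ^ (n + 1) - y ^ (n + 1)) := by gcongr
  have h5 : (x - y) * y ^ (n + 1) ≤ (x - y) * x ^ (n + 1) := by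
    have h6 : 0 ≤ x - y := by linarith
    have h7 : y ^ (n + 1) ≤ x ^ (n + 1) := by gcongr
    gcongr
  have h6 : y * ((x - y) * y ^ n) = (x - y) * y ^ (n + 1) := by ring
  linarith

lemma Par.fam {g e M S T L : ℕ} {V : ℝ} (h : Par g e M S T L V) :
    Fam T V ((3 : ℝ) ^ g) (muj g e M S) := by
  have hg := h.hg
  have hT0 : (1 : ℝ) ≤ T := by exact_mod_cast h.hT
  have hM0 : (1 : ℝ) ≤ M := by exact_mod_cast h.hM1
  have h3g : (9 : ℝ) ≤ 3 ^ g := by
    calc (9 : ℝ) = 3 ^ 2 := by norm_num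
      _ ≤ 3 ^ g := by
          apply pow_le_pow_right₀ (by norm_num) hg
  refine ⟨h.hT, h.hV0, by linarith, ?_, ?_, ?_⟩
  · intro j hj
    have h1 : (3 : ℝ) * M ≤ 2 * mj e M S j := by exact_mod_cast h.mj_lo j hj
    have h2 : 2 * (M : ℝ) ^ g ≤ (mj e M S j : ℝ) ^ g := by
      calc 2 * (M : ℝ) ^ g ≤ (3 / 2 : ℝ) ^ g * (M : ℝ) ^ g := by
            gcongr
            calc (2 : ℝ) ≤ (3 / 2) ^ 2 := by norm_num
              _ ≤ (3 / 2) ^ g := pow_le_pow_right₀ (by norm_num) hg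
        _ = (3 / 2 * (M : ℝ)) ^ g := by rw [mul_pow]
        _ ≤ _ := by
            gcongr
            linarith
    unfold muj
    rw [h.hV]
    linarith
  · intro j hj
    have h1 : (mj e M S j : ℝ) ≤ 3 * M := by exact_mod_cast h.mj_hi j hj
    unfold muj
    rw [mul_pow, h.hV]
    calc (M : ℝ) ^ g + ((mj e M S j : ℝ) ^ g - (M : ℝ) ^ g) = (mj e M S j : ℝ) ^ g := by ring
      _ ≤ (3 * (M : ℝ)) ^ g := by gcongr
      _ = 3 ^ g * (M : ℝ) ^ g := by rw [mul_pow]
      _ ≤ (3 ^ g) ^ 2 * (M : ℝ) ^ g := by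
          gcongr
          nlinarith
  · have key : ∀ j ∈ Ioc T (2 * T), ∀ j' ∈ Ioc T (2 * T), j' ≤ j →
        V ^ 2 / T * |(j : ℝ) - j'| ≤ |muj g e M S j - muj g e M S j'| := by
      intro j hj j' hj' hjj
      have h1 : (j' : ℝ) ≤ j := by exact_mod_cast hjj
      have hm : (mj e M S j : ℝ) - mj e M S j' = md e * S * (j - j') := by
        unfold mj
        push_cast
        ring
      have hmM : (M : ℝ) ≤ mj e M S j' := by
        have : M ≤ mj e M S j' := by
          unfold mj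
          omega
        exact_mod_cast this
      have hle : (mj e M S j' : ℝ) ≤ mj e M S j := by
        have : 0 ≤ (md e : ℝ) * S * (j - j') := by
          have : 0 ≤ (j : ℝ) - j' := by linarith
          positivity
        linarith
      obtain ⟨n, hn⟩ : ∃ n, g = n + 2 := ⟨g - 2, by omega⟩
      have h2 := pow_gap n (mj e M S j : ℝ) (mj e M S j' : ℝ) (by positivity) hle
      have h3 : 2 * (md e * S * ((j : ℝ) - j')) * (M : ℝ) ^ (n + 1) ≤
          muj g e M S j - muj g e M S j' := by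
        unfold muj
        rw [hn]
        calc 2 * (md e * S * ((j : ℝ) - j')) * (M : ℝ) ^ (n + 1) =
            2 * ((mj e M S j : ℝ) - mj e M S j') * (M : ℝ) ^ (n + 1) := by rw [hm]
          _ ≤ 2 * ((mj e M S j : ℝ) - mj e M S j') * (mj e M S j' : ℝ) ^ (n + 1) := by
              have : 0 ≤ (mj e M S j : ℝ) - mj e M S j' := by linarith
              gcongr
          _ ≤ (mj e M S j : ℝ) ^ (n + 2) - (mj e M S j' : ℝ) ^ (n + 2) := h2
          _ = _ := by ring
      have h4 : V ^ 2 / T * |(j : ℝ) - j'| ≤ 2 * (md e * S * ((j : ℝ) - j')) * (M : ℝ) ^ (n + 1) := by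
        rw [abs_of_nonneg (by linarith), h.hV, hn]
        have h5 : (M : ℝ) ≤ 2 * (md e * S * T) := by exact_mod_cast h.hS2
        have h6 : (M : ℝ) / T ≤ 2 * (md e * S) := by
          rw [div_le_iff₀ (by linarith)]
          linarith
        have h7 : 0 ≤ (j : ℝ) - j' := by linarith
        calc (M : ℝ) ^ (n + 2) / T * ((j : ℝ) - j') = (M : ℝ) / T * (((j : ℝ) - j') * M ^ (n + 1)) := by
              ring
          _ ≤ 2 * (md e * S) * (((j : ℝ) - j') * M ^ (n + 1)) := by gcongr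
          _ = _ := by ring
      exact h4.trans (h3.trans (le_abs_self _))
    intro j hj j' hj'
    rcases le_total j' j with h1 | h1
    · exact key j hj j' hj' h1
    · have h2 := key j' hj' j hj h1
      rw [abs_sub_comm (j : ℝ) j', abs_sub_comm (muj g e M S j)]
      exact h2

/-- there is a good number in `[x, x + B]` -/
def Good (g e k : ℕ) (C B x : ℝ) : Prop :=
  ∃ d m a : ℕ, x ≤ d ∧ (d : ℝ) ≤ x + B ∧ Squarefree d ∧ d ≡ k [MOD 4 * e] ∧
    a ^ 2 + d * (4 * e) ^ 2 = m ^ g ∧ Odd m ∧ 1 < m ∧ Nat.Coprime a m ∧ (m : ℝ) ^ g ≤ C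

/-- the deviation from the mean -/
noncomputable def Sf (g e k M S T L : ℕ) (w : ℝ) : ℝ :=
  ∑ j ∈ Ioc T (2 * T), mk L (zt (md e) L (r0 e k) (muj g e M S) j w) -
    T * ∫ y in (0 : ℝ)..1, mk L y

/-- the points near which the pair `q` counts -/
def Iset (g e k M S L : ℕ) (q : ℕ × ℕ) : Set ℝ :=
  {w | |zt (md e) L (r0 e k) (muj g e M S) q.2 w - ((q.1 : ℝ) - r0 e k) / md e| < 1 / L}

/-- the number of bad pairs near `w` -/
noncomputable def Ef (g e k M S N T L : ℕ) (w : ℝ) : ℝ :=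
  ∑ q ∈ BadT g e k M S N T, (Iset g e k M S L q).indicator (fun _ => (1 : ℝ)) w

/-- the function to which Markov's inequality is applied -/
noncomputable def Phi (g e k M S N T L : ℕ) (c w : ℝ) : ℝ :=
  4 / c ^ 2 * Sf g e k M S T L w ^ 2 + 40 * L ^ 2 / c * Ef g e k M S N T L w

lemma near {g e k M S T L N : ℕ} {V : ℝ} (h : Par g e M S T L V)
    (hN : N = ⌊(3 : ℝ) ^ g * V⌋₊) (j : ℕ) (hj : j ∈ Ioc T (2 * T)) (w : ℝ) (hw0 : 0 ≤ w)
    (hw1 : w ≤ V ^ 2) (s : ℤ)
    (hs : |zt (md e) L (r0 e k) (muj g e M S) j w - s| < 1 / L) :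
    ∃ a : ℕ, (a : ℤ) = r0 e k + md e * s ∧ a ≤ N ∧ a ^ 2 < mj e M S j ^ g ∧
      ∀ d : ℕ, a ^ 2 + d * (4 * e) ^ 2 = mj e M S j ^ g →
        ((M : ℝ) ^ g - w) / (4 * e) ^ 2 ≤ d ∧
        (d : ℝ) ≤ ((M : ℝ) ^ g - w) / (4 * e) ^ 2 + 4 * md e * 3 ^ g * V / L := by
  have F := h.fam
  have hlo := F.lo j hj
  have hhi := F.hi j hj
  have hV0 := h.hV0
  have hQ : (1 : ℝ) ≤ md e := by exact_mod_cast md_pos e h.he
  have hL : (2 : ℝ) ≤ L := by exact_mod_cast h.hL
  have hR : (2 : ℝ) ≤ 3 ^ g := F.hR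
  set μ : ℝ := muj g e M S j with hμ
  set ρ : ℝ := Real.sqrt (w + μ) with hρ
  have hρ2 : ρ ^ 2 = w + μ := Real.sq_sqrt (by nlinarith [sq_nonneg V])
  have hρV : V ≤ ρ := by
    apply Real.le_sqrt_of_sq_le
    linarith
  have hρR : ρ ≤ 3 ^ g * V := by
    rw [hρ, Real.sqrt_le_left (by positivity)]
    linarith
  unfold zt at hs
  rw [← hμ, ← hρ] at hs
  obtain ⟨hs1, hs2⟩ := abs_lt.mp hs
  have hA : (((r0 e k + md e * s : ℤ)) : ℝ) = (r0 e k : ℝ) + md e * s := by push_cast; ring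
  have hQ0 : (0 : ℝ) < md e := by linarith
  have h1 : (((r0 e k + md e * s : ℤ)) : ℝ) < ρ := by
    rw [hA]
    have h2 : (s : ℝ) < (ρ - r0 e k) / md e := by linarith
    rw [lt_div_iff₀ hQ0] at h2
    linarith
  have h2 : ρ - 2 * md e / L < (((r0 e k + md e * s : ℤ)) : ℝ) := by
    rw [hA]
    have h3 : (ρ - r0 e k) / md e < s + 2 / L := by
      have : (2 : ℝ) / L = 1 / L + 1 / L := by ring
      linarith
    rw [div_lt_iff₀ hQ0] at h3
    have h4 : (s + 2 / L) * (md e : ℝ) = md e * s + 2 * md e / L := by ring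
    linarith
  have h3 : 2 * (md e : ℝ) / L ≤ md e := by
    rw [div_le_iff₀ (by linarith)]
    nlinarith
  have h4 : (0 : ℝ) < (((r0 e k + md e * s : ℤ)) : ℝ) := by
    have := h.hVQ
    linarith
  have h5 : (0 : ℤ) ≤ r0 e k + md e * s := by
    have : (0 : ℤ) < r0 e k + md e * s := by exact_mod_cast h4
    exact this.le
  obtain ⟨a, ha⟩ := Int.eq_ofNat_of_zero_le h5
  have har : (((r0 e k + md e * s : ℤ)) : ℝ) = a := by
    rw [ha]
    simp
  rw [har] at h1 h2 h4
  have ha2 : (a : ℝ) ^ 2 < ρ ^ 2 := by gcongr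
  have hmu : w + μ ≤ (mj e M S j : ℝ) ^ g := by
    rw [hμ]
    unfold muj
    rw [h.hV] at hw1
    linarith
  refine ⟨a, ha.symm, ?_, ?_, ?_⟩
  · rw [hN]
    apply Nat.le_floor
    linarith
  · have : (a : ℝ) ^ 2 < (mj e M S j : ℝ) ^ g := by linarith
    exact_mod_cast this
  · intro d hd
    have hdr : (a : ℝ) ^ 2 + d * (4 * e) ^ 2 = (mj e M S j : ℝ) ^ g := by exact_mod_cast hd
    have he0 : (1 : ℝ) ≤ e := by exact_mod_cast h.he
    have he2 : (1 : ℝ) ≤ (4 * e) ^ 2 := by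
      have : (1 : ℝ) ≤ 4 * e := by linarith
      exact one_le_pow₀ this
    have he2' : (0 : ℝ) < (4 * e) ^ 2 := by linarith
    have hMw : (M : ℝ) ^ g - w = (mj e M S j : ℝ) ^ g - ρ ^ 2 := by
      rw [hρ2, hμ]
      unfold muj
      ring
    constructor
    · rw [div_le_iff₀ he2', hMw]
      linarith
    · have h6 : (d : ℝ) = ((mj e M S j : ℝ) ^ g - a ^ 2) / (4 * e) ^ 2 := by
        rw [eq_div_iff he2'.ne']
        linarith
      rw [h6, hMw]
      have h7 : ((mj e M S j : ℝ) ^ g - a ^ 2) / (4 * e) ^ 2 =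
          ((mj e M S j : ℝ) ^ g - ρ ^ 2) / (4 * e) ^ 2 + (ρ ^ 2 - a ^ 2) / (4 * e) ^ 2 := by
        rw [← add_div]
        ring
      rw [h7]
      have h8 : (ρ ^ 2 - (a : ℝ) ^ 2) / (4 * e) ^ 2 ≤ ρ ^ 2 - a ^ 2 := by
        apply div_le_self (by linarith) he2
      have h9 : ρ ^ 2 - (a : ℝ) ^ 2 ≤ 4 * md e * 3 ^ g * V / L := by
        have h10 : ρ ^ 2 - (a : ℝ) ^ 2 = (ρ - a) * (ρ + a) := by ring
        rw [h10]
        calc (ρ - a) * (ρ + a) ≤ (2 * md e / L) * (3 ^ g * V + 3 ^ g * V) := by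
              have h11 : ρ - a ≤ 2 * md e / L := by linarith
              have h12 : 0 ≤ ρ - a := by linarith
              have h13 : (a : ℝ) ≤ 3 ^ g * V := by linarith
              gcongr
          _ = _ := by ring
      linarith

lemma key {g e k M S T L N : ℕ} {V : ℝ} (h : Par g e M S T L V)
    (hN : N = ⌊(3 : ℝ) ^ g * V⌋₊) (hk : Squarefree k)
    (he2 : ∀ p : ℕ, p.Prime → p ∣ 4 * e → p ^ 2 ∣ 4 * e)
    (w : ℝ) (hw0 : 0 ≤ w) (hw1 : w ≤ V ^ 2)
    (hnot : ¬ Good g e k ((3 ^ g * V) ^ 2) (4 * md e * 3 ^ g * V / L)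
      (((M : ℝ) ^ g - w) / (4 * e) ^ 2))
    (c : ℝ) (hc : c = T * ∫ y in (0 : ℝ)..1, mk L y) (hc0 : 0 < c) :
    1 ≤ Phi g e k M S N T L c w := by
  have hL : (2 : ℝ) ≤ L := by exact_mod_cast h.hL
  have hQ0 : (0 : ℝ) < md e := by exact_mod_cast md_pos e h.he
  have hind : ∀ q : ℕ × ℕ, 0 ≤ (Iset g e k M S L q).indicator (fun _ => (1 : ℝ)) w := by
    intro q
    exact Set.indicator_nonneg (fun _ _ => zero_le_one) w
  have hmk : ∀ t ∈ Ioc T (2 * T), mk L (zt (md e) L (r0 e k) (muj g e M S) t w) ≤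
      20 * (L : ℝ) ^ 2 * ∑ q ∈ (BadT g e k M S N T).filter (fun q => q.2 = t),
        (Iset g e k M S L q).indicator (fun _ => (1 : ℝ)) w := by
    intro t ht
    have ht' := Finset.mem_Ioc.mp ht
    have hrhs : 0 ≤ 20 * (L : ℝ) ^ 2 * ∑ q ∈ (BadT g e k M S N T).filter (fun q => q.2 = t),
        (Iset g e k M S L q).indicator (fun _ => (1 : ℝ)) w := by
      apply mul_nonneg (by positivity)
      exact Finset.sum_nonneg (fun q _ => hind q)
    by_cases hnear : ∃ m : ℤ, |zt (md e) L (r0 e k) (muj g e M S) t w - m| < 1 / L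
    · obtain ⟨s, hs⟩ := hnear
      obtain ⟨a, ha1, ha2, ha3, ha4⟩ := near h hN t ht w hw0 hw1 s hs
      have hres : (md e : ℤ) ∣ (a : ℤ) - r0 e k := ⟨s, by rw [ha1]; ring⟩
      have hm1 : (md e : ℤ) ∣ (mj e M S t : ℤ) - 1 := by
        obtain ⟨x, hx⟩ := h.hM
        refine ⟨x + S * t, ?_⟩
        unfold mj
        push_cast
        linear_combination hx
      have hMpos := h.hM1
      have hbad : BadQ g e M S a t := by
        by_contra hg
        apply hnot
        obtain ⟨d, hd1, hd2⟩ := arith g e k (mj e M S t) a h.he hm1 hres ha3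
        obtain ⟨hd3, hd4⟩ := ha4 d hd1
        refine ⟨d, mj e M S t, a, hd3, hd4, good_sqfree g e k M S a t d hk he2 hd1 hd2 hg, hd2,
          hd1, ?_, ?_, good_coprime g e M S a t h.hg hm1 hg, ?_⟩
        · have h2 : ¬ 2 ∣ mj e M S t := by
            intro h2
            exact cop_m e 2 _ Nat.prime_two hm1 h2 ⟨2 * e, by ring⟩
          rw [← Nat.not_even_iff_odd]
          intro h3
          exact h2 h3.two_dvd
        · have := h.mj_lo t ht
          omega
        · have h2 := h.fam.hi t ht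
          unfold muj at h2
          rw [h.hV] at h2
          linarith
      have hmem : (a, t) ∈ (BadT g e k M S N T).filter (fun q => q.2 = t) := by
        classical
        unfold BadT Rs
        rw [Finset.mem_filter, Finset.mem_filter, Finset.mem_product, Finset.mem_filter,
          Finset.mem_range]
        exact ⟨⟨⟨⟨by omega, hres⟩, ht⟩, ha3, hbad⟩, rfl⟩
      have hone : (Iset g e k M S L (a, t)).indicator (fun _ => (1 : ℝ)) w = 1 := by
        rw [Set.indicator_of_mem]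
        unfold Iset
        show |zt (md e) L (r0 e k) (muj g e M S) t w - ((a : ℝ) - r0 e k) / md e| < 1 / L
        have h3 : ((a : ℝ) - r0 e k) / md e = s := by
          have h4 : (a : ℝ) = r0 e k + md e * s := by exact_mod_cast ha1
          rw [h4]
          field_simp
          ring
        rw [h3]
        exact hs
      have h4 := Finset.single_le_sum (f := fun q => (Iset g e k M S L q).indicator
        (fun _ => (1 : ℝ)) w) (fun q _ => hind q) hmem
      rw [hone] at h4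
      calc mk L (zt (md e) L (r0 e k) (muj g e M S) t w) ≤ 20 * (L : ℝ) ^ 2 :=
            mk_le L (by have := h.hL; omega) _
        _ = 20 * (L : ℝ) ^ 2 * 1 := by ring
        _ ≤ _ := by gcongr
    · push Not at hnear
      exact (mk_nonpos L h.hL _ hnear).trans hrhs
  have hsum : ∑ t ∈ Ioc T (2 * T), mk L (zt (md e) L (r0 e k) (muj g e M S) t w) ≤
      20 * (L : ℝ) ^ 2 * Ef g e k M S N T L w := by
    calc _ ≤ ∑ t ∈ Ioc T (2 * T), 20 * (L : ℝ) ^ 2 *
          ∑ q ∈ (BadT g e k M S N T).filter (fun q => q.2 = t),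
            (Iset g e k M S L q).indicator (fun _ => (1 : ℝ)) w := Finset.sum_le_sum hmk
      _ = _ := by
          rw [← Finset.mul_sum]
          congr 1
          unfold Ef
          apply Finset.sum_fiberwise_of_maps_to
          intro q hq
          classical
          unfold BadT at hq
          rw [Finset.mem_filter, Finset.mem_product] at hq
          exact hq.1.2
  have hE0 : 0 ≤ Ef g e k M S N T L w := Finset.sum_nonneg (fun q _ => hind q)
  unfold Phi
  by_cases hcase : c / 2 ≤ 20 * (L : ℝ) ^ 2 * Ef g e k M S N T L w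
  · have h3 : 1 ≤ 40 * (L : ℝ) ^ 2 / c * Ef g e k M S N T L w := by
      rw [div_mul_eq_mul_div, le_div_iff₀ hc0]
      linarith
    have h4 : 0 ≤ 4 / c ^ 2 * Sf g e k M S T L w ^ 2 := by positivity
    linarith
  · push Not at hcase
    have h3 : Sf g e k M S T L w < -(c / 2) := by
      unfold Sf
      rw [← hc]
      linarith
    have h4 : (c / 2) ^ 2 ≤ (-Sf g e k M S T L w) ^ 2 := by
      have : c / 2 ≤ -Sf g e k M S T L w := by linarith
      gcongr
    rw [neg_sq] at h4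
    have h4 : c ^ 2 / 4 ≤ Sf g e k M S T L w ^ 2 := by
      calc c ^ 2 / 4 = (c / 2) ^ 2 := by ring
        _ ≤ _ := h4
    have h5 : 1 ≤ 4 / c ^ 2 * Sf g e k M S T L w ^ 2 := by
      rw [div_mul_eq_mul_div, le_div_iff₀ (by positivity)]
      linarith
    have h6 : 0 ≤ 40 * (L : ℝ) ^ 2 / c * Ef g e k M S N T L w := by positivity
    linarith

lemma Iset_meas (g e k M S L : ℕ) (q : ℕ × ℕ) : MeasurableSet (Iset g e k M S L q) := by
  unfold Iset
  apply measurableSet_lt
  · have := (zt_cont (md e) L (r0 e k) (muj g e M S) q.2).measurable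
    fun_prop
  · fun_prop

/-- the slope of `zt` -/
lemma zt_slope {g e k M S T L : ℕ} {V : ℝ} (h : Par g e M S T L V) (j : ℕ)
    (hj : j ∈ Ioc T (2 * T)) (w w' : ℝ) (hw : 0 ≤ w) (hww : w ≤ w') (hw' : w' ≤ V ^ 2) :
    zt (md e) L (r0 e k) (muj g e M S) j w + 1 / (2 * md e * (3 ^ g * V)) * (w' - w) ≤
      zt (md e) L (r0 e k) (muj g e M S) j w' := by
  have F := h.fam
  have hlo := F.lo j hj
  have hhi := F.hi j hj
  have hV0 := h.hV0
  have hQ : (1 : ℝ) ≤ md e := by exact_mod_cast md_pos e h.he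
  have hR : (2 : ℝ) ≤ 3 ^ g := F.hR
  set μ : ℝ := muj g e M S j with hμ
  have h1 : ∀ v : ℝ, 0 ≤ v → v ≤ V ^ 2 → Real.sqrt (v + μ) ≤ 3 ^ g * V ∧
      Real.sqrt (v + μ) ^ 2 = v + μ ∧ V ≤ Real.sqrt (v + μ) := by
    intro v hv hv'
    refine ⟨?_, ?_, ?_⟩
    · rw [Real.sqrt_le_left (by positivity)]
      linarith
    · exact Real.sq_sqrt (by nlinarith [sq_nonneg V])
    · apply Real.le_sqrt_of_sq_le
      linarith
  obtain ⟨ha1, ha2, ha3⟩ := h1 w hw (hww.trans hw')
  obtain ⟨hb1, hb2, hb3⟩ := h1 w' (hw.trans hww) hw'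
  unfold zt
  rw [← hμ]
  set α : ℝ := Real.sqrt (w + μ) with hα
  set β : ℝ := Real.sqrt (w' + μ) with hβ
  have h2 : w' - w = (β - α) * (β + α) := by
    have : (β - α) * (β + α) = β ^ 2 - α ^ 2 := by ring
    rw [this, ha2, hb2]
    ring
  have hαβ : α ≤ β := Real.sqrt_le_sqrt (by linarith)
  have h3 : 1 / (2 * md e * (3 ^ g * V)) * (w' - w) ≤ (β - α) / md e := by
    rw [h2]
    have h4 : β + α ≤ 2 * (3 ^ g * V) := by linarith
    calc 1 / (2 * md e * (3 ^ g * V)) * ((β - α) * (β + α)) ≤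
        1 / (2 * md e * (3 ^ g * V)) * ((β - α) * (2 * (3 ^ g * V))) := by
          have : 0 ≤ β - α := by linarith
          gcongr
      _ = _ := by field_simp
  have h4 : (β - (r0 e k : ℝ)) / md e = (α - r0 e k) / md e + (β - α) / md e := by
    rw [← add_div]
    ring
  rw [h4]
  linarith

lemma Iset_vol {g e k M S T L : ℕ} {V : ℝ} (h : Par g e M S T L V) (q : ℕ × ℕ)
    (hq : q.2 ∈ Ioc T (2 * T)) :
    ∫ x in Set.Ioc 0 (V ^ 2), (Iset g e k M S L q).indicator (fun _ => (1 : ℝ)) x ≤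
      8 * md e * (3 ^ g * V) / L := by
  have hQ : (0 : ℝ) < md e := by exact_mod_cast md_pos e h.he
  have hV0 := h.hV0
  have hL0 : (0 : ℝ) < L := by
    have := h.hL
    exact_mod_cast (by omega : 0 < L)
  have h1 : (Iset g e k M S L q).indicator (fun _ => (1 : ℝ)) =
      (Iset g e k M S L q).indicator 1 := rfl
  rw [h1, integral_indicator_one (Iset_meas g e k M S L q)]
  rw [measureReal_restrict_apply (Iset_meas g e k M S L q)]
  set δ : ℝ := 4 * md e * (3 ^ g * V) / L with hδ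
  have hδ0 : 0 < δ := by positivity
  by_cases hne : (Iset g e k M S L q ∩ Set.Ioc 0 (V ^ 2)).Nonempty
  · obtain ⟨x₀, hx₀, hx₀'⟩ := hne
    have hsub : Iset g e k M S L q ∩ Set.Ioc 0 (V ^ 2) ⊆ Set.Icc (x₀ - δ) (x₀ + δ) := by
      rintro x ⟨hx, hx'⟩
      unfold Iset at hx hx₀
      simp only [Set.mem_ofPred_eq] at hx hx₀
      have h3 := abs_lt.mp hx
      have h4 := abs_lt.mp hx₀
      have h5 : 1 / (2 * md e * (3 ^ g * V)) * δ = 2 / L := by
        rw [hδ]
        field_simp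
        norm_num
      have h6 : (2 : ℝ) / L = 1 / L + 1 / L := by ring
      constructor
      · by_contra hcon
        push Not at hcon
        have h7 := zt_slope (k := k) h q.2 hq x x₀ hx'.1.le (by linarith) hx₀'.2
        have h8 : 1 / (2 * md e * (3 ^ g * V)) * δ ≤ 1 / (2 * md e * (3 ^ g * V)) * (x₀ - x) := by
          gcongr
          linarith
        linarith
      · by_contra hcon
        push Not at hcon
        have h7 := zt_slope (k := k) h q.2 hq x₀ x hx₀'.1.le (by linarith) hx'.2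
        have h8 : 1 / (2 * md e * (3 ^ g * V)) * δ ≤ 1 / (2 * md e * (3 ^ g * V)) * (x - x₀) := by
          gcongr
          linarith
        linarith
    calc volume.real (Iset g e k M S L q ∩ Set.Ioc 0 (V ^ 2)) ≤
        volume.real (Set.Icc (x₀ - δ) (x₀ + δ)) := by
          apply measureReal_mono hsub (by rw [Real.volume_Icc]; exact ENNReal.ofReal_ne_top)
      _ = (x₀ + δ) - (x₀ - δ) := by
          rw [Real.volume_real_Icc_of_le]
          linarith
      _ = _ := by rw [hδ]; ring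
  · rw [Set.not_nonempty_iff_eq_empty.mp hne]
    rw [measureReal_empty]
    positivity

lemma Sf_cont (g e k M S T L : ℕ) : Continuous (Sf g e k M S T L) := by
  unfold Sf
  apply Continuous.sub _ continuous_const
  apply continuous_finsetSum
  intro t _
  exact (mk_cont L).comp (zt_cont (md e) L (r0 e k) (muj g e M S) t)

lemma Phi_meas (g e k M S N T L : ℕ) (c : ℝ) : Measurable (Phi g e k M S N T L c) := by
  unfold Phi Ef
  apply Measurable.add
  · exact ((Sf_cont g e k M S T L).measurable.pow_const 2).const_mul _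
  · apply Measurable.const_mul
    apply Finset.measurable_fun_sum
    intro q _
    exact measurable_const.indicator (Iset_meas g e k M S L q)

lemma Phi_int {g e k M S T L N D : ℕ} {V : ℝ} (h : Par g e M S T L V)
    (hN : N = ⌊(3 : ℝ) ^ g * V⌋₊) (hD : 1 ≤ D)
    (hWp : ∀ p : ℕ, p.Prime → p ≤ D → p ∣ 4 * e)
    (c : ℝ) (hc : c = T * ∫ y in (0 : ℝ)..1, mk L y) :
    Integrable (Phi g e k M S N T L c) (volume.restrict (Set.Ioc 0 (V ^ 2))) ∧
    ∫ x in Set.Ioc 0 (V ^ 2), Phi g e k M S N T L c x ≤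
      1936 * (L / T) * (V ^ 2 + 16 * (3 ^ g) ^ 6 * V * md e * T * (1 + Real.log T) +
        160 * (3 ^ g) ^ 3 * md e * V * Real.sqrt V * T * Real.sqrt L) +
      160 * md e * (3 ^ g * V) / T * (3 * T * N / (md e * D) + (T + N) * (1 + Real.log N) + N +
        2 * T * Nat.primeCounting N) := by
  have F := h.fam
  have hV0 := h.hV0
  have hTr : (1 : ℝ) ≤ T := by exact_mod_cast h.hT
  have hQ1 : 1 ≤ md e := md_pos e h.he
  have hQ : (0 : ℝ) < md e := by exact_mod_cast hQ1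
  have hL0 : (0 : ℝ) < L := by
    have := h.hL
    exact_mod_cast (by omega : 0 < L)
  have hD0 : (0 : ℝ) < D := by exact_mod_cast hD
  have hc1 : 2 * (L : ℝ) * T ≤ c := by
    rw [hc]
    have := int_mk L h.hL
    nlinarith
  have hc0 : 0 < c := lt_of_lt_of_le (by positivity) hc1
  have hle : (0 : ℝ) ≤ V ^ 2 := by positivity
  have hi1 : Integrable (fun x => Sf g e k M S T L x ^ 2)
      (volume.restrict (Set.Ioc 0 (V ^ 2))) := by
    have : IntervalIntegrable (fun x => Sf g e k M S T L x ^ 2) volume 0 (V ^ 2) :=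
      Continuous.intervalIntegrable ((Sf_cont g e k M S T L).pow 2) _ _
    exact (intervalIntegrable_iff_integrableOn_Ioc_of_le hle).mp this
  have hi2 : ∀ q : ℕ × ℕ, Integrable (fun x => (Iset g e k M S L q).indicator
      (fun _ => (1 : ℝ)) x) (volume.restrict (Set.Ioc 0 (V ^ 2))) := by
    intro q
    exact (integrable_const (1 : ℝ)).indicator (Iset_meas g e k M S L q)
  have hi3 : Integrable (fun x => Ef g e k M S N T L x)
      (volume.restrict (Set.Ioc 0 (V ^ 2))) := by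
    unfold Ef
    apply integrable_finsetSum
    intro q _
    exact hi2 q
  have hiP : Integrable (Phi g e k M S N T L c) (volume.restrict (Set.Ioc 0 (V ^ 2))) := by
    unfold Phi
    exact (hi1.const_mul _).add (hi3.const_mul _)
  refine ⟨hiP, ?_⟩
  have hNr : ((3 : ℝ) ^ g * V - 1) < N := by
    rw [hN]
    exact Nat.sub_one_lt_floor _
  have hN1 : (1 : ℝ) ≤ N := by
    have h1 : 1 ≤ N := by
      rw [hN]
      apply Nat.le_floor
      have := F.hR
      push_cast
      nlinarith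
    exact_mod_cast h1
  have hlogN : 0 ≤ Real.log N := Real.log_nonneg hN1
  set Y : ℝ := 3 * T * N / (md e * D) + (T + N) * (1 + Real.log N) + N +
    2 * T * Nat.primeCounting N with hY
  have hY0 : 0 ≤ Y := by rw [hY]; positivity
  have hNsq : ∀ j ∈ Ioc T (2 * T), mj e M S j ^ g ≤ N ^ 2 := by
    intro j hj
    have h1 : (mj e M S j : ℝ) ≤ 3 * M := by exact_mod_cast h.mj_hi j hj
    have h2 : (mj e M S j : ℝ) ^ g ≤ 3 ^ g * V ^ 2 := by
      rw [h.hV, ← mul_pow]
      gcongr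
    have h3g : (9 : ℝ) ≤ 3 ^ g := by
      calc (9 : ℝ) = 3 ^ 2 := by norm_num
        _ ≤ 3 ^ g := by
            apply pow_le_pow_right₀ (by norm_num) h.hg
    have h4 : 3 ^ g * V ^ 2 ≤ ((3 : ℝ) ^ g * V - 1) ^ 2 := by
      have h5 : ((3 : ℝ) ^ g * V - 1) ^ 2 - 3 ^ g * V ^ 2 =
          3 ^ g * V * ((3 ^ g - 1) * V - 2) + 1 := by ring
      have h6 : 0 ≤ (3 : ℝ) ^ g * V * ((3 ^ g - 1) * V - 2) := by
        apply mul_nonneg (by positivity)
        nlinarith
      linarith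
    have h5 : ((3 : ℝ) ^ g * V - 1) ^ 2 ≤ (N : ℝ) ^ 2 := by
      have h6 : 0 ≤ (3 : ℝ) ^ g * V - 1 := by nlinarith
      gcongr
    have h6 : (mj e M S j : ℝ) ^ g ≤ (N : ℝ) ^ 2 := h2.trans (h4.trans h5)
    exact_mod_cast h6
  have hE : ∫ x in Set.Ioc 0 (V ^ 2), Ef g e k M S N T L x ≤
      Y * (8 * md e * (3 ^ g * V) / L) := by
    unfold Ef
    rw [integral_finsetSum]
    · calc ∑ q ∈ BadT g e k M S N T, ∫ x in Set.Ioc 0 (V ^ 2),
            (Iset g e k M S L q).indicator (fun _ => (1 : ℝ)) x ≤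
          ∑ q ∈ BadT g e k M S N T, 8 * md e * (3 ^ g * V) / (L : ℝ) := by
            apply Finset.sum_le_sum
            intro q hq
            apply Iset_vol h
            classical
            unfold BadT at hq
            rw [Finset.mem_filter, Finset.mem_product] at hq
            exact hq.1.2
        _ = (BadT g e k M S N T).card * (8 * md e * (3 ^ g * V) / (L : ℝ)) := by
            rw [Finset.sum_const, nsmul_eq_mul]
        _ ≤ _ := by
            have := bad_card g e k M S N T D h.hg h.he hD hWp h.hSp hNsq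
            rw [← hY] at this
            gcongr
    · intro q _
      exact hi2 q
  have hVar : ∫ x in Set.Ioc 0 (V ^ 2), Sf g e k M S T L x ^ 2 ≤
      (22 * L) ^ 2 * (4 * L * T * (V ^ 2 + 16 * (3 ^ g) ^ 6 * V * md e * T * (1 + Real.log T) +
        160 * (3 ^ g) ^ 3 * md e * V * Real.sqrt V * T * Real.sqrt L)) := by
    rw [← intervalIntegral.integral_of_le hle]
    exact variance F (md e) L hQ1 (r0 e k) h.hL
  have hlog : 0 ≤ Real.log T := Real.log_nonneg hTr
  set X : ℝ := V ^ 2 + 16 * (3 ^ g) ^ 6 * V * md e * T * (1 + Real.log T) +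
        160 * (3 ^ g) ^ 3 * md e * V * Real.sqrt V * T * Real.sqrt L with hX
  have hX0 : 0 ≤ X := by rw [hX]; positivity
  have heq : ∫ x in Set.Ioc 0 (V ^ 2), Phi g e k M S N T L c x =
      4 / c ^ 2 * (∫ x in Set.Ioc 0 (V ^ 2), Sf g e k M S T L x ^ 2) +
      40 * L ^ 2 / c * (∫ x in Set.Ioc 0 (V ^ 2), Ef g e k M S N T L x) := by
    unfold Phi
    rw [integral_add (hi1.const_mul _) (hi3.const_mul _), integral_const_mul, integral_const_mul]
  rw [heq]
  have h1 : 4 / c ^ 2 * ∫ x in Set.Ioc 0 (V ^ 2), Sf g e k M S T L x ^ 2 ≤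
      1936 * (L / T) * X := by
    calc 4 / c ^ 2 * ∫ x in Set.Ioc 0 (V ^ 2), Sf g e k M S T L x ^ 2 ≤
        4 / c ^ 2 * ((22 * L) ^ 2 * (4 * L * T * X)) := by gcongr
      _ ≤ 4 / (2 * L * T) ^ 2 * ((22 * L) ^ 2 * (4 * L * T * X)) := by gcongr
      _ = _ := by
          field_simp
          ring
  have h2 : 40 * L ^ 2 / c * ∫ x in Set.Ioc 0 (V ^ 2), Ef g e k M S N T L x ≤
      160 * md e * (3 ^ g * V) / T * Y := by
    calc 40 * L ^ 2 / c * ∫ x in Set.Ioc 0 (V ^ 2), Ef g e k M S N T L x ≤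
        40 * L ^ 2 / c * (Y * (8 * md e * (3 ^ g * V) / L)) := by gcongr
      _ ≤ 40 * L ^ 2 / (2 * L * T) * (Y * (8 * md e * (3 ^ g * V) / L)) := by gcongr
      _ = _ := by
          field_simp
          ring
  linarith

end Pool.Agent.Q148.CG
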