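import Pool.Agent.Q148.CG.Asy

set_option autoImplicit false

/-! # Almost all short intervals -/

namespace Pool.Agent.Q148.CG

open Finset MeasureTheory Pool.Agent.Q148.CN

/-- the exponent -/
noncomputable def th (g : ℕ) : ℝ := max (1 / 3) (1 / 2 - 1 / (g : ℝ))

lemma th_bounds (g : ℕ) : 0 ≤ th g ∧ th g ≤ 1 := by
  unfold th
  constructor
  · exact le_max_of_le_left (by norm_num)
  · apply max_le (by norm_num)
    have : (0 : ℝ) ≤ 1 / (g : ℝ) := by positivity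
    linarith

/-- the short interval after `x` contains a squarefree number of the class for which the equation
has a solution -/
def PG (g W k : ℕ) (K : ℝ) (x : ℕ) : Prop :=
  ∃ d : ℕ, x ≤ d ∧ (d : ℝ) ≤ x + K * (x : ℝ) ^ (th g) ∧ Squarefree d ∧ d ≡ k [MOD W] ∧
    ∃ m b a : ℕ, a ^ 2 + d * b ^ 2 = m ^ g ∧ Odd m ∧ 1 < m ∧ Nat.Coprime a m ∧
      16 * m ^ g < d ^ 2

lemma VU (g M : ℕ) (hg : 2 ≤ g) (hM : 1 ≤ M) :
    Vv g M = Uu g M * ((M : ℝ) ^ g) ^ (th g) := by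
  have hM0 : (0 : ℝ) < M := by exact_mod_cast hM
  have hg0 : (2 : ℝ) ≤ g := by exact_mod_cast hg
  unfold Vv Uu
  rw [← Real.rpow_natCast, ← Real.rpow_mul hM0.le, ← Real.rpow_add hM0]
  congr 1
  unfold th
  rcases le_total (g : ℝ) 6 with h | h
  · have h1 : (g : ℝ) / 6 ≤ 1 := by linarith
    have h2 : 1 / 2 - 1 / (g : ℝ) ≤ 1 / 3 := by
      have : (1 : ℝ) / 6 ≤ 1 / g := one_div_le_one_div_of_le (by linarith) h
      linarith
    rw [min_eq_right h1, max_eq_left h2]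
    ring
  · have h1 : 1 ≤ (g : ℝ) / 6 := by linarith
    have h2 : 1 / 3 ≤ 1 / 2 - 1 / (g : ℝ) := by
      have : (1 : ℝ) / g ≤ 1 / 6 := one_div_le_one_div_of_le (by norm_num) h
      linarith
    rw [min_eq_left h1, max_eq_right h2]
    field_simp
    ring

lemma exists_M (g Q : ℕ) (hg : 1 ≤ g) (hQ : 1 ≤ Q) (z : ℝ) (hz : (Q : ℝ) ^ g ≤ z) :
    ∃ M : ℕ, (Q : ℤ) ∣ (M : ℤ) - 1 ∧ z ≤ (M : ℝ) ^ g ∧ (M : ℝ) ^ g ≤ 2 ^ g * z := by
  have hQr : (1 : ℝ) ≤ Q := by exact_mod_cast hQ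
  have hz0 : 0 ≤ z := le_trans (by positivity) hz
  set y : ℝ := z ^ (1 / (g : ℝ)) with hy
  have hy0 : 0 ≤ y := by rw [hy]; positivity
  have hg0 : (g : ℝ) ≠ 0 := by
    have : (1 : ℝ) ≤ g := by exact_mod_cast hg
    linarith
  have hyg : y ^ g = z := by
    rw [hy, ← Real.rpow_natCast, ← Real.rpow_mul hz0, one_div_mul_cancel hg0, Real.rpow_one]
  have hQy : (Q : ℝ) ≤ y := by
    rw [← hyg] at hz
    exact le_of_pow_le_pow_left₀ (by omega) hy0 hz
  set s : ℕ := ⌈(y - 1) / Q⌉₊ with hs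
  have h1 : (y - 1) / Q ≤ s := Nat.le_ceil _
  have h2 : (s : ℝ) < (y - 1) / Q + 1 := Nat.ceil_lt_add_one (by
    apply div_nonneg _ (by linarith)
    linarith)
  have h3 : y ≤ 1 + Q * s := by
    rw [div_le_iff₀ (by linarith)] at h1
    linarith
  have h4 : 1 + Q * (s : ℝ) ≤ 2 * y := by
    have h5 : (s : ℝ) * Q < ((y - 1) / Q + 1) * Q := by
      have : (0 : ℝ) < Q := by linarith
      gcongr
    have h6 : ((y - 1) / Q + 1) * Q = y - 1 + Q := by field_simp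
    rw [h6] at h5
    linarith
  refine ⟨1 + Q * s, ⟨s, by push_cast; ring⟩, ?_, ?_⟩
  · rw [← hyg]
    push_cast
    gcongr
  · rw [← hyg, ← mul_pow]
    push_cast
    gcongr

lemma block (g e k D : ℕ) (η : ℝ) (hη : 0 < η) (hg : 2 ≤ g) (he : 1 ≤ e) (hk : Squarefree k)
    (he2 : ∀ p : ℕ, p.Prime → p ∣ 4 * e → p ^ 2 ∣ 4 * e) (hD : 1 ≤ D)
    (hWp : ∀ p : ℕ, p.Prime → p ≤ D → p ∣ 4 * e)
    (hD' : 3360 * (3 ^ g) ^ 2 / η ≤ D) : ∃ K : ℝ, 0 < K ∧ ∃ Y₀ : ℝ, 1 ≤ Y₀ ∧ ∀ Y : ℝ, Y₀ ≤ Y →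
      ∀ S : Finset ℕ, (∀ x ∈ S, Y / 8 ≤ x ∧ (x : ℝ) + 1 ≤ Y ∧ ¬ PG g (4 * e) k K x) →
        (S.card : ℝ) ≤ η * 2 ^ g * Y := by
  obtain ⟨K₀, hK₀, M₀, hasy⟩ := asy g e D hg he η hη hD hD'
  obtain ⟨hθ0, hθ1⟩ := th_bounds g
  set Q : ℕ := md e with hQ
  have hQ1 : 1 ≤ Q := md_pos e he
  have hQr : (1 : ℝ) ≤ Q := by exact_mod_cast hQ1
  set R : ℝ := 3 ^ g with hR
  have hR1 : 1 ≤ R := by rw [hR]; exact one_le_pow₀ (by norm_num)
  have her : (1 : ℝ) ≤ e := by exact_mod_cast he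
  set q : ℝ := (4 * (e : ℝ)) ^ 2 with hq
  have hq1 : 1 ≤ q := by
    rw [hq]
    apply one_le_pow₀
    linarith
  set C : ℝ := 8 * 2 ^ g * q with hC
  have h2g : (1 : ℝ) ≤ 2 ^ g := one_le_pow₀ (by norm_num)
  have hC1 : 1 ≤ C := by
    rw [hC]
    have : 1 ≤ 2 ^ g * q := one_le_mul_of_one_le_of_one_le h2g hq1
    linarith
  have hK₀r : (1 : ℝ) ≤ K₀ := by exact_mod_cast hK₀
  refine ⟨32 * Q ^ 2 * R * K₀ * C + 1, by positivity,
    8 + (M₀ : ℝ) ^ g + Q ^ g + 8 * (16 * R ^ 2 * C), ?_, ?_⟩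
  · have h1 : (0 : ℝ) ≤ (M₀ : ℝ) ^ g + Q ^ g + 8 * (16 * R ^ 2 * C) := by positivity
    linarith
  intro Y hY S hS
  have t1 : (0 : ℝ) ≤ (M₀ : ℝ) ^ g := by positivity
  have t2 : (0 : ℝ) ≤ (Q : ℝ) ^ g := by positivity
  have t3 : (0 : ℝ) ≤ 8 * (16 * R ^ 2 * C) := by positivity
  have hY8 : 8 ≤ Y := by linarith
  have hYq : Y ≤ q * Y := by nlinarith
  obtain ⟨M, hMQ, hM1, hM2⟩ := exists_M g Q (by omega) hQ1 (q * Y) (by linarith)
  have hMM₀ : M₀ ≤ M := by
    by_contra hc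
    push Not at hc
    have h1 : (M : ℝ) ≤ M₀ := by exact_mod_cast hc.le
    have h2 : (M : ℝ) ^ g ≤ (M₀ : ℝ) ^ g := by gcongr
    linarith
  obtain ⟨S', T, hpar, hUL, hBd⟩ := hasy M hMM₀ hMQ
  set V : ℝ := Vv g M with hV
  set L : ℕ := T / K₀ with hL
  have hMpos : 1 ≤ M := hpar.hM1
  have hLr : (2 : ℝ) ≤ L := by exact_mod_cast hpar.hL
  have hV1 := hpar.hV0
  have hV2 : V ^ 2 = (M : ℝ) ^ g := hpar.hV
  -- the exceptional set
  set N : ℕ := ⌊(3 : ℝ) ^ g * V⌋₊ with hN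
  set c : ℝ := T * ∫ y in (0 : ℝ)..1, mk L y with hc
  have hc0 : 0 < c := by
    have h3 := int_mk L hpar.hL
    rw [hc]
    have h4 : 0 < ∫ y in (0 : ℝ)..1, mk L y := by linarith
    have h5 : (0 : ℝ) < T := by exact_mod_cast hpar.hT
    positivity
  obtain ⟨hint, hle⟩ := Phi_int (k := k) hpar hN hD hWp c hc
  have hPhi0 : ∀ x, 0 ≤ Phi g e k M S' N T L c x := by
    intro x
    unfold Phi
    have hE0 : 0 ≤ Ef g e k M S' N T L x :=
      Finset.sum_nonneg (fun q _ => Set.indicator_nonneg (fun _ _ => zero_le_one) x)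
    positivity
  set E : Set ℝ := {x | 1 ≤ Phi g e k M S' N T L c x} with hE
  have hEm : MeasurableSet E := measurableSet_le measurable_const (Phi_meas g e k M S' N T L c)
  have hEvol : volume.real (E ∩ Set.Ioc 0 (V ^ 2)) ≤ η * V ^ 2 := by
    have h3 := mul_meas_ge_le_integral_of_nonneg (μ := volume.restrict (Set.Ioc 0 (V ^ 2)))
      (Filter.Eventually.of_forall hPhi0) hint 1
    rw [one_mul] at h3
    rw [measureReal_restrict_apply hEm] at h3
    refine h3.trans (hle.trans ?_)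
    exact hBd
  -- the intervals
  set I : ℕ → Set ℝ := fun x => Set.Ioc ((M : ℝ) ^ g - q * ((x : ℝ) + 1)) ((M : ℝ) ^ g - q * x)
    with hI
  have hdisj : (S : Set ℕ).PairwiseDisjoint I := by
    have key : ∀ x y : ℕ, x < y → Disjoint (I x) (I y) := by
      intro x y hxy
      rw [Set.disjoint_left]
      rintro w ⟨h1, _⟩ ⟨_, h4⟩
      have h5 : (x : ℝ) + 1 ≤ y := by exact_mod_cast hxy
      have h6 : q * ((x : ℝ) + 1) ≤ q * y := by gcongr
      linarith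
    intro x _ y _ hxy
    rcases lt_or_gt_of_ne hxy with h | h
    · exact key x y h
    · exact (key y x h).symm
  have hsub : (⋃ x ∈ S, I x) ⊆ E ∩ Set.Ioc 0 (V ^ 2) := by
    intro w hw
    rw [Set.mem_iUnion₂] at hw
    obtain ⟨x, hxS, hwx⟩ := hw
    obtain ⟨h3, h4, h5⟩ := hS x hxS
    obtain ⟨hw1, hw2⟩ := hwx
    have hx0 : (0 : ℝ) ≤ x := by positivity
    have hx1 : (1 : ℝ) ≤ x := by linarith
    have hw0 : 0 < w := by
      have h6 : q * ((x : ℝ) + 1) ≤ q * Y := by gcongr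
      linarith
    have hwV : w ≤ V ^ 2 := by
      rw [hV2]
      have : 0 ≤ q * (x : ℝ) := by positivity
      linarith
    refine ⟨?_, hw0, hwV⟩
    show 1 ≤ Phi g e k M S' N T L c w
    apply key hpar hN hk he2 w hw0.le hwV _ c hc hc0
    rintro ⟨d, m, a, hd1, hd2, hd3, hd4, hd5, hd6, hd7, hd8, hd9⟩
    have hq0 : 0 < q := by linarith
    rw [← hq] at hd1 hd2
    have hxw : (x : ℝ) ≤ ((M : ℝ) ^ g - w) / q := by
      rw [le_div_iff₀ hq0]
      linarith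
    have hxw2 : ((M : ℝ) ^ g - w) / q ≤ x + 1 := by
      rw [div_le_iff₀ hq0]
      linarith
    have hxd : (x : ℝ) ≤ d := hxw.trans hd1
    have hMx : (M : ℝ) ^ g ≤ C * x := by
      calc (M : ℝ) ^ g ≤ 2 ^ g * (q * Y) := hM2
        _ ≤ 2 ^ g * (q * (8 * x)) := by
            have : Y ≤ 8 * x := by linarith
            gcongr
        _ = _ := by rw [hC]; ring
    apply h5
    refine ⟨d, by exact_mod_cast hxd, ?_, hd3, hd4, m, 4 * e, a, hd5, hd6, hd7, hd8, ?_⟩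
    · have h6 : 4 * Q * R * V / L ≤ 32 * Q ^ 2 * R * K₀ * C * (x : ℝ) ^ (th g) := by
        rw [div_le_iff₀ (by linarith)]
        have h7 : V = Uu g M * ((M : ℝ) ^ g) ^ (th g) := VU g M hg hMpos
        have h8 : ((M : ℝ) ^ g) ^ (th g) ≤ C * (x : ℝ) ^ (th g) := by
          calc ((M : ℝ) ^ g) ^ (th g) ≤ (C * x) ^ (th g) := by gcongr
            _ = C ^ (th g) * (x : ℝ) ^ (th g) := Real.mul_rpow (by linarith) hx0
            _ ≤ C ^ (1 : ℝ) * (x : ℝ) ^ (th g) := by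
                have := Real.rpow_le_rpow_of_exponent_le hC1 hθ1
                gcongr
            _ = _ := by rw [Real.rpow_one]
        have hU0 : 0 ≤ Uu g M := by
          unfold Uu
          positivity
        calc 4 * Q * R * V = 4 * Q * R * (Uu g M * ((M : ℝ) ^ g) ^ (th g)) := by rw [← h7]
          _ ≤ 4 * Q * R * ((8 * Q * K₀ * L) * (C * (x : ℝ) ^ (th g))) := by gcongr
          _ = _ := by ring
      have h7 : 1 ≤ (x : ℝ) ^ (th g) := Real.one_le_rpow hx1 hθ0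
      calc (d : ℝ) ≤ ((M : ℝ) ^ g - w) / q + 4 * Q * R * V / L := hd2
        _ ≤ (x + 1) + 32 * Q ^ 2 * R * K₀ * C * (x : ℝ) ^ (th g) := by gcongr
        _ ≤ _ := by
            rw [add_mul]
            linarith
    · have h6 : (m : ℝ) ^ g ≤ R ^ 2 * C * d := by
        calc (m : ℝ) ^ g ≤ (R * V) ^ 2 := hd9
          _ = R ^ 2 * (M : ℝ) ^ g := by rw [mul_pow, hV2]
          _ ≤ R ^ 2 * (C * x) := by gcongr
          _ ≤ R ^ 2 * (C * d) := by gcongr
          _ = _ := by ring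
      have h7 : 16 * R ^ 2 * C < d := by linarith
      have h8 : (16 : ℝ) * (m : ℝ) ^ g < (d : ℝ) ^ 2 := by
        have hd0 : (0 : ℝ) < d := by linarith
        calc (16 : ℝ) * (m : ℝ) ^ g ≤ 16 * (R ^ 2 * C * d) := by gcongr
          _ = (16 * R ^ 2 * C) * d := by ring
          _ < d * d := by gcongr
          _ = _ := by ring
      exact_mod_cast h8
  have hvol : volume.real (⋃ x ∈ S, I x) = ∑ x ∈ S, volume.real (I x) := by
    apply measureReal_biUnion_finset hdisj (fun x _ => measurableSet_Ioc)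
      (fun x _ => by
        rw [hI]
        simp only
        rw [Real.volume_Ioc]
        exact ENNReal.ofReal_ne_top)
  have hlen : ∀ x ∈ S, q = volume.real (I x) := by
    intro x hxS
    rw [hI]
    simp only
    rw [Real.volume_real_Ioc_of_le (by nlinarith)]
    ring
  have h3 : (S.card : ℝ) * q ≤ η * V ^ 2 := by
    calc (S.card : ℝ) * q = ∑ x ∈ S, q := by
          rw [Finset.sum_const, nsmul_eq_mul]
      _ = ∑ x ∈ S, volume.real (I x) := Finset.sum_congr rfl hlen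
      _ = volume.real (⋃ x ∈ S, I x) := hvol.symm
      _ ≤ volume.real (E ∩ Set.Ioc 0 (V ^ 2)) := by
          exact measureReal_mono hsub (ne_of_lt (lt_of_le_of_lt
            (measure_mono Set.inter_subset_right)
            (by rw [Real.volume_Ioc]; exact ENNReal.ofReal_lt_top)))
      _ ≤ _ := hEvol
  have h4 : (S.card : ℝ) * q ≤ (η * 2 ^ g * Y) * q := by
    calc (S.card : ℝ) * q ≤ η * V ^ 2 := h3
      _ = η * (M : ℝ) ^ g := by rw [hV2]
      _ ≤ η * (2 ^ g * (q * Y)) := by gcongr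
      _ = _ := by ring
  exact le_of_mul_le_mul_right h4 (by linarith)

lemma PG_mono (g W W' k : ℕ) (K : ℝ) (x : ℕ) (hW : W ∣ W') (h : PG g W' k K x) :
    PG g W k K x := by
  obtain ⟨n, h1, h2, h3, h4, h5⟩ := h
  exact ⟨n, h1, h2, h3, h4.of_dvd hW, h5⟩

open Classical in
/-- the number of `x ≤ X` without a number in the short interval -/
noncomputable def Nf (g W k : ℕ) (K : ℝ) (X : ℕ) : ℕ :=
  ((range (X + 1)).filter (fun x => ¬ PG g W k K x)).card

lemma Nf_le (g W k : ℕ) (K : ℝ) (X : ℕ) : Nf g W k K X ≤ X + 1 := by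
  classical
  unfold Nf
  refine (Finset.card_filter_le _ _).trans ?_
  rw [Finset.card_range]

lemma main_nat (g N k : ℕ) (hg : 2 ≤ g) (hN : 1 ≤ N) (hk : Squarefree k) (η : ℝ) (hη : 0 < η) :
    ∃ K : ℝ, 0 < K ∧ ∃ C : ℝ, 0 < C ∧ ∀ X : ℕ, (Nf g N k K X : ℝ) ≤ C + η * X := by
  classical
  set η' : ℝ := η / 2 / 2 ^ g with hη'
  have hη'0 : 0 < η' := by rw [hη']; positivity
  obtain ⟨D, hD⟩ := exists_nat_ge (3360 * ((3 : ℝ) ^ g) ^ 2 / η' + 1)
  have hDr : 1 ≤ (D : ℝ) := by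
    have : 0 < 3360 * ((3 : ℝ) ^ g) ^ 2 / η' := by positivity
    linarith
  have hD1 : 1 ≤ D := by exact_mod_cast hDr
  set e : ℕ := 4 * (N * D.factorial) ^ 2 with he
  have hf : 1 ≤ D.factorial := Nat.factorial_pos D
  have hND : 1 ≤ N * D.factorial := Nat.mul_pos hN hf
  have he1 : 1 ≤ e := by
    rw [he]
    have : 1 ≤ (N * D.factorial) ^ 2 := Nat.one_le_pow _ _ hND
    omega
  have h4e : 4 * e = (4 * (N * D.factorial)) ^ 2 := by rw [he]; ring
  have hNW : N ∣ 4 * e := by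
    rw [h4e]
    exact ⟨16 * N * D.factorial ^ 2, by ring⟩
  have he2 : ∀ p : ℕ, p.Prime → p ∣ 4 * e → p ^ 2 ∣ 4 * e := by
    intro p hp h
    rw [h4e] at h ⊢
    exact pow_dvd_pow_of_dvd (hp.dvd_of_dvd_pow h) 2
  have hWp : ∀ p : ℕ, p.Prime → p ≤ D → p ∣ 4 * e := by
    intro p hp hpD
    have h1 : p ∣ D.factorial := Nat.dvd_factorial hp.pos hpD
    rw [h4e, sq]
    exact ((h1.mul_left _).mul_left _).mul_left _
  obtain ⟨K, hK, Y₀, hY₀, hblock⟩ := block g e k D η' hη'0 hg he1 hk he2 hD1 hWp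
    (by linarith)
  refine ⟨K, hK, Y₀ + 2, by linarith, ?_⟩
  intro X
  induction X using Nat.strong_induction_on with
  | _ X ih =>
    by_cases hsmall : (X : ℝ) + 1 < Y₀ ∨ X < 2
    · have h1 : (Nf g N k K X : ℝ) ≤ X + 1 := by exact_mod_cast Nf_le g N k K X
      have h2 : 0 ≤ η * X := by positivity
      rcases hsmall with h3 | h3
      · linarith
      · have : (X : ℝ) ≤ 1 := by exact_mod_cast (by omega : X ≤ 1)
        linarith
    · push Not at hsmall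
      obtain ⟨h1, h2⟩ := hsmall
      set S : Finset ℕ := (range (X + 1)).filter (fun x => ¬ PG g N k K x ∧ (X + 1) / 8 < x)
        with hS
      have h3 : Nf g N k K X ≤ Nf g N k K ((X + 1) / 8) + S.card := by
        unfold Nf
        have hsub : (range (X + 1)).filter (fun x => ¬ PG g N k K x) ⊆
            ((range ((X + 1) / 8 + 1)).filter (fun x => ¬ PG g N k K x)) ∪ S := by
          intro x hx
          rw [Finset.mem_filter, Finset.mem_range] at hx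
          rw [Finset.mem_union, Finset.mem_filter, hS, Finset.mem_filter, Finset.mem_range,
            Finset.mem_range]
          by_cases hx2 : x < (X + 1) / 8 + 1
          · exact Or.inl ⟨hx2, hx.2⟩
          · exact Or.inr ⟨hx.1, hx.2, by omega⟩
        exact (Finset.card_le_card hsub).trans (Finset.card_union_le _ _)
      have h4 : (S.card : ℝ) ≤ η' * 2 ^ g * ((X : ℝ) + 1) := by
        apply hblock ((X : ℝ) + 1) h1 S
        intro x hx
        rw [hS, Finset.mem_filter, Finset.mem_range] at hx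
        obtain ⟨h5, h6, h7⟩ := hx
        refine ⟨?_, ?_, ?_⟩
        · have h8 : X + 1 ≤ 8 * x := by omega
          have h9 : (X : ℝ) + 1 ≤ 8 * x := by exact_mod_cast h8
          linarith
        · have h8 : x + 1 ≤ X + 1 := by omega
          exact_mod_cast h8
        · intro h8
          exact h6 (PG_mono g N (4 * e) k K x hNW h8)
      have hη2 : η' * 2 ^ g = η / 2 := by
        rw [hη']
        field_simp
      rw [hη2] at h4
      have h5 := ih ((X + 1) / 8) (by omega)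
      have h6 : (((X + 1) / 8 : ℕ) : ℝ) ≤ ((X : ℝ) + 1) / 8 := by
        have := @Nat.cast_div_le ℝ _ _ _ (X + 1) 8
        push_cast at this
        exact this
      have h7 : (Nf g N k K X : ℝ) ≤ Nf g N k K ((X + 1) / 8) + S.card := by
        exact_mod_cast h3
      have h8 : (2 : ℝ) ≤ X := by exact_mod_cast h2
      have h9 : η * (((X + 1) / 8 : ℕ) : ℝ) ≤ η * (((X : ℝ) + 1) / 8) := by gcongr
      have h10 : η * (((X : ℝ) + 1) / 8) + η / 2 * ((X : ℝ) + 1) ≤ η * X := by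
        have h11 : η * (((X : ℝ) + 1) / 8) + η / 2 * ((X : ℝ) + 1) =
            η * ((5 / 8) * ((X : ℝ) + 1)) := by ring
        rw [h11]
        gcongr
        linarith
      linarith

theorem main (g N k : ℕ) (hg : 2 ≤ g) (hN : 1 ≤ N) (hk : Squarefree k) (η : ℝ) (hη : 0 < η) :
    ∃ K : ℝ, 0 < K ∧ ∃ X₀ : ℝ, ∀ X : ℝ, X₀ ≤ X →
      (({x : ℕ | (x : ℝ) ≤ X ∧ ¬ PG g N k K x}).ncard : ℝ) ≤ η * X := by
  classical
  obtain ⟨K, hK, C, hC, h⟩ := main_nat g N k hg hN hk (η / 2) (by positivity)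
  refine ⟨K, hK, 2 * C / η, ?_⟩
  intro X hX
  have hX0 : 0 < X := lt_of_lt_of_le (by positivity) hX
  have h1 : {x : ℕ | (x : ℝ) ≤ X ∧ ¬ PG g N k K x} =
      ((range (⌊X⌋₊ + 1)).filter (fun x => ¬ PG g N k K x) : Finset ℕ) := by
    ext x
    simp only [Set.mem_ofPred_eq, Finset.coe_filter, Finset.mem_range]
    rw [Nat.lt_succ_iff, Nat.le_floor_iff hX0.le]
  rw [h1, Set.ncard_coe_finset]
  have h2 := h ⌊X⌋₊
  unfold Nf at h2
  have h3 : (⌊X⌋₊ : ℝ) ≤ X := Nat.floor_le hX0.le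
  have h4 : 2 * C ≤ η * X := by
    rw [div_le_iff₀ hη] at hX
    linarith
  have h5 : (((range (⌊X⌋₊ + 1)).filter (fun x => ¬ PG g N k K x)).card : ℝ) ≤
      C + η / 2 * ⌊X⌋₊ := by
    convert h2 using 3
  have h6 : η / 2 * (⌊X⌋₊ : ℝ) ≤ η / 2 * X := by gcongr
  linarith

end Pool.Agent.Q148.CG
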