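import Pool.Agent.Q148.CN.Var2

set_option autoImplicit false

/-! # Oscillatory integrals with square root phases -/

namespace Pool.Agent.Q148.CG

open Finset MeasureTheory Pool.Agent.Q148.CN

/-- a weight `2 x` costs a factor `4 b` -/
lemma weight (f : ℝ → ℂ) (a b B : ℝ) (ha : 0 ≤ a) (hab : a ≤ b)
    (hf : Continuous f) (hB : ∀ t ∈ Set.Icc a b, ‖∫ x in a..t, f x‖ ≤ B) :
    ‖∫ x in a..b, (2 * x) • f x‖ ≤ 4 * b * B := by
  set G : ℝ → ℂ := fun t => ∫ x in a..t, f x with hG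
  have hGd : ∀ x : ℝ, HasDerivAt G (f x) x := fun x =>
    intervalIntegral.integral_hasDerivAt_right (hf.intervalIntegrable _ _)
      (hf.stronglyMeasurableAtFilter _ _) hf.continuousAt
  have hGc : Continuous G := continuous_iff_continuousAt.mpr (fun x => (hGd x).continuousAt)
  have h1 : ∫ x in a..b, (2 * x) • f x = (2 * b) • G b - (2 * a) • G a -
      ∫ x in a..b, (2 : ℝ) • G x := by
    have h2 : ∀ x ∈ Set.uIcc a b, HasDerivAt (fun x : ℝ => 2 * x) 2 x := by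
      intro x _
      simpa using (hasDerivAt_id x).const_mul (2 : ℝ)
    have h3 := intervalIntegral.integral_smul_deriv_eq_deriv_smul (u := fun x : ℝ => 2 * x)
      (v := G) (u' := fun _ => (2 : ℝ)) (v' := f) (a := a) (b := b) h2 (fun x _ => hGd x)
      (continuous_const.intervalIntegrable _ _) (hf.intervalIntegrable _ _)
    exact h3
  have h0 : G a = 0 := by
    rw [hG]
    simp
  rw [h1, h0, smul_zero, sub_zero]
  have hb : 0 ≤ b := ha.trans hab
  have hBb := hB b ⟨hab, le_refl _⟩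
  have hB0 : 0 ≤ B := (norm_nonneg _).trans hBb
  have h4 : ‖(2 * b) • G b‖ ≤ 2 * b * B := by
    rw [norm_smul, Real.norm_eq_abs, abs_of_nonneg (by linarith)]
    gcongr
  have h5 : ‖∫ x in a..b, (2 : ℝ) • G x‖ ≤ 2 * B * |b - a| := by
    apply intervalIntegral.norm_integral_le_of_norm_le_const
    intro x hx
    rw [Set.uIoc_of_le hab] at hx
    rw [norm_smul, Real.norm_eq_abs, abs_of_nonneg (by norm_num)]
    have := hB x ⟨hx.1.le, hx.2⟩
    gcongr
  rw [abs_of_nonneg (by linarith)] at h5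
  calc _ ≤ ‖(2 * b) • G b‖ + ‖∫ x in a..b, (2 : ℝ) • G x‖ := norm_sub_le _ _
    _ ≤ 2 * b * B + 2 * B * (b - a) := by gcongr
    _ ≤ _ := by nlinarith

/-- the phase after the substitution -/
noncomputable def sph (u v c θ : ℝ) : ℝ := u * Real.sqrt (θ ^ 2 + c) - v * θ

lemma sph_deriv (u v c θ : ℝ) (h : 0 < θ ^ 2 + c) :
    HasDerivAt (sph u v c) (u * (θ / Real.sqrt (θ ^ 2 + c)) - v) θ := by
  have h1 : HasDerivAt (fun θ : ℝ => θ ^ 2 + c) (2 * θ) θ := by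
    have := (hasDerivAt_pow 2 θ).add_const c
    simpa using this
  have h2 := h1.sqrt h.ne'
  have h3 := (h2.const_mul u).sub ((hasDerivAt_id θ).const_mul v)
  refine HasDerivAt.congr_deriv h3 ?_
  have h4 : Real.sqrt (θ ^ 2 + c) ≠ 0 := (Real.sqrt_pos.mpr h).ne'
  field_simp

lemma sph_deriv2 (u v c θ : ℝ) (h : 0 < θ ^ 2 + c) :
    HasDerivAt (fun θ => u * (θ / Real.sqrt (θ ^ 2 + c)) - v)
      (u * c / Real.sqrt (θ ^ 2 + c) ^ 3) θ := by
  have h1 : HasDerivAt (fun θ : ℝ => θ ^ 2 + c) (2 * θ) θ := by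
    have := (hasDerivAt_pow 2 θ).add_const c
    simpa using this
  have h2 := h1.sqrt h.ne'
  have h4 : Real.sqrt (θ ^ 2 + c) ≠ 0 := (Real.sqrt_pos.mpr h).ne'
  have h5 : Real.sqrt (θ ^ 2 + c) ^ 2 = θ ^ 2 + c := Real.sq_sqrt h.le
  have h3 := (((hasDerivAt_id θ).div h2 h4).const_mul u).sub_const v
  refine HasDerivAt.congr_deriv h3 ?_
  simp only [id_eq]
  field_simp
  rw [h5]
  ring

lemma sph2_cont (u c a b : ℝ) (h : ∀ θ ∈ Set.Icc a b, 0 < θ ^ 2 + c) :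
    ContinuousOn (fun θ => u * c / Real.sqrt (θ ^ 2 + c) ^ 3) (Set.Icc a b) := by
  apply ContinuousOn.div continuousOn_const
  · apply Continuous.continuousOn
    fun_prop
  · intro x hx
    exact pow_ne_zero _ (Real.sqrt_pos.mpr (h x hx)).ne'

lemma diff_bd (c θ ρ : ℝ) (hθ : 0 < θ) (hρ : 0 < ρ) (h : ρ ^ 2 = θ ^ 2 + c) :
    θ / ρ - 1 = -c / (ρ * (θ + ρ)) := by
  have : c = ρ ^ 2 - θ ^ 2 := by linarith
  rw [this]
  field_simp
  ring

/-- different coefficients -/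
lemma sph_A (u v c a b V R : ℝ) (hV : 0 < V) (hR : 2 ≤ R) (hab : a ≤ b) (huv : u ≠ v)
    (h1 : V ≤ a) (h2 : b ≤ R * V)
    (h3 : ∀ θ ∈ Set.Icc a b, V ^ 2 ≤ θ ^ 2 + c) (h4 : ∀ θ ∈ Set.Icc a b, θ ^ 2 + c ≤ (R * V) ^ 2) :
    ‖∫ θ in a..b, ex (sph u v c θ)‖ ≤ 2 * R / |u - v| + 4 * R ^ 2 * Real.sqrt (V / |u - v|) := by
  have hδ : 0 < |u - v| := abs_pos.mpr (sub_ne_zero.mpr huv)
  have hpos : ∀ θ ∈ Set.Icc a b, 0 < θ ^ 2 + c := fun θ hθ =>
    lt_of_lt_of_le (by positivity) (h3 θ hθ)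
  have hρ1 : ∀ θ ∈ Set.Icc a b, V ≤ Real.sqrt (θ ^ 2 + c) := by
    intro θ hθ
    apply Real.le_sqrt_of_sq_le
    exact h3 θ hθ
  have hρ2 : ∀ θ ∈ Set.Icc a b, Real.sqrt (θ ^ 2 + c) ≤ R * V := by
    intro θ hθ
    rw [Real.sqrt_le_left (by positivity)]
    exact h4 θ hθ
  have hR0 : 0 < R := by linarith
  by_cases hc : |u * c| ≤ |u - v| * V ^ 2 / 2
  · have h5 := osc (sph u v c) (fun θ => u * (θ / Real.sqrt (θ ^ 2 + c)) - v)
      (fun θ => u * c / Real.sqrt (θ ^ 2 + c) ^ 3) a b (|u - v| / 2) (|u - v| / (2 * V))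
      hab (by positivity) (fun θ hθ => sph_deriv u v c θ (hpos θ hθ))
      (fun θ hθ => sph_deriv2 u v c θ (hpos θ hθ)) (sph2_cont u c a b hpos) ?_ ?_
    · refine h5.trans ?_
      have hpi := Real.pi_gt_three
      have h6 : b - a ≤ R * V := by linarith
      have h7 : 1 / (Real.pi * (|u - v| / 2)) + |u - v| / (2 * V) * (b - a) /
          (2 * Real.pi * (|u - v| / 2) ^ 2) ≤
          1 / (3 * (|u - v| / 2)) + |u - v| / (2 * V) * (R * V) / (2 * 3 * (|u - v| / 2) ^ 2) := by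
        gcongr
      have h8 : 1 / (3 * (|u - v| / 2)) + |u - v| / (2 * V) * (R * V) /
          (2 * 3 * (|u - v| / 2) ^ 2) = (2 / 3 + R / 3) * (1 / |u - v|) := by
        field_simp
      have h9 : 2 * R / |u - v| = (2 * R) * (1 / |u - v|) := by ring
      have h10 : (2 / 3 + R / 3) * (1 / |u - v|) ≤ (2 * R) * (1 / |u - v|) := by
        gcongr
        linarith
      have h11 : 0 ≤ 4 * R ^ 2 * Real.sqrt (V / |u - v|) := by positivity
      linarith
    · intro θ hθ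
      have hθ0 : 0 < θ := by linarith [hθ.1]
      have hθV : V ≤ θ := h1.trans hθ.1
      have hρ := hρ1 θ hθ
      have hρ0 : 0 < Real.sqrt (θ ^ 2 + c) := by linarith
      have h6 := diff_bd c θ (Real.sqrt (θ ^ 2 + c)) hθ0 hρ0 (Real.sq_sqrt (hpos θ hθ).le)
      have h7 : u * (θ / Real.sqrt (θ ^ 2 + c)) - v = (u - v) +
          u * (θ / Real.sqrt (θ ^ 2 + c) - 1) := by ring
      have h8 : |u * (θ / Real.sqrt (θ ^ 2 + c) - 1)| ≤ |u - v| / 2 := by
        rw [h6]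
        have h9 : u * (-c / (Real.sqrt (θ ^ 2 + c) * (θ + Real.sqrt (θ ^ 2 + c)))) =
            -(u * c) / (Real.sqrt (θ ^ 2 + c) * (θ + Real.sqrt (θ ^ 2 + c))) := by ring
        rw [h9, abs_div, abs_neg, abs_of_pos (by positivity :
          0 < Real.sqrt (θ ^ 2 + c) * (θ + Real.sqrt (θ ^ 2 + c))), div_le_iff₀ (by positivity)]
        have h10 : V * (V + V) ≤ Real.sqrt (θ ^ 2 + c) * (θ + Real.sqrt (θ ^ 2 + c)) := by
          gcongr
        calc |u * c| ≤ |u - v| * V ^ 2 / 2 := hc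
          _ ≤ |u - v| / 2 * (V * (V + V)) := by nlinarith [mul_pos hδ (mul_pos hV hV)]
          _ ≤ _ := by gcongr
      have h9 : |u - v| ≤ |(u - v) + u * (θ / Real.sqrt (θ ^ 2 + c) - 1)| +
          |u * (θ / Real.sqrt (θ ^ 2 + c) - 1)| := by
        calc |u - v| = |((u - v) + u * (θ / Real.sqrt (θ ^ 2 + c) - 1)) -
              u * (θ / Real.sqrt (θ ^ 2 + c) - 1)| := by ring_nf
          _ ≤ _ := abs_sub _ _
      rw [h7]
      linarith
    · intro θ hθ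
      have hρ := hρ1 θ hθ
      have hρ0 : 0 < Real.sqrt (θ ^ 2 + c) := by linarith
      rw [abs_div, abs_of_pos (by positivity : 0 < Real.sqrt (θ ^ 2 + c) ^ 3),
        div_le_iff₀ (by positivity)]
      have h10 : V ^ 3 ≤ Real.sqrt (θ ^ 2 + c) ^ 3 := by gcongr
      calc |u * c| ≤ |u - v| * V ^ 2 / 2 := hc
        _ = |u - v| / (2 * V) * V ^ 3 := by field_simp
        _ ≤ _ := by gcongr
  · push Not at hc
    have hm : 0 < |u - v| / (2 * R ^ 3 * V) := by positivity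
    have h5 := osc_two' (sph u v c) (fun θ => u * (θ / Real.sqrt (θ ^ 2 + c)) - v)
      (fun θ => u * c / Real.sqrt (θ ^ 2 + c) ^ 3) a b (|u - v| / (2 * R ^ 3 * V))
      hab hm (fun θ hθ => sph_deriv u v c θ (hpos θ hθ))
      (fun θ hθ => sph_deriv2 u v c θ (hpos θ hθ)) (sph2_cont u c a b hpos) ?_
    · refine h5.trans ?_
      have h6 : 4 / Real.sqrt (|u - v| / (2 * R ^ 3 * V)) ≤ 4 * R ^ 2 * Real.sqrt (V / |u - v|) := by
        rw [div_le_iff₀ (Real.sqrt_pos.mpr hm), mul_assoc, ← Real.sqrt_mul (by positivity)]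
        have h7 : V / |u - v| * (|u - v| / (2 * R ^ 3 * V)) = 1 / (2 * R ^ 3) := by
          field_simp
        rw [h7]
        have h8 : (1 / R ^ 2) ≤ Real.sqrt (1 / (2 * R ^ 3)) := by
          apply Real.le_sqrt_of_sq_le
          rw [div_pow, one_pow]
          apply div_le_div_of_nonneg_left (by norm_num) (by positivity)
          calc 2 * R ^ 3 ≤ R * R ^ 3 := by gcongr
            _ = (R ^ 2) ^ 2 := by ring
        calc (4 : ℝ) = 4 * R ^ 2 * (1 / R ^ 2) := by field_simp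
          _ ≤ _ := by gcongr
      have h7 : 0 ≤ 2 * R / |u - v| := by positivity
      linarith
    · have h6 : ∀ θ ∈ Set.Icc a b, |u - v| / (2 * R ^ 3 * V) ≤ |u * c| / Real.sqrt (θ ^ 2 + c) ^ 3 := by
        intro θ hθ
        have hρ := hρ1 θ hθ
        have hρ0 : 0 < Real.sqrt (θ ^ 2 + c) := by linarith
        have hρ' := hρ2 θ hθ
        rw [le_div_iff₀ (by positivity)]
        calc |u - v| / (2 * R ^ 3 * V) * Real.sqrt (θ ^ 2 + c) ^ 3 ≤
            |u - v| / (2 * R ^ 3 * V) * (R * V) ^ 3 := by gcongr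
          _ = |u - v| * V ^ 2 / 2 := by field_simp
          _ ≤ |u * c| := hc.le
      rcases le_or_gt 0 (u * c) with h7 | h7
      · left
        intro θ hθ
        have := h6 θ hθ
        rwa [abs_of_nonneg h7] at this
      · right
        intro θ hθ
        have := h6 θ hθ
        rw [abs_of_neg h7, neg_div] at this
        linarith

/-- equal coefficients -/
lemma sph_B (u c a b V R : ℝ) (hV : 0 < V) (hR : 2 ≤ R) (hab : a ≤ b) (huc : u * c ≠ 0)
    (h1 : V ≤ a) (h2 : b ≤ R * V)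
    (h3 : ∀ θ ∈ Set.Icc a b, V ^ 2 ≤ θ ^ 2 + c) (h4 : ∀ θ ∈ Set.Icc a b, θ ^ 2 + c ≤ (R * V) ^ 2) :
    ‖∫ θ in a..b, ex (sph u u c θ)‖ ≤ 2 * R ^ 5 * V ^ 2 / |u * c| := by
  have hδ : 0 < |u * c| := abs_pos.mpr huc
  have hpos : ∀ θ ∈ Set.Icc a b, 0 < θ ^ 2 + c := fun θ hθ =>
    lt_of_lt_of_le (by positivity) (h3 θ hθ)
  have hρ1 : ∀ θ ∈ Set.Icc a b, V ≤ Real.sqrt (θ ^ 2 + c) := by
    intro θ hθ
    apply Real.le_sqrt_of_sq_le
    exact h3 θ hθ
  have hρ2 : ∀ θ ∈ Set.Icc a b, Real.sqrt (θ ^ 2 + c) ≤ R * V := by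
    intro θ hθ
    rw [Real.sqrt_le_left (by positivity)]
    exact h4 θ hθ
  have hR0 : 0 < R := by linarith
  have h5 := osc (sph u u c) (fun θ => u * (θ / Real.sqrt (θ ^ 2 + c)) - u)
      (fun θ => u * c / Real.sqrt (θ ^ 2 + c) ^ 3) a b (|u * c| / (2 * R ^ 2 * V ^ 2))
      (|u * c| / V ^ 3)
      hab (by positivity) (fun θ hθ => sph_deriv u u c θ (hpos θ hθ))
      (fun θ hθ => sph_deriv2 u u c θ (hpos θ hθ)) (sph2_cont u c a b hpos) ?_ ?_
  · refine h5.trans ?_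
    have hpi := Real.pi_gt_three
    have h6 : b - a ≤ R * V := by linarith
    have h7 : 1 / (Real.pi * (|u * c| / (2 * R ^ 2 * V ^ 2))) + |u * c| / V ^ 3 * (b - a) /
        (2 * Real.pi * (|u * c| / (2 * R ^ 2 * V ^ 2)) ^ 2) ≤
        1 / (3 * (|u * c| / (2 * R ^ 2 * V ^ 2))) + |u * c| / V ^ 3 * (R * V) /
        (2 * 3 * (|u * c| / (2 * R ^ 2 * V ^ 2)) ^ 2) := by
      gcongr
    have h8 : 1 / (3 * (|u * c| / (2 * R ^ 2 * V ^ 2))) + |u * c| / V ^ 3 * (R * V) /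
        (2 * 3 * (|u * c| / (2 * R ^ 2 * V ^ 2)) ^ 2) =
        (2 / 3 * R ^ 2 + 2 / 3 * R ^ 5) * (V ^ 2 / |u * c|) := by
      field_simp
    have h9 : 2 * R ^ 5 * V ^ 2 / |u * c| = (2 * R ^ 5) * (V ^ 2 / |u * c|) := by ring
    have h10 : R ^ 2 ≤ R ^ 5 := by
      calc R ^ 2 = R ^ 2 * 1 := by ring
        _ ≤ R ^ 2 * R ^ 3 := by
            gcongr
            exact one_le_pow₀ (by linarith)
        _ = R ^ 5 := by ring
    have h11 : (2 / 3 * R ^ 2 + 2 / 3 * R ^ 5) * (V ^ 2 / |u * c|) ≤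
        (2 * R ^ 5) * (V ^ 2 / |u * c|) := by
      gcongr
      have : 0 ≤ R ^ 5 := by positivity
      linarith
    linarith
  · intro θ hθ
    have hθ0 : 0 < θ := by linarith [hθ.1]
    have hθV : θ ≤ R * V := hθ.2.trans h2
    have hρ := hρ1 θ hθ
    have hρ' := hρ2 θ hθ
    have hρ0 : 0 < Real.sqrt (θ ^ 2 + c) := by linarith
    have h6 := diff_bd c θ (Real.sqrt (θ ^ 2 + c)) hθ0 hρ0 (Real.sq_sqrt (hpos θ hθ).le)
    have h7 : u * (θ / Real.sqrt (θ ^ 2 + c)) - u =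
        -(u * c) / (Real.sqrt (θ ^ 2 + c) * (θ + Real.sqrt (θ ^ 2 + c))) := by
      calc u * (θ / Real.sqrt (θ ^ 2 + c)) - u = u * (θ / Real.sqrt (θ ^ 2 + c) - 1) := by ring
        _ = _ := by rw [h6]; ring
    rw [h7, abs_div, abs_neg, abs_of_pos (by positivity :
        0 < Real.sqrt (θ ^ 2 + c) * (θ + Real.sqrt (θ ^ 2 + c)))]
    apply div_le_div_of_nonneg_left hδ.le (by positivity)
    calc Real.sqrt (θ ^ 2 + c) * (θ + Real.sqrt (θ ^ 2 + c)) ≤ (R * V) * (R * V + R * V) := by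
          gcongr
      _ = _ := by ring
  · intro θ hθ
    have hρ := hρ1 θ hθ
    have hρ0 : 0 < Real.sqrt (θ ^ 2 + c) := by linarith
    rw [abs_div, abs_of_pos (by positivity : 0 < Real.sqrt (θ ^ 2 + c) ^ 3)]
    gcongr

/-- the substitution `w = θ² - μ'` -/
lemma subst (u v μ μ' V : ℝ) (hV : 0 ≤ V) (hμ' : 0 ≤ μ') :
    ∫ w in (0 : ℝ)..V ^ 2, ex (u * Real.sqrt (w + μ) - v * Real.sqrt (w + μ')) =
      ∫ θ in (Real.sqrt μ')..(Real.sqrt (V ^ 2 + μ')), (2 * θ) • ex (sph u v (μ - μ') θ) := by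
  have hec := ex_cont
  have h1 := intervalIntegral.integral_deriv_smul_comp (a := Real.sqrt μ')
    (b := Real.sqrt (V ^ 2 + μ')) (f := fun θ : ℝ => θ ^ 2 - μ') (f' := fun θ => 2 * θ)
    (g := fun w => ex (u * Real.sqrt (w + μ) - v * Real.sqrt (w + μ')))
    (fun x _ => by simpa using (hasDerivAt_pow 2 x).sub_const μ')
    (by fun_prop) (by fun_prop)
  rw [Real.sq_sqrt hμ', Real.sq_sqrt (by positivity), sub_self, add_sub_cancel_right] at h1
  rw [← h1]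
  apply intervalIntegral.integral_congr
  intro θ hθ
  rw [Set.uIcc_of_le (Real.sqrt_le_sqrt (by nlinarith [sq_nonneg V]))] at hθ
  have hθ0 : 0 ≤ θ := (Real.sqrt_nonneg _).trans hθ.1
  simp only [Function.comp]
  unfold sph
  have h2 : θ ^ 2 - μ' + μ' = θ ^ 2 := by ring
  have h3 : θ ^ 2 - μ' + μ = θ ^ 2 + (μ - μ') := by ring
  rw [h2, h3, Real.sqrt_sq hθ0]

/-- the two bounds -/
lemma int_A (u v μ μ' V R : ℝ) (hV : 0 < V) (hR : 2 ≤ R) (huv : u ≠ v) (h1 : V ^ 2 ≤ μ)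
    (h2 : V ^ 2 ≤ μ') (h3 : V ^ 2 + μ ≤ (R * V) ^ 2) (h4 : V ^ 2 + μ' ≤ (R * V) ^ 2) :
    ‖∫ w in (0 : ℝ)..V ^ 2, ex (u * Real.sqrt (w + μ) - v * Real.sqrt (w + μ'))‖ ≤
      4 * (R * V) * (2 * R / |u - v| + 4 * R ^ 2 * Real.sqrt (V / |u - v|)) := by
  have hμ' : 0 ≤ μ' := le_trans (by positivity) h2
  rw [subst u v μ μ' V hV.le hμ']
  have hb : Real.sqrt (V ^ 2 + μ') ≤ R * V := by
    rw [Real.sqrt_le_left (by positivity)]
    exact h4
  have ha : V ≤ Real.sqrt μ' := by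
    apply Real.le_sqrt_of_sq_le
    exact h2
  have hab : Real.sqrt μ' ≤ Real.sqrt (V ^ 2 + μ') := Real.sqrt_le_sqrt (by nlinarith [sq_nonneg V])
  have hδ : 0 < |u - v| := abs_pos.mpr (sub_ne_zero.mpr huv)
  have hR0 : 0 < R := by linarith
  have h5 := weight (fun θ => ex (sph u v (μ - μ') θ)) (Real.sqrt μ') (Real.sqrt (V ^ 2 + μ'))
    (2 * R / |u - v| + 4 * R ^ 2 * Real.sqrt (V / |u - v|)) (Real.sqrt_nonneg _) hab
    (by
      have := ex_cont
      unfold sph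
      fun_prop) ?_
  · refine h5.trans ?_
    gcongr
  · intro t ht
    apply sph_A u v (μ - μ') (Real.sqrt μ') t V R hV hR ht.1 huv ha (ht.2.trans hb)
    · intro θ hθ
      have h6 : μ' ≤ θ ^ 2 := by
        calc μ' = Real.sqrt μ' ^ 2 := (Real.sq_sqrt hμ').symm
          _ ≤ θ ^ 2 := by
              have := hθ.1
              gcongr
      linarith
    · intro θ hθ
      have h6 : θ ^ 2 ≤ V ^ 2 + μ' := by
        calc θ ^ 2 ≤ Real.sqrt (V ^ 2 + μ') ^ 2 := by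
              have h7 := hθ.2.trans ht.2
              have h8 : 0 ≤ θ := (Real.sqrt_nonneg _).trans hθ.1
              gcongr
          _ = _ := Real.sq_sqrt (by positivity)
      linarith

lemma int_B (u μ μ' V R : ℝ) (hV : 0 < V) (hR : 2 ≤ R) (hu : u ≠ 0) (hμμ : μ ≠ μ')
    (h1 : V ^ 2 ≤ μ) (h2 : V ^ 2 ≤ μ') (h3 : V ^ 2 + μ ≤ (R * V) ^ 2)
    (h4 : V ^ 2 + μ' ≤ (R * V) ^ 2) :
    ‖∫ w in (0 : ℝ)..V ^ 2, ex (u * Real.sqrt (w + μ) - u * Real.sqrt (w + μ'))‖ ≤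
      4 * (R * V) * (2 * R ^ 5 * V ^ 2 / |u * (μ - μ')|) := by
  have hμ' : 0 ≤ μ' := le_trans (by positivity) h2
  rw [subst u u μ μ' V hV.le hμ']
  have hb : Real.sqrt (V ^ 2 + μ') ≤ R * V := by
    rw [Real.sqrt_le_left (by positivity)]
    exact h4
  have ha : V ≤ Real.sqrt μ' := by
    apply Real.le_sqrt_of_sq_le
    exact h2
  have hab : Real.sqrt μ' ≤ Real.sqrt (V ^ 2 + μ') := Real.sqrt_le_sqrt (by nlinarith [sq_nonneg V])
  have huc : u * (μ - μ') ≠ 0 := mul_ne_zero hu (sub_ne_zero.mpr hμμ)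
  have hR0 : 0 < R := by linarith
  have h5 := weight (fun θ => ex (sph u u (μ - μ') θ)) (Real.sqrt μ') (Real.sqrt (V ^ 2 + μ'))
    (2 * R ^ 5 * V ^ 2 / |u * (μ - μ')|) (Real.sqrt_nonneg _) hab
    (by
      have := ex_cont
      unfold sph
      fun_prop) ?_
  · refine h5.trans ?_
    gcongr
  · intro t ht
    apply sph_B u (μ - μ') (Real.sqrt μ') t V R hV hR ht.1 huc ha (ht.2.trans hb)
    · intro θ hθ
      have h6 : μ' ≤ θ ^ 2 := by
        calc μ' = Real.sqrt μ' ^ 2 := (Real.sq_sqrt hμ').symm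
          _ ≤ θ ^ 2 := by
              have := hθ.1
              gcongr
      linarith
    · intro θ hθ
      have h6 : θ ^ 2 ≤ V ^ 2 + μ' := by
        calc θ ^ 2 ≤ Real.sqrt (V ^ 2 + μ') ^ 2 := by
              have h7 := hθ.2.trans ht.2
              have h8 : 0 ≤ θ := (Real.sqrt_nonneg _).trans hθ.1
              gcongr
          _ = _ := Real.sq_sqrt (by positivity)
      linarith

end Pool.Agent.Q148.CG
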