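import Pool.Agent.Q148.CG.SqOsc

set_option autoImplicit false

/-! # The variance for the family of square root phases -/

namespace Pool.Agent.Q148.CG

open Finset MeasureTheory Pool.Agent.Q148.CN

/-- a family of shifts -/
structure Fam (T : ℕ) (V R : ℝ) (μ : ℕ → ℝ) : Prop where
  hT : 1 ≤ T
  hV : 1 ≤ V
  hR : 2 ≤ R
  lo : ∀ j ∈ Ioc T (2 * T), V ^ 2 ≤ μ j
  hi : ∀ j ∈ Ioc T (2 * T), V ^ 2 + μ j ≤ (R * V) ^ 2
  sep : ∀ j ∈ Ioc T (2 * T), ∀ j' ∈ Ioc T (2 * T), V ^ 2 / T * |(j : ℝ) - j'| ≤ |μ j - μ j'|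

/-- the normalised phases -/
noncomputable def zt (Q L : ℕ) (a₀ : ℝ) (μ : ℕ → ℝ) (j : ℕ) (w : ℝ) : ℝ :=
  (Real.sqrt (w + μ j) - a₀) / Q - 1 / L

lemma zt_cont (Q L : ℕ) (a₀ : ℝ) (μ : ℕ → ℝ) (j : ℕ) : Continuous (zt Q L a₀ μ j) := by
  unfold zt
  fun_prop

lemma shift_int (f : ℝ → ℝ) (c a b : ℝ) :
    ‖∫ x in a..b, ex (f x + c)‖ = ‖∫ x in a..b, ex (f x)‖ := by
  simp_rw [ex_add]
  rw [intervalIntegral.integral_mul_const, norm_mul, ex_norm, mul_one]

lemma pair_A {T : ℕ} {V R : ℝ} {μ : ℕ → ℝ} (F : Fam T V R μ) (Q L : ℕ) (hQ : 1 ≤ Q) (a₀ : ℝ)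
    (h h' : ℤ) (hne : h ≠ h') (j j' : ℕ) (hj : j ∈ Ioc T (2 * T)) (hj' : j' ∈ Ioc T (2 * T)) :
    ‖∫ w in (0 : ℝ)..V ^ 2, ex (h * zt Q L a₀ μ j w - h' * zt Q L a₀ μ j' w)‖ ≤
      20 * R ^ 3 * Q * V * Real.sqrt V * (1 / Real.sqrt ((h - h').natAbs : ℝ)) := by
  have hQ0 : (1 : ℝ) ≤ Q := by exact_mod_cast hQ
  have hV := F.hV
  have hR := F.hR
  have hdr : (((h - h').natAbs : ℕ) : ℝ) = |(h : ℝ) - h'| := by
    rw [Nat.cast_natAbs]
    push_cast
    rfl
  have hdpos : 1 ≤ (h - h').natAbs := by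
    have : h - h' ≠ 0 := sub_ne_zero.mpr hne
    exact Int.natAbs_pos.mpr this
  set d : ℕ := (h - h').natAbs with hd
  have hd1 : (1 : ℝ) ≤ d := by exact_mod_cast hdpos
  have h1 : ∀ w : ℝ, (h : ℝ) * zt Q L a₀ μ j w - h' * zt Q L a₀ μ j' w =
      ((h : ℝ) / Q * Real.sqrt (w + μ j) - (h' : ℝ) / Q * Real.sqrt (w + μ j')) +
        ((h - h') * (-a₀ / Q - 1 / L)) := by
    intro w
    unfold zt
    ring
  simp_rw [h1]
  rw [shift_int]
  have hne' : (h : ℝ) / Q ≠ (h' : ℝ) / Q := by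
    intro h2
    have h3 : (h : ℝ) = h' := by
      field_simp at h2
      exact h2
    exact hne (by exact_mod_cast h3)
  have h2 := int_A ((h : ℝ) / Q) ((h' : ℝ) / Q) (μ j) (μ j') V R (by linarith) hR hne'
    (F.lo j hj) (F.lo j' hj') (F.hi j hj) (F.hi j' hj')
  refine h2.trans ?_
  have h3 : |(h : ℝ) / Q - (h' : ℝ) / Q| = d / Q := by
    rw [← sub_div, abs_div, ← hdr, abs_of_pos (by linarith : (0 : ℝ) < Q)]
  rw [h3]
  have hsd : 1 ≤ Real.sqrt d := Real.one_le_sqrt.mpr hd1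
  have hsd2 : Real.sqrt d * Real.sqrt d = d := Real.mul_self_sqrt (by linarith)
  have hsV : 1 ≤ Real.sqrt V := Real.one_le_sqrt.mpr hV
  have h4 : 2 * R / ((d : ℝ) / Q) ≤ 2 * R * Q * Real.sqrt V * (1 / Real.sqrt d) := by
    have h5 : 2 * R / ((d : ℝ) / Q) = 2 * R * Q * 1 * (1 / d) := by field_simp
    rw [h5]
    have h6 : 1 / (d : ℝ) ≤ 1 / Real.sqrt d := by
      apply one_div_le_one_div_of_le (by linarith)
      nlinarith
    gcongr
  have h5 : Real.sqrt (V / ((d : ℝ) / Q)) ≤ Q * Real.sqrt V * (1 / Real.sqrt d) := by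
    rw [Real.sqrt_le_left (by positivity)]
    have h6 : (Q * Real.sqrt V * (1 / Real.sqrt d)) ^ 2 = Q ^ 2 * V / d := by
      rw [mul_pow, mul_pow, div_pow, Real.sq_sqrt (by linarith), Real.sq_sqrt (by linarith)]
      ring
    rw [h6]
    have h7 : V / ((d : ℝ) / Q) = Q * V / d := by field_simp
    rw [h7]
    gcongr
    nlinarith
  have h6 : 2 * R ≤ R ^ 2 := by nlinarith
  calc 4 * (R * V) * (2 * R / ((d : ℝ) / Q) + 4 * R ^ 2 * Real.sqrt (V / ((d : ℝ) / Q))) ≤
      4 * (R * V) * (2 * R * Q * Real.sqrt V * (1 / Real.sqrt d) +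
        4 * R ^ 2 * (Q * Real.sqrt V * (1 / Real.sqrt d))) := by gcongr
    _ = 4 * (R * V) * ((2 * R + 4 * R ^ 2) * (Q * Real.sqrt V * (1 / Real.sqrt d))) := by ring
    _ ≤ 4 * (R * V) * ((5 * R ^ 2) * (Q * Real.sqrt V * (1 / Real.sqrt d))) := by
        gcongr
        linarith
    _ = _ := by ring

lemma pair_B {T : ℕ} {V R : ℝ} {μ : ℕ → ℝ} (F : Fam T V R μ) (Q L : ℕ) (hQ : 1 ≤ Q) (a₀ : ℝ)
    (h : ℤ) (hh : h ≠ 0) (j j' : ℕ) (hj : j ∈ Ioc T (2 * T)) (hj' : j' ∈ Ioc T (2 * T))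
    (hjj : j ≠ j') :
    ‖∫ w in (0 : ℝ)..V ^ 2, ex (h * zt Q L a₀ μ j w - h * zt Q L a₀ μ j' w)‖ ≤
      8 * R ^ 6 * V * Q * T * (1 / |(j : ℝ) - j'|) := by
  have hQ0 : (1 : ℝ) ≤ Q := by exact_mod_cast hQ
  have hT0 : (1 : ℝ) ≤ T := by exact_mod_cast F.hT
  have hV := F.hV
  have hR := F.hR
  have hd : 0 < |(j : ℝ) - j'| := by
    apply abs_pos.mpr
    intro h0
    apply hjj
    exact_mod_cast sub_eq_zero.mp h0
  have hsep := F.sep j hj j' hj'
  have hμ0 : 0 < |μ j - μ j'| := lt_of_lt_of_le (by positivity) hsep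
  have hμμ : μ j ≠ μ j' := by
    intro h0
    rw [h0, sub_self, abs_zero] at hμ0
    exact lt_irrefl _ hμ0
  have h1 : ∀ w : ℝ, (h : ℝ) * zt Q L a₀ μ j w - h * zt Q L a₀ μ j' w =
      ((h : ℝ) / Q * Real.sqrt (w + μ j) - (h : ℝ) / Q * Real.sqrt (w + μ j')) + 0 := by
    intro w
    unfold zt
    ring
  simp_rw [h1]
  rw [shift_int]
  have hh' : (h : ℝ) / Q ≠ 0 := by
    apply div_ne_zero
    · exact_mod_cast hh
    · linarith
  have h2 := int_B ((h : ℝ) / Q) (μ j) (μ j') V R (by linarith) hR hh' hμμ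
    (F.lo j hj) (F.lo j' hj') (F.hi j hj) (F.hi j' hj')
  refine h2.trans ?_
  have hh1 : (1 : ℝ) ≤ |(h : ℝ)| := by
    have := Int.one_le_abs hh
    exact_mod_cast this
  have h3 : V ^ 2 / (Q * T) * |(j : ℝ) - j'| ≤ |(h : ℝ) / Q * (μ j - μ j')| := by
    rw [abs_mul, abs_div, abs_of_pos (by linarith : (0 : ℝ) < Q)]
    calc V ^ 2 / (Q * T) * |(j : ℝ) - j'| = 1 / Q * (V ^ 2 / T * |(j : ℝ) - j'|) := by
          field_simp
      _ ≤ |(h : ℝ)| / Q * |μ j - μ j'| := by gcongr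
  calc 4 * (R * V) * (2 * R ^ 5 * V ^ 2 / |(h : ℝ) / Q * (μ j - μ j')|) ≤
      4 * (R * V) * (2 * R ^ 5 * V ^ 2 / (V ^ 2 / (Q * T) * |(j : ℝ) - j'|)) := by gcongr
    _ = _ := by
        field_simp
        norm_num

/-- the variance -/
lemma variance {T : ℕ} {V R : ℝ} {μ : ℕ → ℝ} (F : Fam T V R μ) (Q L : ℕ) (hQ : 1 ≤ Q) (a₀ : ℝ)
    (hL : 2 ≤ L) :
    ∫ w in (0 : ℝ)..V ^ 2, (∑ j ∈ Ioc T (2 * T), mk L (zt Q L a₀ μ j w) -
      T * ∫ y in (0 : ℝ)..1, mk L y) ^ 2 ≤
      (22 * L) ^ 2 * (4 * L * T * (V ^ 2 + 16 * R ^ 6 * V * Q * T * (1 + Real.log T) +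
        160 * R ^ 3 * Q * V * Real.sqrt V * T * Real.sqrt L)) := by
  obtain ⟨c, hc1, hc2, hc3⟩ := mk_fourier L hL
  have hT1 := F.hT
  have hTr : (1 : ℝ) ≤ T := by exact_mod_cast hT1
  have hV := F.hV
  have hR := F.hR
  have hQ0 : (1 : ℝ) ≤ Q := by exact_mod_cast hQ
  set I : Finset (ℕ × ℕ) := (KI L) ×ˢ (Ioc T (2 * T)) with hI
  have hcard : ((Ioc T (2 * T)).card : ℝ) = T := by
    rw [Nat.card_Ioc]
    have : 2 * T - T = T := by omega
    rw [this]
  have hS : ∀ x : ℝ, ((∑ t ∈ Ioc T (2 * T), mk L (zt Q L a₀ μ t x) -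
      T * ∫ y in (0 : ℝ)..1, mk L y : ℝ) : ℂ) =
      ∑ i ∈ I, c i.1 * ex ((fr L i.1 : ℝ) * zt Q L a₀ μ i.2 x) := by
    intro x
    rw [hI, Finset.sum_product_right]
    push_cast
    rw [← hc3]
    have h1 : ∀ t ∈ Ioc T (2 * T), ((mk L (zt Q L a₀ μ t x) : ℝ) : ℂ) =
        c (2 * L - 1) + ∑ k ∈ KI L, c k * ex ((fr L k : ℝ) * zt Q L a₀ μ t x) := by
      intro t _
      rw [hc1]
      unfold KI fr
      have h2 : 2 * L - 1 ∈ range (4 * L) := by
        rw [Finset.mem_range]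
        omega
      rw [← Finset.add_sum_erase _ _ h2]
      congr 1
      have h3 : (((2 * L - 1 : ℕ) : ℤ) - (2 * L - 1 : ℤ) : ℤ) = 0 := by omega
      rw [h3]
      simp [ex_zero]
    rw [Finset.sum_congr rfl h1, Finset.sum_add_distrib, Finset.sum_const, nsmul_eq_mul]
    have h4 : ((Ioc T (2 * T)).card : ℂ) = T := by exact_mod_cast hcard
    rw [h4]
    ring
  have hSn : ∀ x : ℝ, (∑ t ∈ Ioc T (2 * T), mk L (zt Q L a₀ μ t x) -
      T * ∫ y in (0 : ℝ)..1, mk L y) ^ 2 =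
      ‖∑ i ∈ I, c i.1 * ex ((fr L i.1 : ℝ) * zt Q L a₀ μ i.2 x)‖ ^ 2 := by
    intro x
    rw [← hS, Complex.norm_real, Real.norm_eq_abs, sq_abs]
  simp_rw [hSn]
  refine (sq_int I (fun i => c i.1) (fun i x => (fr L i.1 : ℝ) * zt Q L a₀ μ i.2 x) 0 (V ^ 2)
    (fun i _ => (continuous_const.mul (zt_cont Q L a₀ μ i.2)).continuousOn)).trans ?_
  set P : ℝ := 20 * R ^ 3 * Q * V * Real.sqrt V with hP
  have hP0 : 0 ≤ P := by
    rw [hP]
    positivity
  set bd : ℕ × ℕ → ℕ × ℕ → ℝ := fun i j =>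
    if i.1 = j.1 then (if i.2 = j.2 then V ^ 2 else 8 * R ^ 6 * V * Q * T * (1 / |(i.2 : ℝ) - j.2|))
    else P * (1 / Real.sqrt (((j.1 - i.1) + (i.1 - j.1) : ℕ) : ℝ))
    with hbd
  have hpair : ∀ i ∈ I, ∀ j ∈ I, ‖c i.1‖ * ‖c j.1‖ *
      ‖∫ x in (0 : ℝ)..V ^ 2, ex ((fr L i.1 : ℝ) * zt Q L a₀ μ i.2 x -
        (fr L j.1 : ℝ) * zt Q L a₀ μ j.2 x)‖ ≤ (22 * L) ^ 2 * bd i j := by
    intro i hi j hj
    rw [hI, Finset.mem_product] at hi hj
    have hi1 : i.1 < 4 * L := by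
      have := hi.1
      unfold KI at this
      rw [Finset.mem_erase, Finset.mem_range] at this
      exact this.2
    have hj1 : j.1 < 4 * L := by
      have := hj.1
      unfold KI at this
      rw [Finset.mem_erase, Finset.mem_range] at this
      exact this.2
    have h1 := hc2 i.1 hi1
    have h2 := hc2 j.1 hj1
    have h3 : ‖∫ x in (0 : ℝ)..V ^ 2, ex ((fr L i.1 : ℝ) * zt Q L a₀ μ i.2 x -
        (fr L j.1 : ℝ) * zt Q L a₀ μ j.2 x)‖ ≤ bd i j := by
      by_cases hij : i.1 = j.1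
      · by_cases hij2 : i.2 = j.2
        · have h4 := triv_int (fun x => (fr L i.1 : ℝ) * zt Q L a₀ μ i.2 x -
              (fr L j.1 : ℝ) * zt Q L a₀ μ j.2 x) 0 (V ^ 2) (by positivity)
          refine h4.trans ?_
          rw [hbd]
          simp only [hij, hij2, if_true]
          linarith
        · have h4 := pair_B F Q L hQ a₀ (fr L i.1) (fr_ne L i.1 (by omega) hi.1) i.2 j.2 hi.2 hj.2
            hij2
          rw [← hij]
          refine h4.trans ?_
          rw [hbd]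
          simp only [hij, hij2, if_true, if_false]
          exact le_refl _
      · have h4 := pair_A F Q L hQ a₀ (fr L i.1) (fr L j.1) (fr_inj L i.1 j.1 hij) i.2 j.2 hi.2 hj.2
        refine h4.trans ?_
        rw [hbd]
        simp only [hij, if_false]
        rw [fr_dist]
    have hb0 : 0 ≤ bd i j := (norm_nonneg _).trans h3
    calc _ ≤ (22 * L) * (22 * L) * bd i j := by gcongr
      _ = _ := by ring
  have hlog : 0 ≤ Real.log T := Real.log_nonneg hTr
  calc _ ≤ ∑ i ∈ I, ∑ j ∈ I, (22 * (L : ℝ)) ^ 2 * bd i j := by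
        apply Finset.sum_le_sum
        intro i hi
        apply Finset.sum_le_sum
        intro j hj
        exact hpair i hi j hj
    _ = (22 * L) ^ 2 * ∑ i ∈ I, ∑ j ∈ I, bd i j := by
        rw [Finset.mul_sum]
        apply Finset.sum_congr rfl
        intro i _
        rw [Finset.mul_sum]
    _ ≤ _ := by
        gcongr
        have h1 : ∀ i ∈ I, ∑ j ∈ I, bd i j ≤ V ^ 2 + 16 * R ^ 6 * V * Q * T * (1 + Real.log T) +
            160 * R ^ 3 * Q * V * Real.sqrt V * T * Real.sqrt L := by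
          intro i hi
          rw [hbd]
          simp only
          have hi' := hi
          rw [hI, Finset.mem_product] at hi'
          rw [hI, Finset.sum_product]
          simp only
          rw [← Finset.add_sum_erase _ _ hi'.1]
          have h5 : ∑ x ∈ Ioc T (2 * T), (if i.1 = i.1 then (if i.2 = x then V ^ 2 else
                8 * R ^ 6 * V * Q * T * (1 / |(i.2 : ℝ) - x|))
                else P * (1 / Real.sqrt (((i.1 - i.1) + (i.1 - i.1) : ℕ) : ℝ))) ≤
              V ^ 2 + 16 * R ^ 6 * V * Q * T * (1 + Real.log T) := by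
            simp only [if_true]
            rw [← Finset.add_sum_erase _ _ hi'.2]
            simp only [if_true]
            have h5 : ∑ x ∈ (Ioc T (2 * T)).erase i.2, (if i.2 = x then V ^ 2 else
                8 * R ^ 6 * V * Q * T * (1 / |(i.2 : ℝ) - x|)) =
                8 * R ^ 6 * V * Q * T * ∑ x ∈ (Ioc T (2 * T)).erase i.2, 1 / |(i.2 : ℝ) - x| := by
              rw [Finset.mul_sum]
              apply Finset.sum_congr rfl
              intro x hx
              rw [if_neg (Finset.ne_of_mem_erase hx).symm]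
            rw [h5]
            have h6 := harm T i.2 hi'.2 hT1
            calc V ^ 2 + 8 * R ^ 6 * V * Q * T *
                  ∑ x ∈ (Ioc T (2 * T)).erase i.2, 1 / |(i.2 : ℝ) - x| ≤
                V ^ 2 + 8 * R ^ 6 * V * Q * T * (2 * (1 + Real.log T)) := by gcongr
              _ = _ := by ring
          have h6 : ∑ k ∈ (KI L).erase i.1, ∑ x ∈ Ioc T (2 * T),
              (if i.1 = k then (if i.2 = x then V ^ 2 else
                8 * R ^ 6 * V * Q * T * (1 / |(i.2 : ℝ) - x|))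
                else P * (1 / Real.sqrt (((k - i.1) + (i.1 - k) : ℕ) : ℝ))) ≤
              160 * R ^ 3 * Q * V * Real.sqrt V * T * Real.sqrt L := by
            have h7 : ∑ k ∈ (KI L).erase i.1, ∑ x ∈ Ioc T (2 * T),
              (if i.1 = k then (if i.2 = x then V ^ 2 else
                8 * R ^ 6 * V * Q * T * (1 / |(i.2 : ℝ) - x|))
                else P * (1 / Real.sqrt (((k - i.1) + (i.1 - k) : ℕ) : ℝ))) =
                (T * P) * ∑ k ∈ (KI L).erase i.1,
                  1 / Real.sqrt (((k - i.1) + (i.1 - k) : ℕ) : ℝ) := by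
              rw [Finset.mul_sum]
              apply Finset.sum_congr rfl
              intro k hk
              have hne : ¬ (i.1 = k) := (Finset.ne_of_mem_erase hk).symm
              simp only [hne, if_false]
              rw [Finset.sum_const, nsmul_eq_mul, hcard]
              ring
            rw [h7]
            have hKlt : ∀ x ∈ KI L, x < 4 * L := by
              intro x hx
              unfold KI at hx
              rw [Finset.mem_erase, Finset.mem_range] at hx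
              exact hx.2
            have h8 := sum_dist (KI L) (4 * L) i.1 hKlt (hKlt _ hi'.1)
              (fun d => 1 / Real.sqrt (d : ℝ)) (fun d => by positivity)
            have h9 := sum_sqrt (4 * L)
            have h10 : Real.sqrt ((4 * L : ℕ) : ℝ) = 2 * Real.sqrt L := by
              push_cast
              rw [Real.sqrt_mul (by norm_num)]
              congr 1
              rw [show (4 : ℝ) = 2 ^ 2 by norm_num, Real.sqrt_sq (by norm_num)]
            calc _ ≤ (T * P) * (2 * (2 * (2 * Real.sqrt L))) := by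
                  rw [← h10]
                  gcongr
                  exact h8.trans (by gcongr)
              _ = _ := by rw [hP]; ring
          exact add_le_add h5 h6
        calc ∑ i ∈ I, ∑ j ∈ I, bd i j ≤ ∑ i ∈ I, (V ^ 2 +
              16 * R ^ 6 * V * Q * T * (1 + Real.log T) +
              160 * R ^ 3 * Q * V * Real.sqrt V * T * Real.sqrt L) := Finset.sum_le_sum h1
          _ = (I.card : ℝ) * (V ^ 2 + 16 * R ^ 6 * V * Q * T * (1 + Real.log T) +
              160 * R ^ 3 * Q * V * Real.sqrt V * T * Real.sqrt L) := by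
              rw [Finset.sum_const, nsmul_eq_mul]
          _ ≤ _ := by
              have h2 : (I.card : ℝ) ≤ 4 * L * T := by
                rw [hI, Finset.card_product]
                push_cast
                rw [hcard]
                have := KI_card L
                gcongr
              gcongr

end Pool.Agent.Q148.CG
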